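import Pool.Agent.W38.UPDb
import Pool.Agent.TH930.LT.Param

set_option autoImplicit false

/-! The shortcut map on the natural numbers: times, amplification, descent in logarithmic time. -/

namespace Pool.Agent.K4H97.CE

open Filter Topology

/-- The `3x+1` function. -/
def T (n : ℕ) : ℕ := if n % 2 = 0 then n / 2 else (3 * n + 1) / 2

theorem T_eq : T = Pool.Agent.Helper894.Collatz.T := rfl

/-- `1` is reached within time `t` -/
def StopsBy (t : ℝ) (n : ℕ) : Prop := ∃ k : ℕ, (k : ℝ) ≤ t ∧ T^[k] n = 1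

theorem StopsBy.mono {s t : ℝ} (h : s ≤ t) {n : ℕ} (hs : StopsBy s n) : StopsBy t n := by
  obtain ⟨k, hk, h1⟩ := hs
  exact ⟨k, hk.trans h, h1⟩

theorem T_pos {n : ℕ} (hn : 1 ≤ n) : 1 ≤ T n := by
  unfold T; split_ifs <;> omega

theorem T_le (n : ℕ) : T n ≤ 2 * n := by
  unfold T; split_ifs <;> omega

theorem iter_pos {n : ℕ} (hn : 1 ≤ n) (k : ℕ) : 1 ≤ T^[k] n := by
  induction k with
  | zero => exact hn
  | succ k ih => rw [Function.iterate_succ_apply']; exact T_pos ih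

/-- after `1` -/
theorem iter_one (k : ℕ) : T^[k] 1 = 1 ∨ T^[k] 1 = 2 := by
  induction k with
  | zero => left; rfl
  | succ k ih =>
    rw [Function.iterate_succ_apply']
    rcases ih with h | h <;> rw [h] <;> simp [T]

theorem not_stops_pre {s : ℝ} (hs : 1 ≤ s) {a m k : ℕ} (hk : T^[k] m = a) (h : ¬ StopsBy s a) :
    ¬ StopsBy s m := by
  rintro ⟨j, hj, hj1⟩
  rcases le_total k j with h1 | h1
  · obtain ⟨d, rfl⟩ := Nat.exists_eq_add_of_le h1
    rw [add_comm, Function.iterate_add_apply, hk] at hj1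
    apply h
    refine ⟨d, ?_, hj1⟩
    push_cast at hj
    have : (0 : ℝ) ≤ k := Nat.cast_nonneg _
    linarith
  · obtain ⟨d, rfl⟩ := Nat.exists_eq_add_of_le h1
    rw [add_comm, Function.iterate_add_apply, hj1] at hk
    apply h
    rcases iter_one d with h2 | h2
    · rw [hk] at h2
      exact ⟨0, by push_cast; linarith, h2⟩
    · rw [hk] at h2
      exact ⟨1, by push_cast; linarith, by rw [h2]; rfl⟩

theorem T_cast (n k : ℕ) : ((T^[k] n : ℕ) : ℤ) = (Pool.Agent.H366R2.KGen.TK 1)^[k] (n : ℤ) := by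
  induction k with
  | zero => rfl
  | succ k ih =>
    rw [Function.iterate_succ_apply', Function.iterate_succ_apply', ← ih]
    set y := T^[k] n with hy
    unfold T Pool.Agent.H366R2.KGen.TK
    rcases Nat.mod_two_eq_zero_or_one y with h | h
    · rw [if_pos h, if_pos (by omega)]; omega
    · rw [if_neg (by omega), if_neg (by omega)]; omega

theorem block_finite (x : ℝ) (P : ℕ → Prop) :
    {n : ℕ | x / 2 < (n : ℝ) ∧ (n : ℝ) ≤ x ∧ P n}.Finite := by
  apply (Set.finite_Iic ⌊x⌋₊).subset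
  rintro n ⟨_, h2, _⟩
  exact Nat.le_floor h2

theorem below_finite (x : ℝ) (P : ℕ → Prop) : {n : ℕ | 1 ≤ n ∧ (n : ℝ) ≤ x ∧ P n}.Finite := by
  apply (Set.finite_Iic ⌊x⌋₊).subset
  rintro n ⟨_, h2, _⟩
  exact Nat.le_floor h2

/-- uniform density of the predecessor sets -/
theorem upd : ∃ c : ℝ, 0 < c ∧ ∀ a : ℕ, 0 < a → ¬ 3 ∣ a → ∀ x : ℝ, (a : ℝ) ≤ x →
    c * x / a ≤ ({n : ℕ | x / 2 < (n : ℝ) ∧ (n : ℝ) ≤ x ∧ ∃ k : ℕ, T^[k] n = a}.ncard : ℝ) := by
  classical
  obtain ⟨c, K, hc, hK, h⟩ := Pool.Agent.W38.UPD.main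
  refine ⟨c, hc, fun a ha ha3 x hx => ?_⟩
  obtain ⟨S, hS, hcard⟩ := h a (by exact_mod_cast ha) (by omega) x (by exact_mod_cast hx)
  rw [Int.cast_natCast] at hcard
  refine hcard.trans ?_
  have haR : (0 : ℝ) < a := by exact_mod_cast ha
  have hx0 : 0 < x := lt_of_lt_of_le haR hx
  have hpos : ∀ z ∈ S, 0 < z := by
    intro z hz
    have h1 := (hS z hz).1
    have : (0 : ℝ) < z := by linarith
    exact_mod_cast this
  have hsub : ((S.image Int.toNat : Finset ℕ) : Set ℕ) ⊆ {n : ℕ | x / 2 < (n : ℝ) ∧ (n : ℝ) ≤ x ∧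
      ∃ k : ℕ, T^[k] n = a} := by
    intro n hn
    rw [Finset.mem_coe, Finset.mem_image] at hn
    obtain ⟨z, hz, rfl⟩ := hn
    have hz0 := hpos z hz
    obtain ⟨h1, h2, j, h3, h4⟩ := hS z hz
    have hcast : ((z.toNat : ℕ) : ℤ) = z := Int.toNat_of_nonneg hz0.le
    have hcastR : ((z.toNat : ℕ) : ℝ) = (z : ℝ) := by exact_mod_cast congrArg (Int.cast : ℤ → ℝ) hcast
    have hk2 := T_cast z.toNat j
    refine ⟨by rw [hcastR]; exact h1, by rw [hcastR]; exact h2, j, ?_⟩
    rw [hcast, h4] at hk2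
    exact_mod_cast hk2
  have h1 := Set.ncard_le_ncard hsub (block_finite x _)
  rw [Set.ncard_coe_finset, Finset.card_image_of_injOn] at h1
  · exact_mod_cast h1
  · intro z hz z' hz' he
    have h2 := hpos z hz
    have h3 := hpos z' hz'
    change z.toNat = z'.toNat at he
    omega

/-- halving -/
theorem iter_pow_mul (a u : ℕ) : T^[a] (2 ^ a * u) = u := by
  induction a with
  | zero => simp
  | succ a ih =>
    rw [Function.iterate_succ_apply]
    have : T (2 ^ (a + 1) * u) = 2 ^ a * u := by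
      unfold T
      have e : 2 ^ (a + 1) * u = 2 * (2 ^ a * u) := by ring
      rw [e, if_pos (by omega)]
      omega
    rw [this, ih]

end Pool.Agent.K4H97.CE
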