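import Pool.Agent.K4H97.CE.Base
import Pool.Agent.H319R2.Sparse

set_option autoImplicit false

/-! Descent in logarithmic time, in a convenient form. -/

namespace Pool.Agent.K4H97.CE

open Filter Topology
open Pool.Agent.TH930.LT

/-- all but few of the `n ≤ x` reach a value `≤ y` after at most `B log n` steps -/
def Law (B c : ℝ) : Prop := ∃ C : ℝ, 0 < C ∧ ∀ x y : ℝ, 2 ≤ x → 1 ≤ y →
  ({n : ℕ | 1 ≤ n ∧ (n : ℝ) ≤ x ∧ ¬ ∃ m : ℕ, ((T^[m] n : ℕ) : ℝ) ≤ y ∧ (m : ℝ) ≤ B * Real.log n}.ncard : ℝ) ≤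
    C * Real.log x ^ 3 * (x / y ^ c)

theorem law_of {B c C : ℝ} (hB : 0 ≤ B) (hC : 0 < C)
    (h : ∀ x y : ℝ, 2 ≤ x → 1 ≤ y →
      ({n : ℕ | 1 ≤ n ∧ (n : ℝ) ≤ x ∧ timeBad B y n}.ncard : ℝ) ≤ C * (Real.log x) ^ 3 * (x / y ^ c)) :
    Law B c := by
  refine ⟨C, hC, fun x y hx hy => le_trans ?_ (h x y hx hy)⟩
  have hsub : {n : ℕ | 1 ≤ n ∧ (n : ℝ) ≤ x ∧ ¬ ∃ m : ℕ, ((T^[m] n : ℕ) : ℝ) ≤ y ∧ (m : ℝ) ≤ B * Real.log n} ⊆
      {n : ℕ | 1 ≤ n ∧ (n : ℝ) ≤ x ∧ timeBad B y n} := by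
    rintro n ⟨h1, h2, h3⟩
    refine ⟨h1, h2, ?_⟩
    rintro ⟨m, h4, h5⟩
    apply h3
    refine ⟨m, h4, h5.trans ?_⟩
    apply mul_le_mul_of_nonneg_left _ hB
    have h6 : (0 : ℝ) ≤ Real.log ((Pool.Agent.Helper894.Collatz.T^[m] n : ℕ) : ℝ) := Real.log_natCast_nonneg _
    linarith
  exact_mod_cast Set.ncard_le_ncard hsub (below_finite x _)

theorem law_mono {B B' c : ℝ} (hBB : B ≤ B') (h : Law B c) : Law B' c := by
  obtain ⟨C, hC, h⟩ := h
  refine ⟨C, hC, fun x y hx hy => le_trans ?_ (h x y hx hy)⟩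
  have hsub : {n : ℕ | 1 ≤ n ∧ (n : ℝ) ≤ x ∧ ¬ ∃ m : ℕ, ((T^[m] n : ℕ) : ℝ) ≤ y ∧ (m : ℝ) ≤ B' * Real.log n} ⊆
      {n : ℕ | 1 ≤ n ∧ (n : ℝ) ≤ x ∧ ¬ ∃ m : ℕ, ((T^[m] n : ℕ) : ℝ) ≤ y ∧ (m : ℝ) ≤ B * Real.log n} := by
    rintro n ⟨h1, h2, h3⟩
    refine ⟨h1, h2, ?_⟩
    rintro ⟨m, h4, h5⟩
    apply h3
    refine ⟨m, h4, h5.trans ?_⟩
    apply mul_le_mul_of_nonneg_right hBB
    exact Real.log_natCast_nonneg n
  exact_mod_cast Set.ncard_le_ncard hsub (below_finite x _)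

theorem law_one {B : ℝ} (hB : 2 / Real.log (4 / 3) < B) : ∃ c : ℝ, 0 < c ∧ c ≤ 1 ∧ Law B c := by
  have hl2 : 0 < Real.log 2 := Real.log_pos (by norm_num)
  have hl3 : 0 < Real.log 3 := Real.log_pos (by norm_num)
  have e43 : Real.log (4 / 3) = 2 * Real.log 2 - Real.log 3 := by
    rw [Real.log_div (by norm_num) (by norm_num), show (4 : ℝ) = 2 ^ 2 by norm_num, Real.log_pow]
    push_cast; ring
  have h43 : 0 < Real.log (4 / 3) := Real.log_pos (by norm_num)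
  have hk := kappa_lt
  have hB0 : 0 < B := lt_trans (by positivity) hB
  set p₀ : ℝ := (Real.log 2 - 1 / B) / Real.log 3 with hp₀
  have hB1 : 1 / B < Real.log (4 / 3) / 2 := by
    rw [div_lt_iff₀ h43] at hB
    rw [div_lt_iff₀ hB0]
    linarith
  have h0 : 1 / 2 < p₀ := by
    rw [hp₀, lt_div_iff₀ hl3]
    rw [e43] at hB1
    linarith
  have h1 : p₀ < 631 / 1000 := by
    refine lt_trans ?_ hk
    rw [hp₀]
    apply div_lt_div_of_pos_right _ hl3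
    have : 0 < 1 / B := by positivity
    linarith
  obtain ⟨τ, p, c, hτ0, hτ1, hp1, hp2, hc1, hc2, hc3⟩ := exists_param h0 h1.le
  have hBa : 1 < B * (Real.log 2 - p * Real.log 3) := by
    have h2 : p * Real.log 3 < p₀ * Real.log 3 := mul_lt_mul_of_pos_right hp2 hl3
    have h3 : p₀ * Real.log 3 = Real.log 2 - 1 / B := by rw [hp₀]; field_simp
    rw [h3] at h2
    have h4 : B * (1 / B) < B * (Real.log 2 - p * Real.log 3) :=
      mul_lt_mul_of_pos_left (by linarith) hB0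
    rwa [mul_one_div_cancel hB0.ne'] at h4
  have hr0 := rate_pos h0
  obtain ⟨C, hC, h⟩ := time_law hτ0 hτ1 hp1 (by linarith) hB0 hBa (c := c) (by linarith) (by linarith) hc3
  exact ⟨c, by linarith, by linarith, law_of hB0.le hC h⟩

theorem law_two : ∃ B c : ℝ, 0 < B ∧ 0.049 < c ∧ c ≤ 1 ∧ Law B c := by
  have hl2 : 0 < Real.log 2 := Real.log_pos (by norm_num)
  have hl3 : 0 < Real.log 3 := Real.log_pos (by norm_num)
  have e43 : Real.log (4 / 3) = 2 * Real.log 2 - Real.log 3 := by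
    rw [Real.log_div (by norm_num) (by norm_num), show (4 : ℝ) = 2 ^ 2 by norm_num, Real.log_pow]
    push_cast; ring
  have h43 : 0 < Real.log (4 / 3) := Real.log_pos (by norm_num)
  have hk := kappa_lt
  have h0 : 1 / 2 < Real.log 2 / Real.log 3 := by
    rw [lt_div_iff₀ hl3]
    linarith
  obtain ⟨τ, p, c, hτ0, hτ1, hp1, hp2, hc1, hc2, hc3⟩ := exists_param h0 hk.le
  have ha : 0 < Real.log 2 - p * Real.log 3 := by
    rw [lt_div_iff₀ hl3] at hp2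
    linarith
  have hr0 := rate_pos h0
  have hb := Pool.Agent.H319R2.beta_lt
  unfold Pool.Agent.H319R2.beta at hb
  unfold rate at hc1
  obtain ⟨C, hC, h⟩ := time_law hτ0 hτ1 hp1 (by linarith) (B := 2 / (Real.log 2 - p * Real.log 3))
    (by positivity) (by rw [div_mul_cancel₀ _ ha.ne']; norm_num) (c := c) (by linarith) (by linarith) hc3
  exact ⟨2 / (Real.log 2 - p * Real.log 3), c, by positivity, by linarith, by linarith, law_of (by positivity) hC h⟩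

end Pool.Agent.K4H97.CE
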