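import Pool.Agent.K4H97.CE.Low
import Pool.Agent.K4H97.CE.Desc

set_option autoImplicit false

/-! The exponent of the exceptional set: lower and upper bounds. -/

namespace Pool.Agent.K4H97.CE

open Filter Topology

/-- the number of exceptions of the logarithmic bound up to `x` -/
noncomputable def cnt (c x : ℝ) : ℕ := {n : ℕ | 1 ≤ n ∧ (n : ℝ) ≤ x ∧ ¬ StopsBy (c * Real.log n) n}.ncard

theorem cnt_mono {c c' : ℝ} (h : c ≤ c') (x : ℝ) : cnt c' x ≤ cnt c x := by
  unfold cnt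
  apply Set.ncard_le_ncard _ (below_finite x _)
  rintro n ⟨h1, h2, h3⟩
  refine ⟨h1, h2, fun h4 => h3 (h4.mono ?_)⟩
  exact mul_le_mul_of_nonneg_right h (Real.log_natCast_nonneg n)

theorem cnt_le {c x : ℝ} (hx : 0 ≤ x) : (cnt c x : ℝ) ≤ x := by
  have h1 : cnt c x ≤ ⌊x⌋₊ := by
    have hsub : {n : ℕ | 1 ≤ n ∧ (n : ℝ) ≤ x ∧ ¬ StopsBy (c * Real.log n) n} ⊆
        ((Finset.Icc 1 ⌊x⌋₊ : Finset ℕ) : Set ℕ) := by
      rintro n ⟨h1, h2, -⟩
      rw [Finset.coe_Icc, Set.mem_Icc]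
      exact ⟨h1, Nat.le_floor h2⟩
    have := Set.ncard_le_ncard hsub (Finset.finite_toSet _)
    rwa [Set.ncard_coe_finset, Nat.card_Icc, Nat.add_sub_cancel] at this
  exact (by exact_mod_cast h1 : (cnt c x : ℝ) ≤ (⌊x⌋₊ : ℝ)).trans (Nat.floor_le hx)

theorem lower {c l : ℝ} (hc : 0 < c) (hcl : c < l) (hl : 1 < l * Real.log 2)
    (hf : ∃ᶠ n : ℕ in atTop, ¬ StopsBy (l * Real.log n) n) {ε : ℝ} (hε : 0 < ε) :
    ∃ᶠ x : ℝ in atTop, x ^ (1 - c / l - ε) ≤ (cnt c x : ℝ) := by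
  have hl0 : 0 < l := hc.trans hcl
  obtain ⟨c₁, D, K, hc₁, hD, hK, h⟩ := core winLaw_zero hl hf
  rw [Filter.frequently_atTop]
  intro X
  -- how large `t` must be
  set q : ℝ := 1 / c - 1 / l with hq
  have hq0 : 0 < q := by
    rw [hq, sub_pos]
    exact one_div_lt_one_div_of_lt hc hcl
  obtain ⟨t, ht, hx⟩ := h (max (max 1 (c * Real.log (max X 1))) (max ((D + K / l) / q)
    (c * ((K / l - Real.log c₁) / ε))))
  have ht1 : 1 ≤ t := ((le_max_left _ _).trans (le_max_left _ _)).trans ht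
  have ht2 : c * Real.log (max X 1) ≤ t := ((le_max_right _ _).trans (le_max_left _ _)).trans ht
  have ht3 : (D + K / l) / q ≤ t := ((le_max_left _ _).trans (le_max_right _ _)).trans ht
  have ht4 : c * ((K / l - Real.log c₁) / ε) ≤ t := ((le_max_right _ _).trans (le_max_right _ _)).trans ht
  set x : ℝ := Real.exp (t / c) with hxdef
  have hx0 : 0 < x := Real.exp_pos _
  have hlogx : Real.log x = t / c := Real.log_exp _
  have h1 := hx x hx0 (by
    rw [hlogx]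
    rw [div_le_iff₀ hq0] at ht3
    have e : t * q = t / c - t / l := by rw [hq]; ring
    have e2 : (t + K) / l = t / l + K / l := by ring
    rw [e2]
    linarith)
  refine ⟨x, ?_, ?_⟩
  · have h2 : Real.log (max X 1) ≤ t / c := by rw [le_div_iff₀ hc]; linarith
    have h3 : max X 1 ≤ x := by
      rw [← Real.exp_log (show 0 < max X 1 by positivity)]
      exact Real.exp_le_exp.2 h2
    exact (le_max_left _ _).trans h3
  · have h2 : (({m : ℕ | 1 ≤ m ∧ (m : ℝ) ≤ x ∧ ∀ h ≤ 0, ¬ StopsBy t (m + h)} : Set ℕ).ncard : ℝ) ≤ cnt c x := by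
      have hsub : {m : ℕ | 1 ≤ m ∧ (m : ℝ) ≤ x ∧ ∀ h ≤ 0, ¬ StopsBy t (m + h)} ⊆
          {n : ℕ | 1 ≤ n ∧ (n : ℝ) ≤ x ∧ ¬ StopsBy (c * Real.log n) n} := by
        rintro m ⟨g1, g2, g3⟩
        refine ⟨g1, g2, fun g4 => g3 0 le_rfl (g4.mono ?_)⟩
        have hm0 : (0 : ℝ) < m := by exact_mod_cast g1
        have g5 : Real.log m ≤ t / c := by
          rw [← hlogx]
          exact Real.log_le_log hm0 g2
        rw [le_div_iff₀ hc] at g5
        linarith
      exact_mod_cast Set.ncard_le_ncard hsub (below_finite x _)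
    refine le_trans ?_ (h1.trans h2)
    rw [Real.rpow_def_of_pos hx0, hlogx]
    have e : c₁ * x * Real.exp (-((t + K) / l)) = Real.exp (Real.log c₁ + t / c + -((t + K) / l)) := by
      rw [Real.exp_add, Real.exp_add, Real.exp_log hc₁]
    rw [e]
    apply Real.exp_le_exp.2
    have e3 : t / c * (1 - c / l - ε) = t / c - t / l - ε * (t / c) := by
      field_simp
    have e4 : (t + K) / l = t / l + K / l := by ring
    have h5 : (K / l - Real.log c₁) / ε ≤ t / c := by rw [le_div_iff₀ hc]; linarith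
    rw [div_le_iff₀ hε] at h5
    rw [e3, e4]
    linarith

theorem upper {c B a l M : ℝ} (hBc : B < c) (ha : 0 < a) (hl : 0 < l)
    (hlaw : Law B a) (hst : ∀ n : ℕ, 1 ≤ n → StopsBy (l * Real.log n + M) n) {ε : ℝ} (hε : 0 < ε) :
    ∀ᶠ x : ℝ in atTop, (cnt c x : ℝ) ≤ x ^ (l / (l + a * (c - B)) + ε) := by
  obtain ⟨C, hC, h⟩ := hlaw
  set k : ℝ := a * (c - B) with hk
  have hcB : 0 < c - B := by linarith
  have hk0 : 0 < k := by positivity
  set θ : ℝ := (c - B) / (l + k) with hθ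
  have hθ0 : 0 < θ := by positivity
  set β : ℝ := l / (l + k) with hβ
  have hβ0 : 0 < β := by positivity
  have hβθ : β * (c - B) = l * θ := by rw [hβ, hθ]; ring
  have hβ1 : 1 - θ * a = β := by
    rw [hβ, hθ, hk]
    field_simp
    ring
  set C' : ℝ := C * Real.exp (a * M / l) with hC'
  have hC'0 : 0 < C' := by positivity
  have e1 : ∀ᶠ x : ℝ in atTop, 1 + C' * Real.log x ^ 3 ≤ x ^ ε := by
    have h1 : (fun x : ℝ => Real.log x ^ (3 : ℝ)) =o[atTop] fun x => x ^ ε :=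
      isLittleO_log_rpow_rpow_atTop 3 hε
    have h2 := h1.bound (show 0 < 1 / (2 * C') by positivity)
    have h3 : ∀ᶠ x : ℝ in atTop, 2 ≤ x ^ ε := (tendsto_rpow_atTop hε).eventually_ge_atTop 2
    filter_upwards [h2, h3, eventually_ge_atTop 1] with x hx1 hx2 hx3
    have hlog : 0 ≤ Real.log x := Real.log_nonneg hx3
    rw [Real.norm_eq_abs, Real.norm_eq_abs, abs_of_nonneg (by positivity), abs_of_nonneg (by positivity)] at hx1
    have e : Real.log x ^ (3 : ℝ) = Real.log x ^ 3 := by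
      rw [show (3 : ℝ) = ((3 : ℕ) : ℝ) by norm_num, Real.rpow_natCast]
    rw [e] at hx1
    have h4 : C' * Real.log x ^ 3 ≤ x ^ ε / 2 := by
      calc C' * Real.log x ^ 3 ≤ C' * (1 / (2 * C') * x ^ ε) := mul_le_mul_of_nonneg_left hx1 hC'0.le
        _ = x ^ ε / 2 := by field_simp
    linarith
  have e2 : ∀ᶠ x : ℝ in atTop, M / (l * θ) ≤ Real.log x := Real.tendsto_log_atTop.eventually_ge_atTop _
  filter_upwards [e1, e2, eventually_ge_atTop 2] with x hx1 hx2 hx3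
  have hx0 : 0 < x := by linarith
  have hlogx : 0 < Real.log x := Real.log_pos (by linarith)
  set y : ℝ := Real.exp (θ * Real.log x - M / l) with hy
  have hy1 : 1 ≤ y := by
    rw [hy]
    apply Real.one_le_exp
    rw [div_le_iff₀ (by positivity)] at hx2
    rw [sub_nonneg, div_le_iff₀ hl]
    linarith
  have hlogy : Real.log y = θ * Real.log x - M / l := Real.log_exp _
  have h5 := h x y hx3 hy1
  -- the exceptions
  have hsub : {n : ℕ | 1 ≤ n ∧ (n : ℝ) ≤ x ∧ ¬ StopsBy (c * Real.log n) n} ⊆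
      {n : ℕ | 1 ≤ n ∧ (n : ℝ) ≤ x ^ β ∧ True} ∪ {n : ℕ | 1 ≤ n ∧ (n : ℝ) ≤ x ∧
        ¬ ∃ m : ℕ, ((T^[m] n : ℕ) : ℝ) ≤ y ∧ (m : ℝ) ≤ B * Real.log n} := by
    rintro n ⟨h1, h2, h3⟩
    by_cases h4 : (n : ℝ) ≤ x ^ β
    · exact Or.inl ⟨h1, h4, trivial⟩
    · refine Or.inr ⟨h1, h2, ?_⟩
      rintro ⟨m, hm1, hm2⟩
      apply h3
      push Not at h4
      have hpos : 1 ≤ T^[m] n := iter_pos h1 m
      have hposR : (0 : ℝ) < ((T^[m] n : ℕ) : ℝ) := by exact_mod_cast hpos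
      obtain ⟨j, hj1, hj2⟩ := hst (T^[m] n) hpos
      have hn0 : (0 : ℝ) < n := by exact_mod_cast h1
      have h6 : β * Real.log x ≤ Real.log n := by
        rw [← Real.log_rpow hx0]
        exact Real.log_le_log (by positivity) h4.le
      have h7 : Real.log ((T^[m] n : ℕ) : ℝ) ≤ θ * Real.log x - M / l := by
        rw [← hlogy]
        exact Real.log_le_log hposR hm1
      have h8 : l * Real.log ((T^[m] n : ℕ) : ℝ) + M ≤ l * θ * Real.log x := by
        have h9 : l * Real.log ((T^[m] n : ℕ) : ℝ) ≤ l * (θ * Real.log x - M / l) :=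
          mul_le_mul_of_nonneg_left h7 hl.le
        have e : l * (θ * Real.log x - M / l) = l * θ * Real.log x - M := by field_simp
        linarith
      have h10 : l * θ * Real.log x ≤ (c - B) * Real.log n := by
        rw [← hβθ]
        calc β * (c - B) * Real.log x = (c - B) * (β * Real.log x) := by ring
          _ ≤ _ := mul_le_mul_of_nonneg_left h6 hcB.le
      refine ⟨j + m, ?_, by rw [Function.iterate_add_apply, hj2]⟩
      push_cast
      linarith
  have h6 : (cnt c x : ℝ) ≤ x ^ β + C * Real.log x ^ 3 * (x / y ^ a) := by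
    have g1 := (Set.ncard_le_ncard hsub ((below_finite _ _).union (below_finite _ _))).trans (Set.ncard_union_le _ _)
    have g2 : (({n : ℕ | 1 ≤ n ∧ (n : ℝ) ≤ x ^ β ∧ True} : Set ℕ).ncard : ℝ) ≤ x ^ β := by
      have hs : {n : ℕ | 1 ≤ n ∧ (n : ℝ) ≤ x ^ β ∧ True} ⊆ ((Finset.Icc 1 ⌊x ^ β⌋₊ : Finset ℕ) : Set ℕ) := by
        rintro n ⟨h1, h2, -⟩
        rw [Finset.coe_Icc, Set.mem_Icc]
        exact ⟨h1, Nat.le_floor h2⟩
      have := Set.ncard_le_ncard hs (Finset.finite_toSet _)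
      rw [Set.ncard_coe_finset, Nat.card_Icc, Nat.add_sub_cancel] at this
      exact (by exact_mod_cast this : _ ≤ ((⌊x ^ β⌋₊ : ℕ) : ℝ)).trans (Nat.floor_le (by positivity))
    have g3 : (cnt c x : ℝ) ≤ ((({n : ℕ | 1 ≤ n ∧ (n : ℝ) ≤ x ^ β ∧ True} : Set ℕ).ncard : ℕ) : ℝ) +
      ((({n : ℕ | 1 ≤ n ∧ (n : ℝ) ≤ x ∧
        ¬ ∃ m : ℕ, ((T^[m] n : ℕ) : ℝ) ≤ y ∧ (m : ℝ) ≤ B * Real.log n} : Set ℕ).ncard : ℕ) : ℝ) := by
      exact_mod_cast g1
    linarith
  have h7 : x / y ^ a = x ^ β * Real.exp (a * M / l) := by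
    have e : y ^ a = Real.exp ((θ * Real.log x - M / l) * a) := by
      rw [Real.rpow_def_of_pos (by linarith), hlogy]
    have e' : x ^ β = Real.exp (Real.log x * β) := Real.rpow_def_of_pos hx0 β
    have e'' : x = Real.exp (Real.log x) := (Real.exp_log hx0).symm
    rw [e, e', ← Real.exp_add, ← hβ1]
    nth_rewrite 1 [e'']
    rw [← Real.exp_sub]
    congr 1
    field_simp
    ring
  rw [Real.rpow_add hx0]
  calc (cnt c x : ℝ) ≤ x ^ β + C * Real.log x ^ 3 * (x / y ^ a) := h6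
    _ = x ^ β * (1 + C' * Real.log x ^ 3) := by rw [h7, hC']; ring
    _ ≤ x ^ β * x ^ ε := mul_le_mul_of_nonneg_left hx1 (by positivity)

end Pool.Agent.K4H97.CE
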