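import Pool.Agent.K4H97.CE.Expo

set_option autoImplicit false

/-! Total stopping times as extended numbers, upper limits. -/

namespace Pool.Agent.K4H97.CE

open Filter Topology
open scoped ENNReal

open Classical in
/-- The total stopping time -/
noncomputable def sigma (n : ℕ) : ℕ∞ :=
  if h : ∃ k : ℕ, T^[k] n = 1 then ((Nat.find h : ℕ) : ℕ∞) else ⊤

theorem sigma_le_iff {t : ℝ} (ht : 0 ≤ t) (n : ℕ) : (sigma n : ℝ≥0∞) ≤ ENNReal.ofReal t ↔ StopsBy t n := by
  classical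
  unfold sigma
  split_ifs with h
  · rw [ENat.toENNReal_coe, ← ENNReal.ofReal_natCast, ENNReal.ofReal_le_ofReal_iff ht]
    constructor
    · intro h1
      exact ⟨Nat.find h, h1, Nat.find_spec h⟩
    · rintro ⟨k, hk, hk1⟩
      refine le_trans ?_ hk
      exact_mod_cast Nat.find_min' h hk1
  · constructor
    · intro h1
      exfalso
      simp at h1
    · rintro ⟨k, -, hk1⟩
      exact absurd ⟨k, hk1⟩ h

theorem sigma_two_pow_mul (i n : ℕ) (h : sigma n = ⊤) : sigma (2 ^ i * n) = ⊤ := by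
  classical
  by_contra hcon
  have h1 : ∃ k : ℕ, T^[k] (2 ^ i * n) = 1 := by
    by_contra h2
    apply hcon
    unfold sigma
    rw [dif_neg h2]
  obtain ⟨k, hk⟩ := h1
  have h3 : ∃ t : ℝ, 1 ≤ t ∧ StopsBy t (2 ^ i * n) :=
    ⟨max k 1, le_max_right _ _, k, le_max_left _ _, hk⟩
  obtain ⟨t, ht, hst⟩ := h3
  have h4 : StopsBy t n := by
    by_contra h5
    exact not_stops_pre ht (iter_pow_mul i n) h5 hst
  obtain ⟨j, -, hj⟩ := h4
  unfold sigma at h
  rw [dif_pos ⟨j, hj⟩] at h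
  exact ENat.natCast_ne_top _ h

/-- the quotient -/
noncomputable def ratio (n : ℕ) : ℝ≥0∞ := (sigma n : ℝ≥0∞) / ENNReal.ofReal (Real.log n)

theorem ratio_le_iff {n : ℕ} (hn : 2 ≤ n) {c : ℝ} (hc : 0 ≤ c) :
    ratio n ≤ ENNReal.ofReal c ↔ StopsBy (c * Real.log n) n := by
  have hlog : 0 < Real.log n := Real.log_pos (by exact_mod_cast hn)
  unfold ratio
  rw [ENNReal.div_le_iff (by rw [Ne, ENNReal.ofReal_eq_zero]; linarith) ENNReal.ofReal_ne_top,
    ← ENNReal.ofReal_mul hc, sigma_le_iff (by positivity)]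

theorem lt_ratio_iff {n : ℕ} (hn : 2 ≤ n) {c : ℝ} (hc : 0 ≤ c) :
    ENNReal.ofReal c < ratio n ↔ ¬ StopsBy (c * Real.log n) n := by
  rw [← ratio_le_iff hn hc, not_le]

/-- the upper limit -/
noncomputable def L : ℝ≥0∞ := limsup (fun n : ℕ => ratio n) atTop

theorem ev_of_lt {c : ℝ} (hc : 0 ≤ c) (h : L < ENNReal.ofReal c) :
    ∀ᶠ n : ℕ in atTop, StopsBy (c * Real.log n) n := by
  filter_upwards [eventually_lt_of_limsup_lt h, eventually_ge_atTop 2] with n h1 h2
  exact (ratio_le_iff h2 hc).1 h1.le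

theorem freq_of_lt {c : ℝ} (hc : 0 ≤ c) (h : ENNReal.ofReal c < L) :
    ∃ᶠ n : ℕ in atTop, ¬ StopsBy (c * Real.log n) n := by
  have h1 := frequently_lt_of_lt_limsup (by isBoundedDefault) h
  exact (h1.and_eventually (eventually_ge_atTop 2)).mono fun n hn => (lt_ratio_iff hn.2 hc).1 hn.1

/-- if `L < l` then the bound holds for all `n`, with an additive constant -/
theorem all_of_lt {l : ℝ} (hl : 0 ≤ l) (h : L < ENNReal.ofReal l) :
    ∃ M : ℝ, 0 ≤ M ∧ ∀ n : ℕ, 1 ≤ n → StopsBy (l * Real.log n + M) n := by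
  obtain ⟨N, hN⟩ := eventually_atTop.1 (ev_of_lt hl h)
  -- every `n` stops
  have hst : ∀ n : ℕ, 1 ≤ n → ∃ k : ℕ, T^[k] n = 1 := by
    intro n hn
    by_contra hcon
    have h1 : sigma n = ⊤ := by
      unfold sigma
      rw [dif_neg hcon]
    have h2 := sigma_two_pow_mul N n h1
    obtain ⟨k, -, hk⟩ := hN (2 ^ N * n) (by
      have h3 : N < 2 ^ N := Nat.lt_two_pow_self
      calc N ≤ 2 ^ N * 1 := by omega
        _ ≤ 2 ^ N * n := Nat.mul_le_mul_left _ hn)
    unfold sigma at h2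
    rw [dif_pos ⟨k, hk⟩] at h2
    exact ENat.natCast_ne_top _ h2
  choose! f hf using hst
  refine ⟨∑ n ∈ Finset.range (N + 1), (f n : ℝ), by positivity, fun n hn => ?_⟩
  rcases lt_or_ge n N with h1 | h1
  · refine ⟨f n, ?_, hf n hn⟩
    have h2 : (f n : ℝ) ≤ ∑ n ∈ Finset.range (N + 1), (f n : ℝ) :=
      Finset.single_le_sum (f := fun n => (f n : ℝ)) (fun i _ => Nat.cast_nonneg _) (Finset.mem_range.2 (by omega))
    have h3 : 0 ≤ l * Real.log n := mul_nonneg hl (Real.log_natCast_nonneg n)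
    linarith
  · refine (hN n h1).mono ?_
    have : (0 : ℝ) ≤ ∑ n ∈ Finset.range (N + 1), (f n : ℝ) := by positivity
    linarith

/-- the exponent -/
noncomputable def beta (c : ℝ) : ℝ := limsup (fun x : ℝ => Real.log (cnt c x) / Real.log x) atTop

theorem f_nonneg (c : ℝ) : ∀ᶠ x : ℝ in atTop, 0 ≤ Real.log (cnt c x) / Real.log x := by
  filter_upwards [eventually_ge_atTop 1] with x hx
  exact div_nonneg (Real.log_natCast_nonneg _) (Real.log_nonneg hx)

theorem f_le_of {c q x : ℝ} (hq : 0 ≤ q) (hx : 1 < x) (h : (cnt c x : ℝ) ≤ x ^ q) :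
    Real.log (cnt c x) / Real.log x ≤ q := by
  have hx0 : 0 < x := by linarith
  have hlog : 0 < Real.log x := Real.log_pos hx
  rw [div_le_iff₀ hlog]
  rcases Nat.eq_zero_or_pos (cnt c x) with h0 | h0
  · rw [h0, Nat.cast_zero, Real.log_zero]
    positivity
  · rw [← Real.log_rpow hx0]
    exact Real.log_le_log (by exact_mod_cast h0) h

theorem f_ge_of {c q x : ℝ} (hx : 1 < x) (h : x ^ q ≤ (cnt c x : ℝ)) :
    q ≤ Real.log (cnt c x) / Real.log x := by
  have hx0 : 0 < x := by linarith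
  have hlog : 0 < Real.log x := Real.log_pos hx
  rw [le_div_iff₀ hlog, ← Real.log_rpow hx0]
  exact Real.log_le_log (by positivity) h

theorem f_le_one (c : ℝ) : ∀ᶠ x : ℝ in atTop, Real.log (cnt c x) / Real.log x ≤ 1 := by
  filter_upwards [eventually_gt_atTop 1] with x hx
  apply f_le_of (by norm_num) hx
  rw [Real.rpow_one]
  exact cnt_le (by linarith)

theorem f_bdd (c : ℝ) : IsBoundedUnder (· ≤ ·) atTop (fun x : ℝ => Real.log (cnt c x) / Real.log x) :=
  ⟨1, by simpa using f_le_one c⟩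

theorem f_cobdd (c : ℝ) : IsCoboundedUnder (· ≤ ·) atTop (fun x : ℝ => Real.log (cnt c x) / Real.log x) :=
  isCoboundedUnder_le_of_eventually_le atTop (f_nonneg c)

theorem beta_le {c q : ℝ} (hq : 0 ≤ q) (h : ∀ ε : ℝ, 0 < ε → ∀ᶠ x : ℝ in atTop, (cnt c x : ℝ) ≤ x ^ (q + ε)) :
    beta c ≤ q := by
  apply le_of_forall_pos_le_add
  intro ε hε
  apply limsup_le_of_le (f_cobdd c)
  filter_upwards [h ε hε, eventually_gt_atTop 1] with x h1 h2
  exact f_le_of (by positivity) h2 h1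

theorem le_beta {c q : ℝ} (h : ∀ ε : ℝ, 0 < ε → ∃ᶠ x : ℝ in atTop, x ^ (q - ε) ≤ (cnt c x : ℝ)) :
    q ≤ beta c := by
  apply le_of_forall_pos_sub_le
  intro ε hε
  apply le_limsup_of_frequently_le _ (f_bdd c)
  exact ((h ε hε).and_eventually (eventually_gt_atTop 1)).mono fun x hx => f_ge_of hx.2 hx.1

theorem beta_nonneg (c : ℝ) : 0 ≤ beta c := by
  apply le_limsup_of_frequently_le _ (f_bdd c)
  exact (f_nonneg c).frequently

theorem beta_le_one (c : ℝ) : beta c ≤ 1 := limsup_le_of_le (f_cobdd c) (f_le_one c)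

theorem beta_anti {c c' : ℝ} (h : c ≤ c') : beta c' ≤ beta c := by
  apply limsup_le_limsup _ (f_cobdd c') (f_bdd c)
  filter_upwards [eventually_gt_atTop 1] with x hx
  apply div_le_div_of_nonneg_right _ (Real.log_nonneg hx.le)
  rcases Nat.eq_zero_or_pos (cnt c' x) with h0 | h0
  · rw [h0, Nat.cast_zero, Real.log_zero]
    exact Real.log_natCast_nonneg _
  · exact Real.log_le_log (by exact_mod_cast h0) (by exact_mod_cast cnt_mono h x)

theorem beta_eq_zero {c : ℝ} (hc : 0 ≤ c) (h : L < ENNReal.ofReal c) : beta c = 0 := by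
  apply le_antisymm _ (beta_nonneg c)
  apply beta_le le_rfl
  intro ε hε
  obtain ⟨N, hN⟩ := eventually_atTop.1 (ev_of_lt hc h)
  rw [zero_add]
  filter_upwards [(tendsto_rpow_atTop hε).eventually_ge_atTop (N : ℝ)] with x hx
  refine le_trans ?_ hx
  have hsub : {n : ℕ | 1 ≤ n ∧ (n : ℝ) ≤ x ∧ ¬ StopsBy (c * Real.log n) n} ⊆ ((Finset.range N : Finset ℕ) : Set ℕ) := by
    rintro n ⟨-, -, h3⟩
    rw [Finset.coe_range, Set.mem_Iio]
    by_contra hcon
    exact h3 (hN n (by omega))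
  have h1 := Set.ncard_le_ncard hsub (Finset.finite_toSet _)
  rw [Set.ncard_coe_finset, Finset.card_range] at h1
  exact_mod_cast h1

end Pool.Agent.K4H97.CE
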