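import Pool.Agent.K4H97.CE.Low
import Pool.Agent.H668.SM.B

set_option autoImplicit false

/-! Windows of consecutive integers in the predecessor sets: `WinLaw R` for all `R`. -/

namespace Pool.Agent.K4H97.CE

open Filter Topology

/-- the number of the odd terms among the first `k` terms -/
def od : ℕ → ℕ → ℕ
  | 0, _ => 0
  | k + 1, n => n % 2 + od k (T n)

theorem T_add (n : ℕ) (k h : ℕ) : T (n + 2 ^ (k + 1) * h) = T n + 2 ^ k * (3 ^ (n % 2) * h) := by
  unfold T
  have e : 2 ^ (k + 1) * h = 2 * (2 ^ k * h) := by ring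
  rw [e]
  set w := 2 ^ k * h with hw
  rcases Nat.mod_two_eq_zero_or_one n with h0 | h0
  · rw [if_pos (by omega), if_pos h0, h0]
    have : 2 ^ k * (3 ^ 0 * h) = w := by rw [hw]; ring
    rw [this]; omega
  · rw [if_neg (by omega), if_neg (by omega), h0]
    have : 2 ^ k * (3 ^ 1 * h) = 3 * w := by rw [hw]; ring
    rw [this]; omega

theorem iter_add : ∀ (k n h : ℕ), T^[k] (n + 2 ^ k * h) = T^[k] n + 3 ^ od k n * h := by
  intro k
  induction k with
  | zero => intro n h; simp [od]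
  | succ k ih =>
    intro n h
    rw [Function.iterate_succ_apply, Function.iterate_succ_apply, T_add, ih,
      show od (k + 1) n = n % 2 + od k (T n) from rfl, pow_add]
    ring

theorem eq_of_three_dvd : ∀ (k x : ℕ), 3 ∣ T^[k] x → x = 2 ^ k * T^[k] x := by
  intro k
  induction k with
  | zero => intro x _; simp
  | succ k ih =>
    intro x h
    rw [Function.iterate_succ_apply] at h ⊢
    have h1 := ih (T x) h
    have h2 : 3 ∣ T x := by rw [h1]; exact Dvd.dvd.mul_left h _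
    have h3 : x = 2 * T x := by
      unfold T at h2 ⊢
      split_ifs at h2 ⊢ with h4 <;> omega
    rw [pow_succ, mul_comm (2 ^ k) 2, mul_assoc, ← h1]
    exact h3

/-- a class of runs which coalesce -/
theorem exists_run (R : ℕ) : ∃ k n : ℕ, 1 ≤ n ∧ ∀ h ≤ R, ∀ m : ℕ,
    T^[k] (n + 2 ^ k * m + h) = T^[k] (n + 2 ^ k * m) := by
  classical
  obtain ⟨C, hC, hcount⟩ := Pool.Agent.H668.SM.union_count
  have hlim : Tendsto (fun N : ℕ => C * ((R : ℝ) + 1) ^ 4 * √ (Real.log (Real.log N) / Real.log N)) atTop (𝓝 0) := by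
    have h1 : Tendsto (fun x : ℝ => Real.log x / x) atTop (𝓝 0) := by
      have := Real.isLittleO_log_id_atTop.tendsto_div_nhds_zero
      simpa using this
    have h2 : Tendsto (fun N : ℕ => Real.log (Real.log N) / Real.log N) atTop (𝓝 0) :=
      h1.comp (Real.tendsto_log_atTop.comp tendsto_natCast_atTop_atTop)
    have h3 := (Real.continuous_sqrt.tendsto 0).comp h2
    rw [Real.sqrt_zero] at h3
    have h4 := h3.const_mul (C * ((R : ℝ) + 1) ^ 4)
    rw [mul_zero] at h4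
    exact h4
  obtain ⟨N, hN1, hN2⟩ := ((hlim.eventually (gt_mem_nhds (show (0 : ℝ) < 1 by norm_num))).and
    (eventually_ge_atTop 16)).exists
  have h5 := hcount N hN2 1 (by norm_num) R
  set K := Nat.log 2 N / 4 with hK
  obtain ⟨n, hn, hn2⟩ : ∃ n ∈ Finset.Icc 1 N, ¬ ∃ a ≤ R, ∃ i ≤ R, ∃ r : ℤ, |r| ≤ R ∧
      Pool.Agent.H499R2.CO.surv 1 K (i, (Pool.Agent.H499R2.CO.Tz 1)^[a] r) (n : ℕ) := by
    by_contra hcon
    push Not at hcon
    have h6 : (Finset.Icc 1 N).filter (fun n : ℕ => ∃ a ≤ R, ∃ i ≤ R, ∃ r : ℤ, |r| ≤ R ∧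
        Pool.Agent.H499R2.CO.surv 1 K (i, (Pool.Agent.H499R2.CO.Tz 1)^[a] r) (n : ℕ)) = Finset.Icc 1 N :=
      Finset.filter_true_of_mem hcon
    have h7 : (((Finset.Icc 1 N).filter (fun n : ℕ => ∃ a ≤ R, ∃ i ≤ R, ∃ r : ℤ, |r| ≤ R ∧
        Pool.Agent.H499R2.CO.surv 1 K (i, (Pool.Agent.H499R2.CO.Tz 1)^[a] r) (n : ℕ))).card : ℝ) = N := by
      rw [h6, Nat.card_Icc, Nat.add_sub_cancel]
    have h8 : (N : ℝ) ≤ C * ((R : ℝ) + 1) ^ 4 * √ (Real.log (Real.log N) / Real.log N) * N := by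
      rw [← h7]
      exact h5.trans (by rw [h7])
    have hNR : (0 : ℝ) < N := by
      have : 0 < N := by omega
      exact_mod_cast this
    nlinarith
  refine ⟨K, n, (Finset.mem_Icc.1 hn).1, fun h hh m => ?_⟩
  have h9 : ¬ Pool.Agent.H499R2.CO.surv 1 K (0, (h : ℤ)) ((n : ℤ) + (m : ℤ) * 2 ^ K) := by
    rw [Pool.Agent.H499R2.CO.surv_periodic (by norm_num)]
    intro hs
    exact hn2 ⟨0, Nat.zero_le _, 0, Nat.zero_le _, (h : ℤ), by
      rw [abs_of_nonneg (by positivity)]; exact_mod_cast hh, hs⟩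
  have h10 := Pool.Agent.H668.SM.merge_of (d := 1) (by norm_num) 0 0 K (h : ℤ) ((n : ℤ) + (m : ℤ) * 2 ^ K)
    (fun i hi => by
      obtain rfl : i = 0 := by omega
      exact h9)
  simp only [pow_zero, one_mul, add_zero] at h10
  have e1 := T_cast (n + 2 ^ K * m + h) K
  have e2 := T_cast (n + 2 ^ K * m) K
  have e3 : ((n + 2 ^ K * m + h : ℕ) : ℤ) = (n : ℤ) + (m : ℤ) * 2 ^ K + h := by push_cast; ring
  have e4 : ((n + 2 ^ K * m : ℕ) : ℤ) = (n : ℤ) + (m : ℤ) * 2 ^ K := by push_cast; ring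
  rw [e3] at e1
  rw [e4] at e2
  have h11 : ((T^[K] (n + 2 ^ K * m + h) : ℕ) : ℤ) = ((T^[K] (n + 2 ^ K * m) : ℕ) : ℤ) := by
    rw [e1, e2]
    exact h10.symm
  exact_mod_cast h11

/-- the root can be moved -/
theorem move (N : ℕ) (r : ℕ) (hr : ¬ 3 ∣ r) : ∃ J : ℕ, ∀ a : ℕ, 0 < a → ¬ 3 ∣ a →
    ∃ b j h : ℕ, j ≤ J ∧ b ≤ 2 ^ J * a ∧ b = r + 3 ^ N * h ∧ T^[j] b = a := by
  obtain ⟨J, hJ⟩ := Pool.Agent.W38.UPD.move N (r : ℤ) (by omega) r
  refine ⟨J, fun a ha ha3 => ?_⟩
  obtain ⟨b, j, hj, hb1, hb2, -, ⟨q, hq⟩, hb5, -⟩ := hJ a (by exact_mod_cast ha) (by omega)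
  have h1 : (r : ℤ) < 2 ^ r := by exact_mod_cast Nat.lt_two_pow_self
  have hb0 : 0 < b := by linarith [show (0 : ℤ) ≤ r by positivity]
  obtain ⟨b', rfl⟩ : ∃ b' : ℕ, b = (b' : ℤ) := ⟨b.toNat, (Int.toNat_of_nonneg hb0.le).symm⟩
  have hq0 : 0 ≤ q := by
    by_contra hcon
    push Not at hcon
    have h2 : (3 : ℤ) ^ N * q < 0 := mul_neg_of_pos_of_neg (by positivity) hcon
    linarith
  obtain ⟨q', rfl⟩ : ∃ q' : ℕ, q = (q' : ℤ) := ⟨q.toNat, (Int.toNat_of_nonneg hq0).symm⟩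
  refine ⟨b', j, q', hj, by exact_mod_cast hb2, ?_, ?_⟩
  · have : (b' : ℤ) = r + 3 ^ N * q' := by linarith
    exact_mod_cast this
  · have h2 := T_cast b' j
    rw [hb5] at h2
    exact_mod_cast h2

/-- two integers of the same dyadic block with the same odd part are equal -/
theorem block_inj {X : ℝ} {u i j : ℕ} (hi1 : X / 2 < ((2 ^ i * u : ℕ) : ℝ)) (hi2 : ((2 ^ i * u : ℕ) : ℝ) ≤ X)
    (hj1 : X / 2 < ((2 ^ j * u : ℕ) : ℝ)) (hj2 : ((2 ^ j * u : ℕ) : ℝ) ≤ X) : i = j := by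
  have key : ∀ {i j : ℕ}, i < j → X / 2 < ((2 ^ i * u : ℕ) : ℝ) → ((2 ^ j * u : ℕ) : ℝ) ≤ X → False := by
    intro i j hij h1 h2
    have h3 : 2 * (2 ^ i * u) ≤ 2 ^ j * u := by
      have h4 : 2 ^ (i + 1) ≤ 2 ^ j := Nat.pow_le_pow_right (by norm_num) hij
      calc 2 * (2 ^ i * u) = 2 ^ (i + 1) * u := by ring
        _ ≤ _ := Nat.mul_le_mul_right _ h4
    have h5 : (2 : ℝ) * ((2 ^ i * u : ℕ) : ℝ) ≤ ((2 ^ j * u : ℕ) : ℝ) := by exact_mod_cast h3
    linarith
  rcases lt_trichotomy i j with h | h | h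
  · exact (key h hi1 hj2).elim
  · exact h
  · exact (key h hj1 hi2).elim

theorem winLaw (R : ℕ) : WinLaw R := by
  classical
  obtain ⟨k, n, hn1, hrun⟩ := exists_run (R + 1)
  obtain ⟨c, hc, hupd⟩ := upd
  set s := T^[k] n with hs
  have hs3 : ¬ 3 ∣ s := by
    intro h3
    have h1 := hrun 1 (by omega) 0
    rw [mul_zero, add_zero] at h1
    have h2 := eq_of_three_dvd k n h3
    have h4 := eq_of_three_dvd k (n + 1) (by rw [h1]; exact h3)
    rw [h1] at h4
    omega
  set o := od k n with ho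
  obtain ⟨J, hJ⟩ := move o s hs3
  set D₀ : ℕ := n + 2 ^ (k + J + 1) with hD₀
  have hD₀1 : (1 : ℝ) ≤ D₀ := by
    have : 1 ≤ D₀ := hn1.trans (Nat.le_add_right _ _)
    exact_mod_cast this
  have hD₀0 : (0 : ℝ) < D₀ := by linarith
  refine ⟨c / (2 * (J + 1) * D₀), D₀ * (1 + 2 / c), by positivity, ?_, fun b hb hb3 x hx => ?_⟩
  · have : 0 < 2 / c := by positivity
    nlinarith
  have hbR : (1 : ℝ) ≤ b := by exact_mod_cast hb
  have hbR0 : (0 : ℝ) < b := by linarith
  set X : ℝ := x / D₀ with hX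
  have hxX : x = D₀ * X := by rw [hX]; field_simp
  have hXb : (1 + 2 / c) * b ≤ X := by
    rw [hX, le_div_iff₀ hD₀0]
    calc (1 + 2 / c) * b * D₀ = D₀ * (1 + 2 / c) * b := by ring
      _ ≤ x := hx
  have h2c : 0 < 2 / c := by positivity
  have hXb1 : (b : ℝ) ≤ X := by nlinarith
  have hX1 : 1 ≤ X := hbR.trans hXb1
  have hX0 : 0 < X := by linarith
  -- the elements of the block
  set A : Finset ℕ := (block_finite X (fun n => ∃ k : ℕ, T^[k] n = b)).toFinset with hA
  have memA : ∀ z, z ∈ A ↔ (X / 2 < (z : ℝ) ∧ (z : ℝ) ≤ X ∧ ∃ k : ℕ, T^[k] z = b) := by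
    intro z
    rw [hA, Set.Finite.mem_toFinset]
    rfl
  have hAcard : c * X / b ≤ (A.card : ℝ) := by
    refine (hupd b hb hb3 X hXb1).trans ?_
    rw [← Set.ncard_coe_finset, hA, Set.Finite.coe_toFinset]
  set A' : Finset ℕ := A.filter (fun z => ¬ ∃ i, z = 2 ^ i * b) with hA'
  have hA'card : A.card ≤ A'.card + 1 := by
    have h1 : (A.filter (fun z => ∃ i, z = 2 ^ i * b)).card ≤ 1 := by
      rw [Finset.card_le_one]
      intro z hz z' hz'
      rw [Finset.mem_filter, memA] at hz hz'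
      obtain ⟨⟨g1, g2, -⟩, i, rfl⟩ := hz
      obtain ⟨⟨g3, g4, -⟩, j, rfl⟩ := hz'
      rw [block_inj g1 g2 g3 g4]
    have h2 := Finset.card_filter_add_card_filter_not (s := A) (fun z => ∃ i, z = 2 ^ i * b)
    rw [hA']
    omega
  -- the odd part and the image of it
  have hstep : ∀ z ∈ A', ∃ v u k' : ℕ, z = 2 ^ v * u ∧ u % 2 = 1 ∧ T^[k'] ((3 * u + 1) / 2) = b := by
    intro z hz
    rw [hA', Finset.mem_filter, memA] at hz
    obtain ⟨⟨g1, g2, k', hk'⟩, g3⟩ := hz
    have hz0 : z ≠ 0 := by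
      rintro rfl
      rw [Nat.cast_zero] at g1
      linarith
    obtain ⟨v, u, hu, hzu⟩ := Nat.exists_eq_two_pow_mul_odd hz0
    have hu' := Nat.odd_iff.1 hu
    rcases le_or_gt k' v with h1 | h1
    · exfalso
      obtain ⟨d, rfl⟩ := Nat.exists_eq_add_of_le h1
      rw [hzu, pow_add, mul_assoc, iter_pow_mul] at hk'
      apply g3
      refine ⟨k', ?_⟩
      rw [hzu, ← hk']; ring
    · obtain ⟨d, rfl⟩ := Nat.exists_eq_add_of_lt h1
      refine ⟨v, u, d, hzu, hu', ?_⟩
      have e : v + d + 1 = d + (1 + v) := by ring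
      rw [e, Function.iterate_add_apply, Function.iterate_add_apply, hzu, iter_pow_mul, Function.iterate_one] at hk'
      unfold T at hk' ⊢
      rwa [if_neg (by omega)] at hk'
  choose! v u k' hz1 hz2 hz3 using hstep
  have hmv : ∀ z ∈ A', ∃ b' j h : ℕ, j ≤ J ∧ b' ≤ 2 ^ J * ((3 * u z + 1) / 2) ∧ b' = s + 3 ^ o * h ∧
      T^[j] b' = (3 * u z + 1) / 2 := by
    intro z hz
    have := hz2 z hz
    exact hJ _ (by omega) (by omega)
  choose! b' j h hj hb'1 hb'2 hb'3 using hmv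
  set G : ℕ → ℕ := fun z => n + 2 ^ k * h z with hG
  have hG1 : ∀ z ∈ A', T^[k] (G z) = b' z := by
    intro z hz
    rw [hG, iter_add, hb'2 z hz]
  have hfib : ∀ m ∈ A'.image G, (A'.filter (fun z => G z = m)).card ≤ J + 1 := by
    intro m _
    have h1 : (A'.filter (fun z => G z = m)).card ≤ (Finset.range (J + 1)).card := by
      apply Finset.card_le_card_of_injOn j
      · intro z hz
        rw [Finset.mem_coe, Finset.mem_filter] at hz
        rw [Finset.mem_coe, Finset.mem_range]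
        have := hj z hz.1
        omega
      · intro z hz z' hz' he
        rw [Finset.mem_coe, Finset.mem_filter] at hz hz'
        have e1 : b' z = b' z' := by
          rw [← hG1 z hz.1, ← hG1 z' hz'.1, hz.2, hz'.2]
        have e2 : (3 * u z + 1) / 2 = (3 * u z' + 1) / 2 := by
          rw [← hb'3 z hz.1, ← hb'3 z' hz'.1, he, e1]
        have e3 : u z = u z' := by
          have := hz2 z hz.1
          have := hz2 z' hz'.1
          omega
        have m1 := (memA z).1 (Finset.mem_filter.1 hz.1).1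
        have m2 := (memA z').1 (Finset.mem_filter.1 hz'.1).1
        have f1 := hz1 z hz.1
        have f2 := hz1 z' hz'.1
        rw [← e3] at f2
        have e4 : v z = v z' := by
          apply block_inj (X := X) (u := u z)
          · rw [← f1]; exact m1.1
          · rw [← f1]; exact m1.2.1
          · rw [← f2]; exact m2.1
          · rw [← f2]; exact m2.2.1
        rw [f1, f2, e4]
    rwa [Finset.card_range] at h1
  have hcard := Finset.card_le_mul_card_image A' (J + 1) hfib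
  -- the image consists of windows
  have hsub : ((A'.image G : Finset ℕ) : Set ℕ) ⊆
      {m : ℕ | 1 ≤ m ∧ (m : ℝ) ≤ x ∧ ∀ h ≤ R, ∃ k : ℕ, T^[k] (m + h) = b} := by
    intro m hm
    rw [Finset.mem_coe, Finset.mem_image] at hm
    obtain ⟨z, hz, rfl⟩ := hm
    have hzA := (memA z).1 (Finset.mem_filter.1 hz).1
    refine ⟨by rw [hG]; simp only; omega, ?_, ?_⟩
    · have h1 : 2 ^ k * h z ≤ 2 ^ (k + J + 1) * z := by
        have g1 : h z ≤ b' z := by
          rw [hb'2 z hz]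
          have : h z ≤ 3 ^ o * h z := Nat.le_mul_of_pos_left _ (by positivity)
          omega
        have g2 : (3 * u z + 1) / 2 ≤ 2 * z := by
          have : u z ≤ z := by
            have g3 := hz1 z hz
            have g4 : u z ≤ 2 ^ v z * u z := Nat.le_mul_of_pos_left _ (by positivity)
            rw [← g3] at g4
            exact g4
          have := hz2 z hz
          omega
        calc 2 ^ k * h z ≤ 2 ^ k * (2 ^ J * (2 * z)) :=
              Nat.mul_le_mul_left _ (g1.trans ((hb'1 z hz).trans (Nat.mul_le_mul_left _ g2)))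
          _ = 2 ^ (k + J + 1) * z := by ring
      have h2 : (((2 ^ k * h z : ℕ)) : ℝ) ≤ 2 ^ (k + J + 1) * X := by
        have h3 : (((2 ^ k * h z : ℕ)) : ℝ) ≤ ((2 ^ (k + J + 1) * z : ℕ) : ℝ) := by exact_mod_cast h1
        refine h3.trans ?_
        push_cast
        exact mul_le_mul_of_nonneg_left hzA.2.1 (by positivity)
      have h4 : (n : ℝ) ≤ n * X := by
        have : (0 : ℝ) ≤ n := Nat.cast_nonneg _
        nlinarith
      rw [hxX, hG, hD₀]
      push_cast at h2 ⊢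
      nlinarith
    · intro h' hh'
      refine ⟨k' z + (j z + k), ?_⟩
      rw [Function.iterate_add_apply, Function.iterate_add_apply]
      have e1 : T^[k] (G z + h') = b' z := by
        rw [← hG1 z hz]
        exact hrun h' (by omega) (h z)
      rw [e1, hb'3 z hz, hz3 z hz]
  have h5 := Set.ncard_le_ncard hsub (below_finite x _)
  rw [Set.ncard_coe_finset] at h5
  have h6 : (A.card : ℝ) ≤ (J + 1) * ((A'.image G).card : ℝ) + 1 := by
    have : A.card ≤ (J + 1) * (A'.image G).card + 1 := by omega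
    exact_mod_cast this
  refine le_trans ?_ (by exact_mod_cast h5 : ((A'.image G).card : ℝ) ≤
    ({m : ℕ | 1 ≤ m ∧ (m : ℝ) ≤ x ∧ ∀ h ≤ R, ∃ k : ℕ, T^[k] (m + h) = b}.ncard : ℝ))
  have h8 : 2 ≤ c * X / b := by
    rw [le_div_iff₀ hbR0]
    have h9 : c * ((1 + 2 / c) * b) ≤ c * X := mul_le_mul_of_nonneg_left hXb hc.le
    have e : c * ((1 + 2 / c) * b) = c * b + 2 * b := by field_simp
    have : 0 ≤ c * b := by positivity
    linarith
  have h9 : c / (2 * (J + 1) * D₀) * x / b = (c * X / b) / 2 / (J + 1) := by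
    rw [hxX]; field_simp
  rw [h9, div_le_iff₀ (by positivity)]
  linarith

end Pool.Agent.K4H97.CE
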