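import Pool.Agent.K4H97.CE.Base
import Pool.Agent.K4H97.CE.Win

set_option autoImplicit false

/-! The predecessors of `b` near `x` are concentrated in few intervals of length `O(x / b)`. -/

namespace Pool.Agent.K4H97.CE

open Filter Topology
open Finset Pool.Agent.H320R2.PD Pool.Agent.H320R2.PD.Cnt Pool.Agent.H366R2.PDK
  Pool.Agent.H366R2.KGen

theorem local_pred : ∃ (C₀ C₁ Y₀ : ℝ) (J : ℕ), 1 ≤ C₀ ∧ 1 ≤ C₁ ∧ 3 ≤ Y₀ ∧ ∀ b : ℕ, 0 < b → ¬ 3 ∣ b →
    ∃ b' : ℕ, b ≤ 2 ^ J * b' ∧ b' ≤ 2 ^ J * b ∧ ∀ Y : ℝ, Y₀ ≤ Y → ∃ (Z : Finset ℕ) (U : Finset ℝ),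
      (U.card : ℝ) ≤ C₁ * Real.log Y ∧ (∀ u ∈ U, Y * b' / 2 ≤ u ∧ u ≤ Y * b') ∧
      (∀ z ∈ Z, (∃ k : ℕ, T^[k] z = b) ∧ ∃ u ∈ U, u - C₀ * Y ≤ z ∧ (z : ℝ) ≤ u) ∧ Y / 64 ≤ Z.card := by
  classical
  have quenched : QStmt := fun N0 => quenched_of decay N0
  obtain ⟨N0, N, r, hN0, hN1, hr, hU⟩ := good_class_of fun N0 => quenched_of decay N0
  obtain ⟨K, hK1, hK⟩ := Pool.Agent.W38.UPD.count2 quenched hN0
  obtain ⟨J, hJ⟩ := Pool.Agent.W38.UPD.move N r hr (N0 + 4)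
  refine ⟨5 * 2 ^ N0, 36, max K 3, J, ?_, by norm_num, le_max_right _ _, fun b hb hb3 => ?_⟩
  · have : (1 : ℝ) ≤ 2 ^ N0 := one_le_pow₀ (by norm_num)
    linarith
  obtain ⟨b₁, j, hjJ, hbL, hba, hab, hbr, hbj, hbnp⟩ := hJ b (by exact_mod_cast hb) (by omega)
  have hb₁0 : 0 < b₁ := lt_of_lt_of_le (by positivity) hbL
  obtain ⟨b', rfl⟩ : ∃ b' : ℕ, b₁ = (b' : ℤ) := ⟨b₁.toNat, (Int.toNat_of_nonneg hb₁0.le).symm⟩
  have hb'0 : (0 : ℝ) < b' := by exact_mod_cast hb₁0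
  refine ⟨b', by exact_mod_cast hab, by exact_mod_cast hba, fun Y hY => ?_⟩
  have hYK : K ≤ Y := (le_max_left _ _).trans hY
  have hY3 : 3 ≤ Y := (le_max_right _ _).trans hY
  have hY0 : 0 < Y := by linarith
  have hlogY : 1 ≤ Real.log Y := by
    rw [Real.le_log_iff_exp_le hY0]
    have := Real.exp_one_lt_d9
    linarith
  obtain ⟨S, hS, hc⟩ := hK Y hYK b' (hU b' hbr)
  set f : List ℕ → ℤ := fun w => (2 ^ w.sum * (b' : ℤ) - 1 * Wo w) / 3 ^ w.length with hf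
  have hval : ∀ w ∈ S, (3 : ℤ) ^ w.length ∣ 2 ^ w.sum * (b' : ℤ) - 1 * Wo w := by
    intro w hw
    have := (hS w hw).2.1
    rwa [one_mul]
  have hinj : ∀ w ∈ S, ∀ w' ∈ S, f w = f w' → w = w' := fun w hw w' hw' he =>
    endpoint_injK (by norm_num) one_ne_zero hbnp (hS w hw).1 (hS w' hw').1 (hval w hw)
      (hval w' hw') he
  have hreach : ∀ w ∈ S, (TK 1)^[w.sum] (f w) = b' := fun w hw =>
    endpoint_reachK (by norm_num) (hS w hw).1 (hval w hw)
  have hpos : ∀ w ∈ S, 0 < f w := fun w hw =>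
    Pool.Agent.W38.UPD.endpoint_pos (hS w hw).1 hb₁0 (hval w hw)
  -- the length is determined by the sum
  have hlen : ∀ w ∈ S, ∀ w' ∈ S, w.sum = w'.sum → w.length = w'.length := by
    have key : ∀ w ∈ S, ∀ w' ∈ S, w.sum = w'.sum → ¬ w.length < w'.length := by
      intro w hw w' hw' he hlt
      obtain ⟨_, _, h3, h4, _, _⟩ := hS w hw
      obtain ⟨_, _, h3', h4', _, _⟩ := hS w' hw'
      have h5 : (3 : ℝ) ^ (w.length + 1) ≤ 3 ^ w'.length := pow_le_pow_right₀ (by norm_num) hlt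
      rw [pow_succ] at h5
      rw [he] at h4
      have h6 : (0 : ℝ) < 2 ^ w'.sum := by positivity
      have h7 : Y * (3 ^ w.length * 3) ≤ Y * 3 ^ w'.length := mul_le_mul_of_nonneg_left h5 hY0.le
      nlinarith
    intro w hw w' hw' he
    have h1 := key w hw w' hw' he
    have h2 := key w' hw' w hw he.symm
    omega
  set g : List ℕ → ℝ := fun w => (2 : ℝ) ^ w.sum / 3 ^ w.length * b' with hg
  have hgeq : ∀ w ∈ S, ∀ w' ∈ S, w.sum = w'.sum → g w = g w' := by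
    intro w hw w' hw' he
    simp only [hg]
    rw [he, hlen w hw w' hw' he]
  set F : ℕ → ℝ := fun s => if h : ∃ w ∈ S, w.sum = s then g h.choose else 0 with hF
  have hFg : ∀ w ∈ S, F w.sum = g w := by
    intro w hw
    have h : ∃ w' ∈ S, w'.sum = w.sum := ⟨w, hw, rfl⟩
    simp only [hF]
    rw [dif_pos h]
    exact hgeq _ h.choose_spec.1 w hw h.choose_spec.2
  refine ⟨S.image (fun w => (f w).toNat), (S.image List.sum).image F, ?_, ?_, ?_, ?_⟩
  · have h1 : ((S.image List.sum).image F).card ≤ (S.image List.sum).card := Finset.card_image_le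
    have h2 : S.image List.sum ⊆ Finset.range (⌊35 * Real.log Y⌋₊ + 1) := by
      intro s hs
      rw [Finset.mem_image] at hs
      obtain ⟨w, hw, rfl⟩ := hs
      rw [Finset.mem_range, Nat.lt_succ_iff]
      exact Nat.le_floor (hS w hw).2.2.2.2.2
    have h3 := h1.trans (Finset.card_le_card h2)
    rw [Finset.card_range] at h3
    have h4 : ((((S.image List.sum).image F).card : ℕ) : ℝ) ≤ ((⌊35 * Real.log Y⌋₊ + 1 : ℕ) : ℝ) := by
      exact_mod_cast h3
    have h5 : ((⌊35 * Real.log Y⌋₊ : ℕ) : ℝ) ≤ 35 * Real.log Y := Nat.floor_le (by positivity)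
    push_cast at h4
    linarith
  · intro u hu
    rw [Finset.mem_image] at hu
    obtain ⟨s, hs, rfl⟩ := hu
    rw [Finset.mem_image] at hs
    obtain ⟨w, hw, rfl⟩ := hs
    rw [hFg w hw]
    obtain ⟨_, _, h3, h4, _, _⟩ := hS w hw
    have hp : (0 : ℝ) < 3 ^ w.length := by positivity
    have h5 : (2 : ℝ) ^ w.sum / 3 ^ w.length ≤ Y := by rw [div_le_iff₀ hp]; exact h4
    have h6 : Y / 2 ≤ (2 : ℝ) ^ w.sum / 3 ^ w.length := by rw [le_div_iff₀ hp]; linarith
    simp only [hg]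
    constructor
    · calc Y * b' / 2 = Y / 2 * b' := by ring
        _ ≤ _ := mul_le_mul_of_nonneg_right h6 hb'0.le
    · exact mul_le_mul_of_nonneg_right h5 hb'0.le
  · intro z hz
    rw [Finset.mem_image] at hz
    obtain ⟨w, hw, rfl⟩ := hz
    have hz0 := hpos w hw
    have hcast : (((f w).toNat : ℕ) : ℤ) = f w := Int.toNat_of_nonneg hz0.le
    have hcastR : (((f w).toNat : ℕ) : ℝ) = (f w : ℝ) := by
      exact_mod_cast congrArg (Int.cast : ℤ → ℝ) hcast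
    refine ⟨⟨j + w.sum, ?_⟩, F w.sum, Finset.mem_image_of_mem _ (Finset.mem_image_of_mem _ hw), ?_, ?_⟩
    · have h1 := T_cast (f w).toNat (j + w.sum)
      have h2 : (TK 1)^[j + w.sum] (f w) = b := by
        rw [Function.iterate_add_apply, hreach w hw, hbj]
      rw [hcast, h2] at h1
      exact_mod_cast h1
    · rw [hFg w hw, hcastR]
      obtain ⟨_, _, _, h4, h5, _⟩ := hS w hw
      have hp : (0 : ℝ) < 3 ^ w.length := by positivity
      have h1 : (3 : ℤ) ^ w.length * f w = 2 ^ w.sum * (b' : ℤ) - 1 * Wo w :=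
        Int.mul_ediv_cancel' (hval w hw)
      have h2 : (3 : ℝ) ^ w.length * (f w : ℝ) = 2 ^ w.sum * (b' : ℝ) - 1 * Wo w := by exact_mod_cast h1
      simp only [hg]
      have h6 : (2 : ℝ) ^ w.sum / 3 ^ w.length ≤ Y := by rw [div_le_iff₀ hp]; exact h4
      have h7 : (f w : ℝ) = (2 : ℝ) ^ w.sum / 3 ^ w.length * b' - Wo w / 3 ^ w.length := by
        field_simp
        linarith
      have h8 : (Wo w : ℝ) / 3 ^ w.length ≤ 5 * 2 ^ N0 * Y := by
        rw [div_le_iff₀ hp]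
        calc (Wo w : ℝ) ≤ 5 * 2 ^ N0 * 2 ^ w.sum := h5
          _ ≤ 5 * 2 ^ N0 * (Y * 3 ^ w.length) := mul_le_mul_of_nonneg_left h4 (by positivity)
          _ = _ := by ring
      rw [h7]
      linarith
    · rw [hFg w hw, hcastR]
      have hp : (0 : ℝ) < 3 ^ w.length := by positivity
      have h1 : (3 : ℤ) ^ w.length * f w = 2 ^ w.sum * (b' : ℤ) - 1 * Wo w :=
        Int.mul_ediv_cancel' (hval w hw)
      have h2 : (3 : ℝ) ^ w.length * (f w : ℝ) = 2 ^ w.sum * (b' : ℝ) - 1 * Wo w := by exact_mod_cast h1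
      simp only [hg]
      have h7 : (f w : ℝ) = (2 : ℝ) ^ w.sum / 3 ^ w.length * b' - Wo w / 3 ^ w.length := by
        field_simp
        linarith
      have h8 : (0 : ℝ) ≤ (Wo w : ℝ) / 3 ^ w.length := by positivity
      rw [h7]
      linarith
  · rw [Finset.card_image_of_injOn]
    · exact hc
    · intro w hw w' hw' he
      have h1 := hpos w hw
      have h2 := hpos w' hw'
      have h3 : (f w).toNat = (f w').toNat := he
      exact hinj w hw w' hw' (by omega)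

end Pool.Agent.K4H97.CE
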