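import Pool.Agent.K4H97.CE.Base

set_option autoImplicit false

/-! Amplification of exceptions of the logarithmic bound, for windows of `R + 1` consecutive integers. -/

namespace Pool.Agent.K4H97.CE

open Filter Topology

/-- windows of predecessors -/
def WinLaw (R : ℕ) : Prop := ∃ c D : ℝ, 0 < c ∧ 1 ≤ D ∧ ∀ b : ℕ, 0 < b → ¬ 3 ∣ b → ∀ x : ℝ, D * b ≤ x →
  c * x / b ≤ ({m : ℕ | 1 ≤ m ∧ (m : ℝ) ≤ x ∧ ∀ h ≤ R, ∃ k : ℕ, T^[k] (m + h) = b}.ncard : ℝ)

theorem winLaw_zero : WinLaw 0 := by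
  obtain ⟨c, hc, h⟩ := upd
  refine ⟨c, 1, hc, le_rfl, fun b hb hb3 x hx => ?_⟩
  rw [one_mul] at hx
  refine (h b hb hb3 x hx).trans ?_
  have hbR : (0 : ℝ) < b := by exact_mod_cast hb
  have hsub : {n : ℕ | x / 2 < (n : ℝ) ∧ (n : ℝ) ≤ x ∧ ∃ k : ℕ, T^[k] n = b} ⊆
      {m : ℕ | 1 ≤ m ∧ (m : ℝ) ≤ x ∧ ∀ h ≤ 0, ∃ k : ℕ, T^[k] (m + h) = b} := by
    rintro n ⟨h1, h2, h3⟩
    refine ⟨?_, h2, ?_⟩
    · have h4 : (0 : ℝ) < n := by linarith
      exact_mod_cast h4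
    · intro h hh
      obtain rfl : h = 0 := by omega
      exact h3
  exact_mod_cast Set.ncard_le_ncard hsub (below_finite x _)

/-- from an exception to an exception prime to `3` -/
theorem reduce {l : ℝ} (hl : 1 < l * Real.log 2) {n : ℕ} (hn : 2 ≤ n) (h : ¬ StopsBy (l * Real.log n) n) :
    ∃ (b : ℕ) (t : ℝ), 0 < b ∧ ¬ 3 ∣ b ∧ ¬ StopsBy t b ∧ l * Real.log b - (l * Real.log 2 + 1) ≤ t ∧
      (l - 1 / Real.log 2) * Real.log n - 1 ≤ t := by
  have hl2 : 0 < Real.log 2 := Real.log_pos (by norm_num)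
  have hl0 : 0 < l := by
    by_contra hcon
    push Not at hcon
    nlinarith
  obtain ⟨i, w, hw, hn2⟩ := Nat.exists_eq_two_pow_mul_odd (show n ≠ 0 by omega)
  have hw' := Nat.odd_iff.1 hw
  have hw0 : (0 : ℝ) < w := by
    have : 0 < w := by omega
    exact_mod_cast this
  have hw1 : (1 : ℝ) ≤ w := by
    have : 1 ≤ w := by omega
    exact_mod_cast this
  have hlogw : 0 ≤ Real.log w := Real.log_nonneg hw1
  have hlogn : Real.log n = i * Real.log 2 + Real.log w := by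
    rw [hn2]
    push_cast
    rw [Real.log_mul (by positivity) hw0.ne', Real.log_pow]
  set b := (3 * w + 1) / 2 with hb
  have hbn : T^[i + 1] n = b := by
    rw [add_comm, Function.iterate_add_apply, hn2, iter_pow_mul, Function.iterate_one]
    unfold T
    rw [if_neg (by omega)]
  have hb2 : b ≤ 2 * w := by omega
  have hb0 : 0 < b := by omega
  have hbR : (0 : ℝ) < b := by exact_mod_cast hb0
  have hlogb : Real.log b ≤ Real.log 2 + Real.log w := by
    rw [← Real.log_mul (by norm_num) hw0.ne']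
    apply Real.log_le_log hbR
    exact_mod_cast hb2
  have hi0 : (0 : ℝ) ≤ i := Nat.cast_nonneg _
  refine ⟨b, l * Real.log n - (i + 1), hb0, by omega, ?_, ?_, ?_⟩
  · rintro ⟨k, hk, hk1⟩
    apply h
    refine ⟨k + (i + 1), ?_, by rw [Function.iterate_add_apply, hbn, hk1]⟩
    push_cast
    linarith
  · rw [hlogn]
    have h1 : l * Real.log b ≤ l * (Real.log 2 + Real.log w) := mul_le_mul_of_nonneg_left hlogb hl0.le
    nlinarith
  · rw [hlogn]
    have h1 : 1 / Real.log 2 * (i * Real.log 2 + Real.log w) = i + Real.log w / Real.log 2 := by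
      field_simp
    have h2 : 0 ≤ Real.log w / Real.log 2 := by positivity
    rw [sub_mul, h1]
    linarith

/-- AMPLIFICATION on windows. -/
theorem core {R : ℕ} (hW : WinLaw R) {l : ℝ} (hl : 1 < l * Real.log 2)
    (hf : ∃ᶠ n : ℕ in atTop, ¬ StopsBy (l * Real.log n) n) :
    ∃ c D K : ℝ, 0 < c ∧ 0 ≤ D ∧ 0 ≤ K ∧ ∀ t₀ : ℝ, ∃ t : ℝ, t₀ ≤ t ∧ ∀ x : ℝ, 0 < x →
      D + (t + K) / l ≤ Real.log x →
      c * x * Real.exp (-((t + K) / l)) ≤
        ({m : ℕ | 1 ≤ m ∧ (m : ℝ) ≤ x ∧ ∀ h ≤ R, ¬ StopsBy t (m + h)}.ncard : ℝ) := by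
  have hl2 : 0 < Real.log 2 := Real.log_pos (by norm_num)
  have hl0 : 0 < l := by
    by_contra hcon
    push Not at hcon
    nlinarith
  obtain ⟨c, D, hc, hD, h⟩ := hW
  refine ⟨c, Real.log D, l * Real.log 2 + 1, hc, Real.log_nonneg hD, by positivity, fun t₀ => ?_⟩
  have hpos : 0 < l - 1 / Real.log 2 := by
    rw [sub_pos, div_lt_iff₀ hl2]
    exact hl
  have htend : Tendsto (fun n : ℕ => (l - 1 / Real.log 2) * Real.log n - 1) atTop atTop := by
    apply tendsto_atTop_add_const_right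
    exact (Real.tendsto_log_atTop.comp tendsto_natCast_atTop_atTop).const_mul_atTop hpos
  obtain ⟨n, hn1, hn2, hn3⟩ := (hf.and_eventually ((htend.eventually_ge_atTop (max t₀ 1)).and
    (eventually_ge_atTop 2))).exists
  obtain ⟨b, t, hb0, hb3, hst, ht1, ht2⟩ := reduce hl hn3 hn1
  have ht3 : t₀ ≤ t := (le_max_left _ _).trans (hn2.trans ht2)
  have ht4 : 1 ≤ t := (le_max_right _ _).trans (hn2.trans ht2)
  have hbR : (0 : ℝ) < b := by exact_mod_cast hb0
  have hlb : Real.log b ≤ (t + (l * Real.log 2 + 1)) / l := by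
    rw [le_div_iff₀ hl0]
    linarith
  refine ⟨t, ht3, fun x hx0 hx => ?_⟩
  have hD0 : 0 < D := by linarith
  have hxb : D * b ≤ x := by
    have h1 : Real.log (D * b) ≤ Real.log x := by
      rw [Real.log_mul hD0.ne' hbR.ne']
      linarith
    exact (Real.log_le_log_iff (by positivity) hx0).1 h1
  have h2 := h b hb0 hb3 x hxb
  have h3 : c * x * Real.exp (-((t + (l * Real.log 2 + 1)) / l)) ≤ c * x / b := by
    rw [div_eq_mul_inv (c * x)]
    apply mul_le_mul_of_nonneg_left _ (by positivity)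
    have h4 : (b : ℝ)⁻¹ = Real.exp (-(Real.log b)) := by rw [Real.exp_neg, Real.exp_log hbR]
    rw [h4]
    apply Real.exp_le_exp.2
    linarith
  refine h3.trans (h2.trans ?_)
  have hsub : {m : ℕ | 1 ≤ m ∧ (m : ℝ) ≤ x ∧ ∀ h ≤ R, ∃ k : ℕ, T^[k] (m + h) = b} ⊆
      {m : ℕ | 1 ≤ m ∧ (m : ℝ) ≤ x ∧ ∀ h ≤ R, ¬ StopsBy t (m + h)} := by
    rintro m ⟨h1, h2, h3⟩
    refine ⟨h1, h2, fun h hh => ?_⟩
    obtain ⟨k, hk⟩ := h3 h hh
    exact not_stops_pre ht4 hk hst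
  exact_mod_cast Set.ncard_le_ncard hsub (below_finite x _)

end Pool.Agent.K4H97.CE
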