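import Pool.Agent.K4H97.CE.Lim
import Pool.Agent.H395R2.G3.Main

set_option autoImplicit false

/-! The extremal constant and the exponent of the exceptional set. -/

namespace Pool.Agent.K4H97.CE

open Filter Topology
open scoped ENNReal

theorem mu_pos : 0 < 2 / Real.log (4 / 3) := by
  have : 0 < Real.log (4 / 3) := Real.log_pos (by norm_num)
  positivity

theorem mu_log {l : ℝ} (hl : 2 / Real.log (4 / 3) < l) : 1 < l * Real.log 2 := by
  have h43 : 0 < Real.log (4 / 3) := Real.log_pos (by norm_num)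
  have hl2 : 0 < Real.log 2 := Real.log_pos (by norm_num)
  have h1 : Real.log (4 / 3) < Real.log 2 := Real.log_lt_log (by norm_num) (by norm_num)
  rw [div_lt_iff₀ h43] at hl
  nlinarith

/-- the unconditional lower bound -/
theorem L_gt : ENNReal.ofReal 41.677 < L := by
  obtain ⟨γ, hγ, -, -, h, -⟩ := Pool.Agent.H395R2.G3.main_gamma
  have h1 : ENNReal.ofReal 41.6775 ≤ L := by
    apply le_limsup_of_frequently_le _ (by isBoundedDefault)
    rw [Filter.frequently_atTop]
    intro N
    obtain ⟨n, hn1, hn2, k, hk, hk2⟩ := h (γ - 41.6776) (by linarith [hγ.1]) N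
    refine ⟨n, hn1, ((lt_ratio_iff hn2 (by norm_num)).2 ?_).le⟩
    rintro ⟨j, hj, hj1⟩
    have h2 : k ≤ j := hk.2 hj1
    have h3 : (k : ℝ) ≤ j := by exact_mod_cast h2
    have hlog : 0 < Real.log n := Real.log_pos (by exact_mod_cast hn2)
    have e : γ - (γ - 41.6776) = 41.6776 := by ring
    rw [e] at hk2
    nlinarith
  refine lt_of_lt_of_le ?_ h1
  rw [ENNReal.ofReal_lt_ofReal_iff (by norm_num)]
  norm_num

/-- the lower bound for the exponent -/
theorem exp_lower {c : ℝ} (hc : 2 / Real.log (4 / 3) < c) (hcL : ENNReal.ofReal c < L) :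
    1 - beta c ≤ c * (L⁻¹).toReal := by
  have hc0 : 0 < c := mu_pos.trans hc
  have key : ∀ l : ℝ, c < l → ENNReal.ofReal l < L → 1 - c / l ≤ beta c := by
    intro l hcl hl
    apply le_beta
    intro ε hε
    exact lower hc0 hcl (mu_log (hc.trans hcl)) (freq_of_lt (hc0.trans hcl).le hl) hε
  apply le_of_forall_pos_le_add
  intro ε hε
  by_cases hL : L = ⊤
  · rw [hL, ENNReal.inv_top, ENNReal.toReal_zero, mul_zero, zero_add]
    have h1 := key (max (c + 1) (c / ε)) (lt_of_lt_of_le (by linarith) (le_max_left _ _)) (by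
      rw [hL]; exact ENNReal.ofReal_lt_top)
    have h2 : c / max (c + 1) (c / ε) ≤ ε := by
      rw [div_le_iff₀ (lt_of_lt_of_le (by linarith) (le_max_left _ _))]
      have h3 : c / ε ≤ max (c + 1) (c / ε) := le_max_right _ _
      rw [div_le_iff₀ hε] at h3
      linarith
    linarith
  · set ℓ : ℝ := L.toReal with hℓ
    have hLe : L = ENNReal.ofReal ℓ := (ENNReal.ofReal_toReal hL).symm
    have hcl : c < ℓ := by
      rw [hLe] at hcL
      exact (ENNReal.ofReal_lt_ofReal_iff_of_nonneg hc0.le).1 hcL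
    have hℓ0 : 0 < ℓ := hc0.trans hcl
    rw [ENNReal.toReal_inv, ← hℓ]
    set δ : ℝ := min (ε / c) ((1 / c - 1 / ℓ) / 2) with hδ
    have hd : 0 < 1 / c - 1 / ℓ := sub_pos.2 (one_div_lt_one_div_of_lt hc0 hcl)
    have hδ0 : 0 < δ := lt_min (by positivity) (by linarith)
    have hδ1 : δ ≤ ε / c := min_le_left _ _
    have hδ2 : δ ≤ (1 / c - 1 / ℓ) / 2 := min_le_right _ _
    have hq : 0 < 1 / ℓ + δ := by positivity
    have h1 := key (1 / (1 / ℓ + δ)) (by
      rw [lt_one_div hc0 hq]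
      linarith) (by
      rw [hLe, ENNReal.ofReal_lt_ofReal_iff hℓ0, one_div_lt hq hℓ0]
      linarith)
    have h2 : c / (1 / (1 / ℓ + δ)) = c * ℓ⁻¹ + c * δ := by
      rw [div_div_eq_mul_div, div_one]
      ring
    rw [h2] at h1
    rw [le_div_iff₀ hc0] at hδ1
    linarith

/-- the upper bound for the exponent -/
theorem exp_upper {c B a : ℝ} (hc : 0 < c) (hBc : B < c) (ha : 0 < a) (hlaw : Law B a)
    (hcL : ENNReal.ofReal c < L) :
    a * (c - B) * c / (c + a * (c - B)) * (L⁻¹).toReal ≤ 1 - beta c := by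
  have hcB : 0 < c - B := by linarith
  set k : ℝ := a * (c - B) with hk
  have hk0 : 0 < k := by positivity
  by_cases hL : L = ⊤
  · rw [hL, ENNReal.inv_top, ENNReal.toReal_zero, mul_zero]
    have := beta_le_one c
    linarith
  · set ℓ : ℝ := L.toReal with hℓ
    have hLe : L = ENNReal.ofReal ℓ := (ENNReal.ofReal_toReal hL).symm
    have hcl : c < ℓ := by
      rw [hLe] at hcL
      exact (ENNReal.ofReal_lt_ofReal_iff_of_nonneg hc.le).1 hcL
    have hℓ0 : 0 < ℓ := hc.trans hcl
    rw [ENNReal.toReal_inv, ← hℓ]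
    have key : beta c ≤ ℓ / (ℓ + k) := by
      apply le_of_forall_pos_le_add
      intro ε hε
      have hl : ℓ < ℓ + k * ε := by nlinarith
      obtain ⟨M, -, hM⟩ := all_of_lt (l := ℓ + k * ε) (by positivity) (by
        rw [hLe]
        exact (ENNReal.ofReal_lt_ofReal_iff (by positivity)).2 hl)
      have h1 : beta c ≤ (ℓ + k * ε) / (ℓ + k * ε + a * (c - B)) := by
        apply beta_le (by positivity)
        intro ε' hε'
        exact upper hBc ha (by positivity) hlaw hM hε'
      rw [← hk] at h1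
      refine h1.trans ?_
      rw [div_add' _ _ _ (by positivity), div_le_div_iff₀ (by positivity) (by positivity)]
      have e : (ℓ + ε * (ℓ + k)) * (ℓ + k * ε + k) - (ℓ + k * ε) * (ℓ + k) =
          ε * ((ℓ + k) * (ℓ + k * ε + k) - k * k) := by ring
      have h2 : k * k ≤ (ℓ + k) * (ℓ + k * ε + k) := by
        have : 0 < k * ε := by positivity
        nlinarith
      have h3 : 0 ≤ ε * ((ℓ + k) * (ℓ + k * ε + k) - k * k) := mul_nonneg hε.le (by linarith)
      linarith
    have h4 : k * c / (c + k) * ℓ⁻¹ ≤ k / (ℓ + k) := by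
      rw [← div_eq_mul_inv, div_div, div_le_div_iff₀ (by positivity) (by positivity)]
      have h5 : c * k * k ≤ ℓ * k * k := by
        have : 0 ≤ k * k := by positivity
        nlinarith
      nlinarith
    have h6 : ℓ / (ℓ + k) = 1 - k / (ℓ + k) := by field_simp; ring
    linarith

/-- the function `κ` -/
theorem exists_kappa : ∃ κ : ℝ → ℝ, (∀ c : ℝ, 2 / Real.log (4 / 3) < c → 0 < κ c) ∧
    (∃ c₁ : ℝ, ∀ c : ℝ, c₁ ≤ c → c / 22 ≤ κ c) ∧
    ∀ c : ℝ, 2 / Real.log (4 / 3) < c → ENNReal.ofReal c < L →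
      κ c * (L⁻¹).toReal ≤ 1 - beta c ∧ 1 - beta c ≤ c * (L⁻¹).toReal := by
  classical
  obtain ⟨B₁, a₁, hB₁, ha₁, -, hlaw₁⟩ := law_two
  set c₁ : ℝ := 36 * B₁ + 1 with hc₁
  have h0 : ∀ c : ℝ, 2 / Real.log (4 / 3) < c → ∃ κ : ℝ, 0 < κ ∧ (c₁ ≤ c → c / 22 ≤ κ) ∧
      (ENNReal.ofReal c < L → κ * (L⁻¹).toReal ≤ 1 - beta c) := by
    intro c hc
    have hc0 : 0 < c := mu_pos.trans hc
    by_cases hcc : c₁ ≤ c
    · have hBc : B₁ < c := by linarith
      have hk : 0 < a₁ * (c - B₁) := by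
        have : 0 < c - B₁ := by linarith
        have : 0 < a₁ := by linarith
        positivity
      refine ⟨a₁ * (c - B₁) * c / (c + a₁ * (c - B₁)), by positivity, fun _ => ?_, fun hcL =>
        exp_upper hc0 hBc (by linarith) hlaw₁ hcL⟩
      set k := a₁ * (c - B₁) with hkdef
      have hk2 : c / 21 ≤ k := by
        have h2 : c * (35 / 36) ≤ c - B₁ := by linarith
        have h3 : 0.049 * (c * (35 / 36)) ≤ a₁ * (c - B₁) :=
          mul_le_mul ha₁.le h2 (by positivity) (by linarith)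
        rw [hkdef]
        linarith
      rw [div_le_div_iff₀ (by norm_num) (by positivity)]
      nlinarith
    · obtain ⟨B, hB1, hB2⟩ := exists_between hc
      obtain ⟨a, ha, -, hlaw⟩ := law_one hB1
      have hk : 0 < a * (c - B) := by
        have : 0 < c - B := by linarith
        positivity
      exact ⟨a * (c - B) * c / (c + a * (c - B)), by positivity, fun h => absurd h hcc, fun hcL =>
        exp_upper hc0 hB2 ha hlaw hcL⟩
  choose! κ hκ1 hκ2 hκ3 using h0
  refine ⟨κ, hκ1, ⟨max c₁ (2 / Real.log (4 / 3) + 1), fun c hc => ?_⟩, fun c hc hcL => ⟨hκ3 c hc hcL, exp_lower hc hcL⟩⟩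
  have h1 := (le_max_left _ _).trans hc
  have h2 := (le_max_right _ _).trans hc
  exact hκ2 c (by linarith) h1

end Pool.Agent.K4H97.CE
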