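import Pool.Agent.K4H97.CE.MainA
import Pool.Agent.K4H97.CE.Win

set_option autoImplicit false

/-! Sets which are sufficient for the logarithmic bound. -/

namespace Pool.Agent.K4H97.CE

open Filter Topology
open scoped ENNReal

/-- the number of the windows `m, m + 1, ..., m + R`, `1 ≤ m ≤ x`, which contain no element of `S` -/
noncomputable def missed (S : Set ℕ) (R : ℕ) (x : ℝ) : ℕ :=
  {m : ℕ | 1 ≤ m ∧ (m : ℝ) ≤ x ∧ ∀ h ≤ R, m + h ∉ S}.ncard

/-- upper limit along `S` -/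
noncomputable def LS (S : Set ℕ) : ℝ≥0∞ := limsup (fun n : ℕ => ratio n) (atTop ⊓ 𝓟 S)

theorem real_suff {S : Set ℕ} {R : ℕ} {η K l q : ℝ} (hη : 0 < η) (hη1 : η ≤ 1) (hK : 1 ≤ K)
    (hl : 1 < l * Real.log 2) (hq : 0 < q) (hql : K * q < η * l)
    (hf : ∃ᶠ n : ℕ in atTop, ¬ StopsBy (l * Real.log n) n)
    (hS : ∃ N : ℕ, ∀ n ∈ S, N ≤ n → StopsBy (q * Real.log n) n)
    (hm : ∀ᶠ y : ℝ in atTop, ∃ x : ℝ, y ≤ x ∧ x ≤ y ^ K ∧ (missed S R x : ℝ) ≤ x ^ (1 - η)) : False := by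
  classical
  have hl2 : 0 < Real.log 2 := Real.log_pos (by norm_num)
  have hl0 : 0 < l := by
    by_contra hcon
    push Not at hcon
    nlinarith
  obtain ⟨c, D, K₀, hc, hD, hK₀, h⟩ := core (winLaw R) hl hf
  obtain ⟨N, hN⟩ := hS
  obtain ⟨y₀, hy₀⟩ := eventually_atTop.1 hm
  set C₁ : ℝ := D + |Real.log ((N + 2) / c)| with hC₁
  have hC₁0 : 0 ≤ C₁ := by positivity
  have hC₁D : D ≤ C₁ := by
    have := abs_nonneg (Real.log ((N + 2) / c))
    linarith
  have hC₁c : Real.log ((N + 2) / c) ≤ C₁ := by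
    have := le_abs_self (Real.log ((N + 2) / c))
    linarith
  set θ : ℝ := 1 - K * q / (l * η) with hθ
  have hθ0 : 0 < θ := by
    rw [hθ, sub_pos, div_lt_one (by positivity)]
    linarith
  set C₂ : ℝ := K * q * K₀ / (l * η) + q * K * C₁ / η + q * Real.log (R + 1) with hC₂
  have hR0 : 0 ≤ Real.log ((R : ℝ) + 1) := Real.log_nonneg (by
    have : (0 : ℝ) ≤ R := Nat.cast_nonneg R
    linarith)
  obtain ⟨t, ht, hx⟩ := h (max (max 0 (C₂ / θ)) (l * (η * Real.log (max y₀ 1))))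
  have ht0 : 0 ≤ t := ((le_max_left _ _).trans (le_max_left _ _)).trans ht
  have ht1 : C₂ / θ ≤ t := ((le_max_right _ _).trans (le_max_left _ _)).trans ht
  have ht2 : l * (η * Real.log (max y₀ 1)) ≤ t := (le_max_right _ _).trans ht
  set A : ℝ := (t + K₀) / l with hA
  have hA0 : 0 ≤ A := by positivity
  set s : ℝ := (A + C₁) / η with hs
  have hsA : A + C₁ ≤ s := by
    rw [hs, le_div_iff₀ hη]
    have : 0 ≤ A + C₁ := by positivity
    nlinarith
  have hys : y₀ ≤ Real.exp s := by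
    have h1 : η * Real.log (max y₀ 1) ≤ A := by
      rw [hA, le_div_iff₀ hl0]
      linarith
    have h2 : Real.log (max y₀ 1) ≤ s := by
      rw [hs, le_div_iff₀ hη]
      linarith
    calc y₀ ≤ max y₀ 1 := le_max_left _ _
      _ = Real.exp (Real.log (max y₀ 1)) := (Real.exp_log (by positivity)).symm
      _ ≤ Real.exp s := Real.exp_le_exp.2 h2
  obtain ⟨x, hx1, hx2, hx3⟩ := hy₀ (Real.exp s) hys
  have hx0 : 0 < x := lt_of_lt_of_le (Real.exp_pos s) hx1
  have hlx1 : s ≤ Real.log x := by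
    rw [← Real.log_exp s]
    exact Real.log_le_log (Real.exp_pos s) hx1
  have hs0 : 0 ≤ s := by positivity
  have hx1' : 1 ≤ x := (Real.one_le_exp hs0).trans hx1
  have hlx2 : Real.log x ≤ K * s := by
    have h1 := Real.log_le_log hx0 hx2
    rwa [Real.log_rpow (Real.exp_pos s), Real.log_exp] at h1
  have h1 := hx x hx0 (by linarith)
  -- the number of the bad windows is larger
  have hN0 : (0 : ℝ) ≤ N := Nat.cast_nonneg N
  have h2 : ((N : ℝ) + 2) * x ^ (1 - η) ≤ c * x * Real.exp (-((t + K₀) / l)) := by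
    have e1 : (N : ℝ) + 2 ≤ c * Real.exp C₁ := by
      have h3 := Real.exp_le_exp.2 hC₁c
      rw [Real.exp_log (by positivity), div_le_iff₀ hc] at h3
      linarith
    have e2 : x ^ (1 - η) = Real.exp (Real.log x * (1 - η)) := Real.rpow_def_of_pos hx0 _
    have e3 : Real.exp C₁ * Real.exp (Real.log x * (1 - η)) ≤ x * Real.exp (-((t + K₀) / l)) := by
      nth_rewrite 2 [← Real.exp_log hx0]
      rw [← Real.exp_add, ← Real.exp_add]
      apply Real.exp_le_exp.2
      rw [← hA]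
      have h4 : A + C₁ ≤ η * Real.log x := by
        have h5 : η * s ≤ η * Real.log x := mul_le_mul_of_nonneg_left hlx1 hη.le
        have h6 : η * s = A + C₁ := by rw [hs]; field_simp
        linarith
      linarith
    rw [e2]
    calc ((N : ℝ) + 2) * Real.exp (Real.log x * (1 - η))
        ≤ (c * Real.exp C₁) * Real.exp (Real.log x * (1 - η)) :=
          mul_le_mul_of_nonneg_right e1 (Real.exp_pos _).le
      _ = c * (Real.exp C₁ * Real.exp (Real.log x * (1 - η))) := by ring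
      _ ≤ c * (x * Real.exp (-((t + K₀) / l))) := mul_le_mul_of_nonneg_left e3 hc.le
      _ = _ := by ring
  have h3 : 1 ≤ x ^ (1 - η) := Real.one_le_rpow hx1' (by linarith)
  have h4 : (N : ℝ) + missed S R x <
      (({m : ℕ | 1 ≤ m ∧ (m : ℝ) ≤ x ∧ ∀ h ≤ R, ¬ StopsBy t (m + h)} : Set ℕ).ncard : ℝ) := by
    nlinarith
  -- a bad window with an element of `S`
  obtain ⟨m, hm1, hm2, hm3⟩ : ∃ m ∈ {m : ℕ | 1 ≤ m ∧ (m : ℝ) ≤ x ∧ ∀ h ≤ R, ¬ StopsBy t (m + h)},
      N < m ∧ ¬ ∀ h ≤ R, m + h ∉ S := by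
    by_contra hcon
    push Not at hcon
    have hsub : {m : ℕ | 1 ≤ m ∧ (m : ℝ) ≤ x ∧ ∀ h ≤ R, ¬ StopsBy t (m + h)} ⊆
        ((Finset.Icc 1 N : Finset ℕ) : Set ℕ) ∪ {m : ℕ | 1 ≤ m ∧ (m : ℝ) ≤ x ∧ ∀ h ≤ R, m + h ∉ S} := by
      intro m hm
      rcases Nat.lt_or_ge N m with h5 | h5
      · exact Or.inr ⟨hm.1, hm.2.1, hcon m hm h5⟩
      · left
        rw [Finset.mem_coe, Finset.mem_Icc]
        exact ⟨hm.1, h5⟩
    have h5 := (Set.ncard_le_ncard hsub ((Finset.finite_toSet _).union (below_finite x _))).trans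
      (Set.ncard_union_le _ _)
    rw [Set.ncard_coe_finset, Nat.card_Icc, Nat.add_sub_cancel] at h5
    have h6 : (({m : ℕ | 1 ≤ m ∧ (m : ℝ) ≤ x ∧ ∀ h ≤ R, ¬ StopsBy t (m + h)} : Set ℕ).ncard : ℝ) ≤
        N + missed S R x := by exact_mod_cast h5
    linarith
  push Not at hm3
  obtain ⟨h', hh', hmS⟩ := hm3
  have h5 := hN (m + h') hmS (by omega)
  have h6 := hm1.2.2 h' hh'
  have h7 : t < q * Real.log ((m + h' : ℕ) : ℝ) := by
    by_contra hcon
    push Not at hcon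
    exact h6 (h5.mono hcon)
  have hmR : (1 : ℝ) ≤ m := by exact_mod_cast hm1.1
  have h8 : Real.log ((m + h' : ℕ) : ℝ) ≤ Real.log x + Real.log ((R : ℝ) + 1) := by
    have hR1 : (0 : ℝ) < (R : ℝ) + 1 := by
      have : (0 : ℝ) ≤ R := Nat.cast_nonneg R
      linarith
    rw [← Real.log_mul hx0.ne' hR1.ne']
    apply Real.log_le_log
    · push_cast
      have : (0 : ℝ) ≤ h' := Nat.cast_nonneg h'
      linarith
    · push_cast
      have h9 : (h' : ℝ) ≤ R := by exact_mod_cast hh'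
      have h10 := hm1.2.1
      have : (0 : ℝ) ≤ R := Nat.cast_nonneg R
      nlinarith
  have h9 : t < q * (K * s + Real.log ((R : ℝ) + 1)) :=
    h7.trans_le (mul_le_mul_of_nonneg_left (h8.trans (by linarith)) hq.le)
  have h10 : q * (K * s + Real.log ((R : ℝ) + 1)) = (1 - θ) * t + C₂ := by
    rw [hθ, hC₂, hs, hA]
    field_simp
    ring
  rw [h10] at h9
  rw [div_le_iff₀ hθ0] at ht1
  linarith

/-- THE MAIN INEQUALITY -/
theorem suff {S : Set ℕ} {R : ℕ} {η K : ℝ} (hη : 0 < η) (hη1 : η ≤ 1) (hK : 1 ≤ K)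
    (hm : ∀ᶠ y : ℝ in atTop, ∃ x : ℝ, y ≤ x ∧ x ≤ y ^ K ∧ (missed S R x : ℝ) ≤ x ^ (1 - η)) :
    ENNReal.ofReal η * L ≤ ENNReal.ofReal K * LS S := by
  by_contra hcon
  push Not at hcon
  have hK0 : 0 < K := by linarith
  have hLS : LS S ≠ ⊤ := by
    intro h
    rw [h, ENNReal.mul_top (by rw [Ne, ENNReal.ofReal_eq_zero]; linarith)] at hcon
    exact not_top_lt hcon
  set p : ℝ := (LS S).toReal with hp
  have hp0 : 0 ≤ p := ENNReal.toReal_nonneg
  have hpe : LS S = ENNReal.ofReal p := (ENNReal.ofReal_toReal hLS).symm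
  have h1 : ENNReal.ofReal (K * p / η) < L := by
    rw [hpe, ← ENNReal.ofReal_mul hK0.le] at hcon
    rw [ENNReal.ofReal_div_of_pos hη]
    apply ENNReal.div_lt_of_lt_mul'
    exact hcon
  have h2 : ENNReal.ofReal (max (K * p / η) 41) < L := by
    rcases le_total (K * p / η) 41 with h | h
    · rw [max_eq_right h]
      refine lt_trans ?_ L_gt
      rw [ENNReal.ofReal_lt_ofReal_iff (by norm_num)]
      norm_num
    · rw [max_eq_left h]
      exact h1
  obtain ⟨r, hr1, hr2⟩ := ENNReal.lt_iff_exists_nnreal_btwn.1 h2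
  set l : ℝ := (r : ℝ) with hl
  have hre : (r : ℝ≥0∞) = ENNReal.ofReal l := (ENNReal.ofReal_coe_nnreal).symm
  rw [hre] at hr1 hr2
  have hl1 : max (K * p / η) 41 < l := by
    exact (ENNReal.ofReal_lt_ofReal_iff_of_nonneg (by positivity)).1 hr1
  have hl2 : K * p / η < l := (le_max_left _ _).trans_lt hl1
  have hl3 : 41 < l := (le_max_right _ _).trans_lt hl1
  have hl0 : 0 < l := by linarith
  rw [div_lt_iff₀ hη] at hl2
  set q : ℝ := (p + η * l / K) / 2 with hq
  have hqp : p < η * l / K := by rw [lt_div_iff₀ hK0]; linarith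
  have hq1 : p < q := by rw [hq]; linarith
  have hq2 : K * q < η * l := by
    have : q < η * l / K := by rw [hq]; linarith
    rw [lt_div_iff₀ hK0] at this
    linarith
  have hq0 : 0 < q := by linarith
  have hlog : 1 < l * Real.log 2 := by
    have := Real.log_two_gt_d9
    nlinarith
  refine real_suff hη hη1 hK hlog hq0 hq2 (freq_of_lt hl0.le hr2) ?_ hm
  have h3 : LS S < ENNReal.ofReal q := by
    rw [hpe]
    exact (ENNReal.ofReal_lt_ofReal_iff hq0).2 hq1
  have h4 := eventually_lt_of_limsup_lt h3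
  rw [eventually_inf_principal, eventually_atTop] at h4
  obtain ⟨N, hN⟩ := h4
  refine ⟨max N 2, fun n hnS hn => ?_⟩
  exact (ratio_le_iff ((le_max_right _ _).trans hn) hq0.le).1 (hN n ((le_max_left _ _).trans hn) hnS).le

theorem LS_le (S : Set ℕ) : LS S ≤ L :=
  limsup_le_limsup_of_le inf_le_left (by isBoundedDefault) (by isBoundedDefault)

/-- sets with bounded gaps -/
theorem syndetic {S : Set ℕ} {R : ℕ} (h : ∀ᶠ m : ℕ in atTop, ∃ i ≤ R, m + i ∈ S) : LS S = L := by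
  apply le_antisymm (LS_le S)
  obtain ⟨N, hN⟩ := eventually_atTop.1 h
  have key : ∀ η : ℝ, 0 < η → η < 1 → ENNReal.ofReal η * L ≤ LS S := by
    intro η hη hη1
    have h1 := suff (S := S) (R := R) (K := 1) hη hη1.le le_rfl (by
      filter_upwards [(tendsto_rpow_atTop (show 0 < 1 - η by linarith)).eventually_ge_atTop (N : ℝ)] with y hy
      refine ⟨y, le_rfl, by rw [Real.rpow_one], le_trans ?_ hy⟩
      have hsub : {m : ℕ | 1 ≤ m ∧ (m : ℝ) ≤ y ∧ ∀ h ≤ R, m + h ∉ S} ⊆ ((Finset.range N : Finset ℕ) : Set ℕ) := by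
        rintro m ⟨-, -, h3⟩
        rw [Finset.coe_range, Set.mem_Iio]
        by_contra hcon
        obtain ⟨i, hi, hi2⟩ := hN m (by omega)
        exact h3 i hi hi2
      have h1 := Set.ncard_le_ncard hsub (Finset.finite_toSet _)
      rw [Set.ncard_coe_finset, Finset.card_range] at h1
      unfold missed
      exact_mod_cast h1)
    rwa [ENNReal.ofReal_one, one_mul] at h1
  apply le_of_forall_lt
  intro b hb
  by_contra hcon
  push Not at hcon
  have hbt : b ≠ ⊤ := ne_top_of_lt hb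
  -- `LS S ≤ b < L`, choose `η` with `b < η L`
  have h1 : Tendsto (fun η : ℝ => ENNReal.ofReal η * L) (𝓝[<] 1) (𝓝 (ENNReal.ofReal 1 * L)) := by
    apply ENNReal.Tendsto.mul_const
    · exact (ENNReal.continuous_ofReal.tendsto 1).mono_left nhdsWithin_le_nhds
    · left
      rw [ENNReal.ofReal_one]
      exact one_ne_zero
  rw [ENNReal.ofReal_one, one_mul] at h1
  have h2 := h1.eventually (lt_mem_nhds hb)
  have h3 : ∀ᶠ η : ℝ in 𝓝[<] 1, 0 < η ∧ η < 1 := by
    filter_upwards [Ioo_mem_nhdsLT (show (0 : ℝ) < 1 by norm_num)] with η hη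
    exact hη
  obtain ⟨η, hη1, hη2, hη3⟩ := (h2.and h3).exists
  have := key η hη2 hη3
  exact absurd (lt_of_lt_of_le hη1 (this.trans hcon)) (lt_irrefl _)

end Pool.Agent.K4H97.CE
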