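import Pool.Agent.K4H97.CE.MainB
import Pool.Agent.K4H97.CE.Loc

set_option autoImplicit false

/-! Short intervals. -/

namespace Pool.Agent.K4H97.CE

open Filter Topology
open scoped ENNReal

/-- the number of the `n` in `[y, y + y^(1 - η)]` outside `S` -/
noncomputable def excAt (S : Set ℕ) (η y : ℝ) : ℕ :=
  {n : ℕ | y ≤ (n : ℝ) ∧ (n : ℝ) ≤ y + y ^ (1 - η) ∧ n ∉ S}.ncard

theorem excAt_finite (S : Set ℕ) (a b : ℝ) : {n : ℕ | a ≤ (n : ℝ) ∧ (n : ℝ) ≤ b ∧ n ∉ S}.Finite := by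
  apply (Set.finite_Iic ⌊b⌋₊).subset
  rintro n ⟨_, h2, _⟩
  exact Nat.le_floor h2

theorem real_short : ∃ δ : ℝ, 0 < δ ∧ ∀ (S : Set ℕ) (η l q : ℝ), 0 < η → η < 1 → 1 < l * Real.log 2 →
    0 < q → q < η * l → (∃ᶠ n : ℕ in atTop, ¬ StopsBy (l * Real.log n) n) →
    (∃ N : ℕ, ∀ n ∈ S, N ≤ n → StopsBy (q * Real.log n) n) →
    ¬ ∀ᶠ y : ℝ in atTop, (excAt S η y : ℝ) ≤ δ * y ^ (1 - η) / Real.log y := by
  classical
  obtain ⟨C₀, C₁, Y₀, J, hC₀, hC₁, hY₀, hloc⟩ := local_pred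
  refine ⟨1 / (128 * C₁ * (4 * C₀ + 1)), by positivity, ?_⟩
  set δ : ℝ := 1 / (128 * C₁ * (4 * C₀ + 1)) with hδ
  have hδ0 : 0 < δ := by positivity
  intro S η l q hη hη1 hl hq hql hf hS hm
  have hl2 : 0 < Real.log 2 := Real.log_pos (by norm_num)
  have hl0 : 0 < l := by
    by_contra hcon
    push Not at hcon
    nlinarith
  obtain ⟨N, hN⟩ := hS
  obtain ⟨y₀, hy₀⟩ := eventually_atTop.1 hm
  have h1η : 0 < 1 - η := by linarith
  set θ : ℝ := (1 - η) / η with hθ
  have hθ0 : 0 < θ := by positivity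
  -- the lower bound for `b'`
  obtain ⟨B₀, hB₀⟩ : ∃ B₀ : ℝ, 4 * C₀ ≤ B₀ ∧ 4 ≤ B₀ ∧ Y₀ ^ (1 / θ) ≤ B₀ ∧ 4 * y₀ ≤ B₀ ∧ 4 * N ≤ B₀ := by
    refine ⟨max (4 * C₀) (max 4 (max (Y₀ ^ (1 / θ)) (max (4 * y₀) (4 * N)))), ?_, ?_, ?_, ?_, ?_⟩ <;> simp
  obtain ⟨hB1, hB2, hB3, hB4, hB5⟩ := hB₀
  obtain ⟨i, hi⟩ : ∃ i : ℕ, 2 ^ J * B₀ ≤ (2 : ℝ) ^ i := by
    obtain ⟨i, hi⟩ := pow_unbounded_of_one_lt (2 ^ J * B₀) (show (1 : ℝ) < 2 by norm_num)
    exact ⟨i, hi.le⟩
  -- the bad number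
  set K₀ : ℝ := l * Real.log 2 + 1 with hK₀
  set C₂ : ℝ := q / η * ((J + i) * Real.log 2) + q / (η * l) * K₀ with hC₂
  set ρ : ℝ := 1 - q / (η * l) with hρ
  have hρ0 : 0 < ρ := by
    rw [hρ, sub_pos, div_lt_one (by positivity)]
    exact hql
  have hpos : 0 < l - 1 / Real.log 2 := by
    rw [sub_pos, div_lt_iff₀ hl2]
    exact hl
  have htend : Tendsto (fun n : ℕ => (l - 1 / Real.log 2) * Real.log n - 1) atTop atTop := by
    apply tendsto_atTop_add_const_right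
    exact (Real.tendsto_log_atTop.comp tendsto_natCast_atTop_atTop).const_mul_atTop hpos
  obtain ⟨n, hn1, hn2, hn3⟩ := (hf.and_eventually ((htend.eventually_ge_atTop (max (C₂ / ρ) 1)).and
    (eventually_ge_atTop 2))).exists
  obtain ⟨b₀, t, hb0, hb3, hst, ht1, ht2⟩ := reduce hl hn3 hn1
  have ht3 : C₂ / ρ ≤ t := (le_max_left _ _).trans (hn2.trans ht2)
  have ht4 : 1 ≤ t := (le_max_right _ _).trans (hn2.trans ht2)
  have hb0R : (0 : ℝ) < b₀ := by exact_mod_cast hb0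
  have hb1R : (1 : ℝ) ≤ b₀ := by exact_mod_cast hb0
  obtain ⟨b', hbb1, hbb2, hY⟩ := hloc (2 ^ i * b₀) (by positivity) (by
    intro h3
    rcases (Nat.Prime.dvd_mul Nat.prime_three).1 h3 with h4 | h4
    · have := Nat.Prime.dvd_of_dvd_pow Nat.prime_three h4
      omega
    · exact hb3 h4)
  have hstb : ¬ StopsBy t (2 ^ i * b₀) := not_stops_pre ht4 (iter_pow_mul i b₀) hst
  have hb'R : B₀ ≤ (b' : ℝ) := by
    have h1 : (2 : ℝ) ^ i * b₀ ≤ 2 ^ J * b' := by exact_mod_cast hbb1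
    have h2 : (0 : ℝ) < 2 ^ J := by positivity
    have h3 : (2 : ℝ) ^ J * B₀ ≤ 2 ^ J * b' := by
      refine hi.trans (le_trans ?_ h1)
      have h4 : (0 : ℝ) < 2 ^ i := by positivity
      nlinarith
    exact le_of_mul_le_mul_left h3 h2
  have hb'0 : (0 : ℝ) < b' := by linarith
  have hb'1 : (1 : ℝ) ≤ b' := by linarith
  set Y : ℝ := (b' : ℝ) ^ θ with hYdef
  have hY0 : 0 < Y := Real.rpow_pos_of_pos hb'0 _
  have hYY : Y₀ ≤ Y := by
    have h1 : (Y₀ ^ (1 / θ)) ^ θ ≤ (b' : ℝ) ^ θ := Real.rpow_le_rpow (by positivity) (hB3.trans hb'R) hθ0.le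
    rwa [← Real.rpow_mul (by linarith), one_div_mul_cancel hθ0.ne', Real.rpow_one] at h1
  have hY3 : 3 ≤ Y := hY₀.trans hYY
  set X : ℝ := Y * b' with hX
  have hX0 : 0 < X := by positivity
  have hXb : (b' : ℝ) ≤ X := by rw [hX]; nlinarith
  have hXη : X ^ (1 - η) = Y := by
    have h1 : X = (b' : ℝ) ^ (1 / η) := by
      rw [hX, hYdef]
      nth_rewrite 2 [← Real.rpow_one (b' : ℝ)]
      rw [← Real.rpow_add hb'0]
      congr 1
      rw [hθ]
      field_simp
      ring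
    rw [h1, ← Real.rpow_mul hb'0.le, hYdef]
    congr 1
    rw [hθ]
    field_simp
  have hlogX : Real.log X = 1 / η * Real.log b' := by
    have h1 := congrArg Real.log hXη
    rw [Real.log_rpow hX0, hYdef, Real.log_rpow hb'0, hθ] at h1
    have h2 : Real.log X = (1 - η) / η * Real.log b' / (1 - η) := by
      rw [← h1]
      field_simp
    rw [h2]
    field_simp
  obtain ⟨Z, U, hU, hUX, hZ, hZc⟩ := hY Y hYY
  -- the exceptions in `Z`
  have hX4 : Y ≤ X / 4 := by rw [hX]; nlinarith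
  have hlogY : 0 < Real.log Y := Real.log_pos (by linarith)
  have hlogX4 : Real.log Y ≤ Real.log (X / 4) := Real.log_le_log hY0 hX4
  have hCY : C₀ * Y ≤ X / 4 := by
    rw [hX]
    have : 4 * C₀ ≤ b' := hB1.trans hb'R
    nlinarith
  set M : ℕ := ⌊4 * C₀⌋₊ + 1 with hM
  have hMR : (M : ℝ) ≤ 4 * C₀ + 1 := by
    rw [hM]
    push_cast
    have := Nat.floor_le (show 0 ≤ 4 * C₀ by linarith)
    linarith
  set yy : ℝ → ℕ → ℝ := fun u k => u - C₀ * Y + k * (Y / 4) with hyy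
  have hy1 : ∀ u ∈ U, ∀ k ∈ Finset.range M, X / 4 ≤ yy u k ∧ yy u k ≤ X := by
    intro u hu k hk
    rw [Finset.mem_range, hM, Nat.lt_succ_iff] at hk
    have hk2 : (k : ℝ) ≤ 4 * C₀ := by
      have h1 : (k : ℝ) ≤ (⌊4 * C₀⌋₊ : ℕ) := by exact_mod_cast hk
      exact h1.trans (Nat.floor_le (by linarith))
    have hk0 : (0 : ℝ) ≤ k := Nat.cast_nonneg k
    obtain ⟨h1, h2⟩ := hUX u hu
    rw [← hX] at h1 h2
    simp only [hyy]
    constructor
    · have : 0 ≤ (k : ℝ) * (Y / 4) := by positivity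
      linarith
    · have : (k : ℝ) * (Y / 4) ≤ 4 * C₀ * (Y / 4) := mul_le_mul_of_nonneg_right hk2 (by positivity)
      linarith
  have hexc : ∀ u ∈ U, ∀ k ∈ Finset.range M, (excAt S η (yy u k) : ℝ) ≤ δ * Y / Real.log Y := by
    intro u hu k hk
    obtain ⟨h1, h2⟩ := hy1 u hu k hk
    have h3 : y₀ ≤ yy u k := by
      refine le_trans ?_ h1
      linarith
    refine (hy₀ _ h3).trans ?_
    have hpos : 0 < yy u k := lt_of_lt_of_le (by positivity) h1
    have h4 : (yy u k) ^ (1 - η) ≤ Y := by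
      rw [← hXη]
      exact Real.rpow_le_rpow hpos.le h2 h1η.le
    have h5 : Real.log Y ≤ Real.log (yy u k) := Real.log_le_log hY0 (hX4.trans h1)
    apply div_le_div₀ (by positivity) (mul_le_mul_of_nonneg_left h4 hδ0.le) hlogY h5
  set E : ℝ → ℕ → Finset ℕ := fun u k => (excAt_finite S (yy u k) (yy u k + yy u k ^ (1 - η))).toFinset with hE
  have hEcard : ∀ u k, (E u k).card = excAt S η (yy u k) := by
    intro u k
    simp only [hE]
    unfold excAt
    rw [Set.ncard_eq_toFinset_card _ (excAt_finite S _ _)]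
  have hsub : Z.filter (fun z => z ∉ S) ⊆ U.biUnion fun u => (Finset.range M).biUnion fun k => E u k := by
    intro z hz
    rw [Finset.mem_filter] at hz
    obtain ⟨hzZ, hzS⟩ := hz
    obtain ⟨-, u, hu, hz1, hz2⟩ := hZ z hzZ
    rw [Finset.mem_biUnion]
    refine ⟨u, hu, ?_⟩
    rw [Finset.mem_biUnion]
    set r : ℝ := ((z : ℝ) - (u - C₀ * Y)) / (Y / 4) with hr
    have hr0 : 0 ≤ r := div_nonneg (by linarith) (by positivity)
    have hr1 : r ≤ 4 * C₀ := by
      rw [hr, div_le_iff₀ (by positivity)]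
      linarith
    have hkM : ⌊r⌋₊ ∈ Finset.range M := by
      rw [Finset.mem_range, hM, Nat.lt_succ_iff]
      exact Nat.floor_mono hr1
    refine ⟨⌊r⌋₊, hkM, ?_⟩
    have hf1 := Nat.floor_le hr0
    have hf2 := Nat.lt_floor_add_one r
    have hrz : (z : ℝ) = u - C₀ * Y + r * (Y / 4) := by
      rw [hr, div_mul_cancel₀ _ (by positivity)]
      ring
    have hYy : Y / 4 ≤ (yy u ⌊r⌋₊) ^ (1 - η) := by
      have h1 := (hy1 u hu _ hkM).1
      have h2 : (X / 4) ^ (1 - η) ≤ (yy u ⌊r⌋₊) ^ (1 - η) := Real.rpow_le_rpow (by positivity) h1 h1η.le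
      refine le_trans ?_ h2
      rw [Real.div_rpow hX0.le (by norm_num), hXη]
      apply div_le_div_of_nonneg_left hY0.le (by positivity)
      calc (4 : ℝ) ^ (1 - η) ≤ 4 ^ (1 : ℝ) := Real.rpow_le_rpow_of_exponent_le (by norm_num) (by linarith)
        _ = 4 := Real.rpow_one _
    simp only [hE, Set.Finite.mem_toFinset, Set.mem_ofPred_eq]
    refine ⟨?_, ?_, hzS⟩
    · rw [hrz]
      simp only [hyy]
      have := mul_le_mul_of_nonneg_right hf1 (show 0 ≤ Y / 4 by positivity)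
      linarith
    · rw [hrz]
      have h1 := mul_le_mul_of_nonneg_right hf2.le (show 0 ≤ Y / 4 by positivity)
      have h2 : yy u ⌊r⌋₊ = u - C₀ * Y + ⌊r⌋₊ * (Y / 4) := rfl
      linarith
  have hcard : ((Z.filter (fun z => z ∉ S)).card : ℝ) ≤ Y / 128 := by
    have h1 : (Z.filter (fun z => z ∉ S)).card ≤ ∑ u ∈ U, ∑ k ∈ Finset.range M, excAt S η (yy u k) := by
      refine (Finset.card_le_card hsub).trans (Finset.card_biUnion_le.trans ?_)
      apply Finset.sum_le_sum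
      intro u _
      refine Finset.card_biUnion_le.trans ?_
      apply Finset.sum_le_sum
      intro k _
      rw [hEcard]
    have h2 : ((Z.filter (fun z => z ∉ S)).card : ℝ) ≤
        ∑ u ∈ U, ∑ k ∈ Finset.range M, (excAt S η (yy u k) : ℝ) := by exact_mod_cast h1
    refine h2.trans ?_
    have h3 : ∑ u ∈ U, ∑ k ∈ Finset.range M, (excAt S η (yy u k) : ℝ) ≤
        ∑ u ∈ U, ∑ k ∈ Finset.range M, δ * Y / Real.log Y := by
      apply Finset.sum_le_sum
      intro u hu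
      apply Finset.sum_le_sum
      intro k hk
      exact hexc u hu k hk
    refine h3.trans ?_
    rw [Finset.sum_const, Finset.sum_const, Finset.card_range, nsmul_eq_mul, nsmul_eq_mul]
    have h4 : (U.card : ℝ) * ((M : ℝ) * (δ * Y / Real.log Y)) ≤
        (C₁ * Real.log Y) * ((4 * C₀ + 1) * (δ * Y / Real.log Y)) := by
      apply mul_le_mul hU _ (by positivity) (by positivity)
      exact mul_le_mul_of_nonneg_right hMR (by positivity)
    refine h4.trans (le_of_eq ?_)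
    rw [hδ]
    field_simp
  have hex : ∃ z ∈ Z, z ∈ S := by
    by_contra hcon
    push Not at hcon
    have h1 : Z.filter (fun z => z ∉ S) = Z := Finset.filter_true_of_mem hcon
    rw [h1] at hcard
    linarith
  obtain ⟨z, hzZ, hzS⟩ := hex
  obtain ⟨⟨k, hk⟩, u, hu, hz1, hz2⟩ := hZ z hzZ
  obtain ⟨hu1, hu2⟩ := hUX u hu
  rw [← hX] at hu1 hu2
  have hzX : (z : ℝ) ≤ X := hz2.trans hu2
  have hzX4 : X / 4 ≤ z := by linarith
  have hz0 : (0 : ℝ) < z := lt_of_lt_of_le (by positivity) hzX4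
  have hNz : N ≤ z := by
    have : (N : ℝ) ≤ z := by linarith
    exact_mod_cast this
  have hbad : ¬ StopsBy t z := not_stops_pre ht4 hk hstb
  have hqt : t < q * Real.log z := by
    by_contra hcon
    push Not at hcon
    exact hbad ((hN z hzS hNz).mono hcon)
  have hlz : Real.log z ≤ 1 / η * Real.log b' := by
    rw [← hlogX]
    exact Real.log_le_log hz0 hzX
  have hlb' : Real.log b' ≤ (J + i) * Real.log 2 + Real.log b₀ := by
    have h1 : (b' : ℝ) ≤ 2 ^ J * (2 ^ i * b₀) := by exact_mod_cast hbb2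
    have h2 := Real.log_le_log hb'0 h1
    rw [Real.log_mul (by positivity) (by positivity), Real.log_mul (by positivity) hb0R.ne', Real.log_pow,
      Real.log_pow] at h2
    linarith
  have hlb0 : Real.log b₀ ≤ (t + K₀) / l := by
    rw [le_div_iff₀ hl0]
    linarith
  have hfin : t < q / η * ((J + i) * Real.log 2 + (t + K₀) / l) := by
    calc t < q * Real.log z := hqt
      _ ≤ q * (1 / η * ((J + i) * Real.log 2 + (t + K₀) / l)) := by
          apply mul_le_mul_of_nonneg_left _ hq.le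
          refine hlz.trans ?_
          apply mul_le_mul_of_nonneg_left _ (by positivity)
          linarith
      _ = _ := by ring
  have hfin2 : ρ * t < C₂ := by
    have e : q / η * ((J + i) * Real.log 2 + (t + K₀) / l) = C₂ + q / (η * l) * t := by
      rw [hC₂]
      field_simp
      ring
    rw [e] at hfin
    rw [hρ]
    linarith
  rw [div_le_iff₀ hρ0] at ht3
  linarith

/-- SHORT INTERVALS -/
theorem short : ∃ δ : ℝ, 0 < δ ∧ ∀ (S : Set ℕ) (η : ℝ), 0 < η → η < 1 →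
    (∀ᶠ y : ℝ in atTop, (excAt S η y : ℝ) ≤ δ * y ^ (1 - η) / Real.log y) →
    ENNReal.ofReal η * L ≤ LS S := by
  obtain ⟨δ, hδ, h⟩ := real_short
  refine ⟨δ, hδ, fun S η hη hη1 hm => ?_⟩
  by_contra hcon
  push Not at hcon
  have hLS : LS S ≠ ⊤ := by
    intro h
    rw [h] at hcon
    exact not_top_lt hcon
  set p : ℝ := (LS S).toReal with hp
  have hp0 : 0 ≤ p := ENNReal.toReal_nonneg
  have hpe : LS S = ENNReal.ofReal p := (ENNReal.ofReal_toReal hLS).symm
  have h1 : ENNReal.ofReal (p / η) < L := by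
    rw [hpe] at hcon
    rw [ENNReal.ofReal_div_of_pos hη]
    apply ENNReal.div_lt_of_lt_mul'
    exact hcon
  have h2 : ENNReal.ofReal (max (p / η) 41) < L := by
    rcases le_total (p / η) 41 with h | h
    · rw [max_eq_right h]
      refine lt_trans ?_ L_gt
      rw [ENNReal.ofReal_lt_ofReal_iff (by norm_num)]
      norm_num
    · rw [max_eq_left h]
      exact h1
  obtain ⟨r, hr1, hr2⟩ := ENNReal.lt_iff_exists_nnreal_btwn.1 h2
  set l : ℝ := (r : ℝ) with hl
  have hre : (r : ℝ≥0∞) = ENNReal.ofReal l := (ENNReal.ofReal_coe_nnreal).symm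
  rw [hre] at hr1 hr2
  have hl1 : max (p / η) 41 < l := by
    exact (ENNReal.ofReal_lt_ofReal_iff_of_nonneg (by positivity)).1 hr1
  have hl2 : p / η < l := (le_max_left _ _).trans_lt hl1
  have hl3 : 41 < l := (le_max_right _ _).trans_lt hl1
  have hl0 : 0 < l := by linarith
  rw [div_lt_iff₀ hη] at hl2
  set q : ℝ := (p + η * l) / 2 with hq
  have hq1 : p < q := by rw [hq]; linarith
  have hq2 : q < η * l := by rw [hq]; linarith
  have hq0 : 0 < q := by linarith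
  have hlog : 1 < l * Real.log 2 := by
    have := Real.log_two_gt_d9
    nlinarith
  refine h S η l q hη hη1 hlog hq0 hq2 (freq_of_lt hl0.le hr2) ?_ hm
  have h3 : LS S < ENNReal.ofReal q := by
    rw [hpe]
    exact (ENNReal.ofReal_lt_ofReal_iff hq0).2 hq1
  have h4 := eventually_lt_of_limsup_lt h3
  rw [eventually_inf_principal, eventually_atTop] at h4
  obtain ⟨N, hN⟩ := h4
  refine ⟨max N 2, fun n hnS hn => ?_⟩
  exact (ratio_le_iff ((le_max_right _ _).trans hn) hq0.le).1 (hN n ((le_max_left _ _).trans hn) hnS).le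

end Pool.Agent.K4H97.CE
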