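import Pool.Agent.K4H97.CE.Base

set_option autoImplicit false

/-! The paths of the good words do not go far below the root. -/

namespace Pool.Agent.K4H97.CE

open Filter Topology
open Finset Pool.Agent.H320R2.PD Pool.Agent.H320R2.PD.Cnt Pool.Agent.H366R2.PDK
  Pool.Agent.H366R2.KGen

theorem path_low {w : List ℕ} : ∀ {x : ℤ}, (∀ e ∈ w, 1 ≤ e) → 0 < x →
    (3 : ℤ) ^ w.length ∣ 2 ^ w.sum * x - 1 * Wo w → ∀ i ≤ w.sum,
    x ≤ (TK 1)^[i] ((2 ^ w.sum * x - 1 * Wo w) / 3 ^ w.length) ∨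
      2 ^ w.sum * x - Wo w ≤ 3 * Wo w * (TK 1)^[i] ((2 ^ w.sum * x - 1 * Wo w) / 3 ^ w.length) := by
  induction w with
  | nil =>
    intro x _ _ _ i hi
    left
    simp only [List.sum_nil, Nat.le_zero] at hi
    subst hi
    simp [Wo]
  | cons e w ih =>
    intro x hw hx h i hi
    have he : 1 ≤ e := hw e List.mem_cons_self
    have hw' : ∀ e ∈ w, 1 ≤ e := fun e he => hw e (List.mem_cons_of_mem _ he)
    obtain ⟨b, hb, hd, hq⟩ := word_consK h
    have h4 : (2 : ℤ) ≤ 2 ^ e := by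
      calc (2 : ℤ) = 2 ^ 1 := by norm_num
        _ ≤ 2 ^ e := pow_le_pow_right₀ (by norm_num) he
    have hb0 : 0 < b := by nlinarith
    rw [hq]
    set z : ℤ := (2 ^ w.sum * b - 1 * Wo w) / 3 ^ w.length with hz
    have hz0 : 0 < z := Pool.Agent.W38.UPD.endpoint_pos hw' hb0 hd
    rw [List.sum_cons] at hi
    by_cases hi2 : i ≤ w.sum
    · right
      have hv := (Pool.Agent.W38.UPD.iter_pos i hz0).1
      set v : ℤ := (TK 1)^[i] z with hvdef
      have h1 := ih hw' hb0 hd i hi2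
      rw [← hz, ← hvdef] at h1
      have hW0 : (0 : ℤ) ≤ Wo w := by positivity
      have hS0 : (0 : ℤ) < 2 ^ w.sum := by positivity
      have key : 2 ^ w.sum * b - Wo w ≤ (2 ^ w.sum + 3 * Wo w) * v := by
        rcases h1 with h1 | h1
        · have h2 : 2 ^ w.sum * b ≤ 2 ^ w.sum * v := mul_le_mul_of_nonneg_left h1 hS0.le
          have h3 : 0 ≤ (Wo w : ℤ) * v := mul_nonneg hW0 hv.le
          nlinarith
        · have h3 : 0 ≤ (2 : ℤ) ^ w.sum * v := mul_nonneg hS0.le hv.le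
          linarith
      rw [List.sum_cons, pow_add]
      simp only [Wo]
      push_cast
      have e1 : (2 : ℤ) ^ e * 2 ^ w.sum * x = 2 ^ w.sum * (3 * b + 1) := by rw [hb]; ring
      rw [e1]
      linarith
    · left
      obtain ⟨j, rfl⟩ : ∃ j, i = (j + 1) + w.sum := ⟨i - w.sum - 1, by omega⟩
      have hje : j + 1 ≤ e := by omega
      rw [Function.iterate_add_apply, endpoint_reachK (by norm_num) hw' hd, Function.iterate_succ_apply]
      obtain ⟨d, rfl⟩ : ∃ d, e = d + (j + 1) := ⟨e - (j + 1), by omega⟩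
      have h2 : (2 : ℤ) ^ (d + (j + 1)) * x = 2 * (2 ^ j * (2 ^ d * x)) := by ring
      rw [h2] at hb
      rw [TK_odd (by omega)]
      have h3 : (3 * b + 1) / 2 = 2 ^ j * (2 ^ d * x) := by omega
      rw [h3, TK_halves]
      have : (1 : ℤ) ≤ 2 ^ d := one_le_pow₀ (by norm_num)
      nlinarith

theorem T_ge (n : ℕ) : n ≤ 2 * T n := by
  unfold T
  split_ifs <;> omega

theorem iter_ge (n j : ℕ) : n ≤ 2 ^ j * T^[j] n := by
  induction j with
  | zero => simp
  | succ j ih =>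
    rw [Function.iterate_succ_apply']
    have h1 := T_ge (T^[j] n)
    calc n ≤ 2 ^ j * T^[j] n := ih
      _ ≤ 2 ^ j * (2 * T (T^[j] n)) := Nat.mul_le_mul_left _ h1
      _ = _ := by ring

/-- many predecessors whose paths to `b` stay above `c₁ b` -/
theorem low_pred : ∃ (c₁ Y₀ : ℝ) (J : ℕ), 0 < c₁ ∧ 3 ≤ Y₀ ∧ ∀ b : ℕ, 0 < b → ¬ 3 ∣ b →
    ∃ b' : ℕ, b ≤ 2 ^ J * b' ∧ b' ≤ 2 ^ J * b ∧ ∀ Y : ℝ, Y₀ ≤ Y → ∃ Z : Finset ℕ,
      (∀ z ∈ Z, 1 ≤ z ∧ (z : ℝ) ≤ Y * b' ∧ ∃ k : ℕ, T^[k] z = b ∧ ∀ i ≤ k, c₁ * b ≤ (T^[i] z : ℕ)) ∧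
      Y / 64 ≤ Z.card := by
  classical
  have quenched : QStmt := fun N0 => quenched_of decay N0
  obtain ⟨N0, N, r, hN0, hN1, hr, hU⟩ := good_class_of fun N0 => quenched_of decay N0
  obtain ⟨K, hK1, hK⟩ := Pool.Agent.W38.UPD.count2 quenched hN0
  obtain ⟨J, hJ⟩ := Pool.Agent.W38.UPD.move N r hr (N0 + 4)
  set A : ℝ := 5 * 2 ^ N0 with hA
  have hA1 : 1 ≤ A := by
    have : (1 : ℝ) ≤ 2 ^ N0 := one_le_pow₀ (by norm_num)
    rw [hA]
    linarith
  refine ⟨1 / (6 * A * 2 ^ J * 2 ^ J), max K 3, J, by positivity, le_max_right _ _, fun b hb hb3 => ?_⟩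
  obtain ⟨b₁, j, hjJ, hbL, hba, hab, hbr, hbj, hbnp⟩ := hJ b (by exact_mod_cast hb) (by omega)
  have hb₁0 : 0 < b₁ := lt_of_lt_of_le (by positivity) hbL
  obtain ⟨b', rfl⟩ : ∃ b' : ℕ, b₁ = (b' : ℤ) := ⟨b₁.toNat, (Int.toNat_of_nonneg hb₁0.le).symm⟩
  have hb'0 : (0 : ℝ) < b' := by exact_mod_cast hb₁0
  have hbb' : (b : ℝ) ≤ 2 ^ J * b' := by exact_mod_cast hab
  have hb'A : 2 * A ≤ b' := by
    have h1 : (2 : ℝ) ^ (N0 + 4) ≤ b' := by exact_mod_cast hbL
    rw [pow_add] at h1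
    have : (0 : ℝ) < 2 ^ N0 := by positivity
    rw [hA]
    linarith
  refine ⟨b', by exact_mod_cast hab, by exact_mod_cast hba, fun Y hY => ?_⟩
  have hYK : K ≤ Y := (le_max_left _ _).trans hY
  have hY3 : 3 ≤ Y := (le_max_right _ _).trans hY
  have hY0 : 0 < Y := by linarith
  obtain ⟨S, hS, hc⟩ := hK Y hYK b' (hU b' hbr)
  set f : List ℕ → ℤ := fun w => (2 ^ w.sum * (b' : ℤ) - 1 * Wo w) / 3 ^ w.length with hf
  have hval : ∀ w ∈ S, (3 : ℤ) ^ w.length ∣ 2 ^ w.sum * (b' : ℤ) - 1 * Wo w := by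
    intro w hw
    have := (hS w hw).2.1
    rwa [one_mul]
  have hinj : ∀ w ∈ S, ∀ w' ∈ S, f w = f w' → w = w' := fun w hw w' hw' he =>
    endpoint_injK (by norm_num) one_ne_zero hbnp (hS w hw).1 (hS w' hw').1 (hval w hw)
      (hval w' hw') he
  have hreach : ∀ w ∈ S, (TK 1)^[w.sum] (f w) = b' := fun w hw =>
    endpoint_reachK (by norm_num) (hS w hw).1 (hval w hw)
  have hpos : ∀ w ∈ S, 0 < f w := fun w hw =>
    Pool.Agent.W38.UPD.endpoint_pos (hS w hw).1 hb₁0 (hval w hw)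
  refine ⟨S.image (fun w => (f w).toNat), ?_, ?_⟩
  · intro z hz
    rw [Finset.mem_image] at hz
    obtain ⟨w, hw, rfl⟩ := hz
    have hz0 := hpos w hw
    have hcast : (((f w).toNat : ℕ) : ℤ) = f w := Int.toNat_of_nonneg hz0.le
    have hcastR : (((f w).toNat : ℕ) : ℝ) = (f w : ℝ) := by
      exact_mod_cast congrArg (Int.cast : ℤ → ℝ) hcast
    obtain ⟨hle, -, _, h4, h5, _⟩ := hS w hw
    have hp : (0 : ℝ) < 3 ^ w.length := by positivity
    refine ⟨by omega, ?_, j + w.sum, ?_, ?_⟩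
    · rw [hcastR]
      have h1 : (3 : ℤ) ^ w.length * f w = 2 ^ w.sum * (b' : ℤ) - 1 * Wo w :=
        Int.mul_ediv_cancel' (hval w hw)
      have h2 : (3 : ℝ) ^ w.length * (f w : ℝ) = 2 ^ w.sum * (b' : ℝ) - 1 * Wo w := by exact_mod_cast h1
      have hW0 : (0 : ℝ) ≤ Wo w := by positivity
      have h6 : (3 : ℝ) ^ w.length * (f w : ℝ) ≤ 3 ^ w.length * (Y * b') := by
        rw [h2]
        have h7 : (2 : ℝ) ^ w.sum * b' ≤ Y * 3 ^ w.length * b' := mul_le_mul_of_nonneg_right h4 hb'0.le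
        nlinarith
      exact le_of_mul_le_mul_left h6 hp
    · have h1 := T_cast (f w).toNat (j + w.sum)
      have h2 : (TK 1)^[j + w.sum] (f w) = b := by
        rw [Function.iterate_add_apply, hreach w hw, hbj]
      rw [hcast, h2] at h1
      exact_mod_cast h1
    · intro i hi
      have hJ1 : (1 : ℝ) ≤ 2 ^ J := one_le_pow₀ (by norm_num)
      have hJ0 : (0 : ℝ) < 2 ^ J := by positivity
      have hc0 : (1 : ℝ) / (6 * A * 2 ^ J * 2 ^ J) * b ≤ b' / (6 * A * 2 ^ J) := by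
        rw [div_mul_eq_mul_div, one_mul, div_le_div_iff₀ (by positivity) (by positivity)]
        have h1 : (b : ℝ) * (6 * A * 2 ^ J) ≤ (2 ^ J * b') * (6 * A * 2 ^ J) :=
          mul_le_mul_of_nonneg_right hbb' (by positivity)
        linarith
      have hc1 : (1 : ℝ) / (6 * A * 2 ^ J * 2 ^ J) * b ≤ b' / (6 * A) := by
        refine hc0.trans ?_
        apply div_le_div_of_nonneg_left hb'0.le (by positivity)
        have : 0 < 6 * A := by positivity
        nlinarith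
      have hc2 : (1 : ℝ) / (6 * A * 2 ^ J * 2 ^ J) * b ≤ b' / 2 ^ J := by
        refine hc0.trans ?_
        apply div_le_div_of_nonneg_left hb'0.le hJ0
        nlinarith
      by_cases hi2 : i ≤ w.sum
      · have h1 := T_cast (f w).toNat i
        rw [hcast] at h1
        have h2 := path_low (w := w) (x := (b' : ℤ)) hle hb₁0 (hval w hw) i hi2
        change (b' : ℤ) ≤ (TK 1)^[i] (f w) ∨ 2 ^ w.sum * (b' : ℤ) - Wo w ≤ 3 * Wo w * (TK 1)^[i] (f w) at h2
        rw [← h1] at h2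
        refine hc1.trans ?_
        rw [div_le_iff₀ (by positivity)]
        have hv0 : (0 : ℝ) ≤ ((T^[i] (f w).toNat : ℕ) : ℝ) := Nat.cast_nonneg _
        rcases h2 with h2 | h2
        · have h3 : (b' : ℝ) ≤ ((T^[i] (f w).toNat : ℕ) : ℝ) := by exact_mod_cast h2
          nlinarith
        · have h3 : (2 : ℝ) ^ w.sum * b' - Wo w ≤ 3 * Wo w * ((T^[i] (f w).toNat : ℕ) : ℝ) := by exact_mod_cast h2
          set v : ℝ := ((T^[i] (f w).toNat : ℕ) : ℝ) with hv
          have h2p : (0 : ℝ) < 2 ^ w.sum := by positivity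
          have h5' : (Wo w : ℝ) ≤ A * 2 ^ w.sum := h5
          have h6 : 3 * (Wo w : ℝ) * v ≤ 3 * (A * 2 ^ w.sum) * v := by
            apply mul_le_mul_of_nonneg_right _ hv0
            linarith
          have h7 : (2 : ℝ) ^ w.sum * b' ≤ 2 ^ w.sum * (A + 3 * A * v) := by linarith
          have h8 := le_of_mul_le_mul_left h7 h2p
          linarith
      · obtain ⟨i', rfl⟩ : ∃ i', i = i' + w.sum := ⟨i - w.sum, by omega⟩
        have hi' : i' ≤ J := by omega
        have h1 := T_cast (f w).toNat w.sum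
        rw [hcast, hreach w hw] at h1
        have h2 : T^[w.sum] (f w).toNat = b' := by exact_mod_cast h1
        rw [Function.iterate_add_apply, h2]
        have h3 := iter_ge b' i'
        have h4 : (b' : ℝ) ≤ 2 ^ i' * ((T^[i'] b' : ℕ) : ℝ) := by exact_mod_cast h3
        have h5 : (2 : ℝ) ^ i' ≤ 2 ^ J := pow_le_pow_right₀ (by norm_num) hi'
        refine hc2.trans ?_
        rw [div_le_iff₀ hJ0]
        have hv0 : (0 : ℝ) ≤ ((T^[i'] b' : ℕ) : ℝ) := Nat.cast_nonneg _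
        have h6 := mul_le_mul_of_nonneg_right h5 hv0
        linarith
  · rw [Finset.card_image_of_injOn]
    · exact hc
    · intro w hw w' hw' he
      have h1 := hpos w hw
      have h2 := hpos w' hw'
      have h3 : (f w).toNat = (f w').toNat := he
      exact hinj w hw w' hw' (by omega)

end Pool.Agent.K4H97.CE
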