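import Pool.Agent.K4H97.CE.Thr2
import Pool.Agent.W33.Coll.Main

set_option autoImplicit false

/-! The sharper upper bound for `1 - β(c)`, from the transfer principle of the starting files. -/

namespace Pool.Agent.K4H97.CE

open Filter Topology
open scoped ENNReal

theorem fast_iff {c : ℝ} (n : ℕ) : Pool.Agent.W33.Coll.Fast c n ↔ StopsBy (c * Real.log n) n := Iff.rfl

theorem bad_eq (c x : ℝ) : (Pool.Agent.W33.Coll.Bad Set.univ c 1 x).ncard = cnt c x := by
  unfold cnt Pool.Agent.W33.Coll.Bad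
  congr 1
  ext n
  constructor
  · rintro ⟨h1, h2, -, h4⟩
    exact ⟨h1, h2, h4 0 one_pos⟩
  · rintro ⟨h1, h2, h3⟩
    refine ⟨h1, h2, Set.mem_univ _, fun h hh => ?_⟩
    obtain rfl : h = 0 := by omega
    exact h3

/-- the upper bound for `1 - β` -/
theorem exp_sharp {c : ℝ} (hc : 2 / Real.log (4 / 3) < c) :
    1 - beta c ≤ (c - 2 / Real.log (4 / 3)) * ((L - ENNReal.ofReal (2 / Real.log (4 / 3)))⁻¹).toReal := by
  set μ : ℝ := 2 / Real.log (4 / 3) with hμ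
  have hμ0 : 0 < μ := mu_pos
  have hN : ∀ x : ℝ, 0 ≤ x → (cnt c x : ℝ) ≤ x := fun x hx => cnt_le hx
  have hβ : beta c = expo (cnt c) := rfl
  have hi : 0 ≤ ((L - ENNReal.ofReal μ)⁻¹).toReal := ENNReal.toReal_nonneg
  have hcμ : 0 < c - μ := by linarith
  by_contra hcon
  push Not at hcon
  obtain ⟨δ, hδ1, hδ2⟩ := exists_between hcon
  have hδ0 : 0 < δ := lt_of_le_of_lt (by positivity) hδ1
  have hβ0 := beta_nonneg c
  have hδ3 : δ ≤ 1 := by linarith
  have hev : ∀ᶠ x : ℝ in atTop, (cnt c x : ℝ) ≤ x ^ (1 - δ) := expo_lt hN (by rw [← hβ]; linarith)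
  obtain ⟨X, hX⟩ := eventually_atTop.1 hev
  have key : ∀ ε : ℝ, 0 < ε → L ≤ ENNReal.ofReal (μ + (c - μ) / δ + ε) := by
    intro ε hε
    obtain ⟨N₁, hN₁⟩ := Pool.Agent.W33.Coll.transfer (R := Set.univ) (H := 1)
      (fun _ _ => ⟨fun _ => Set.mem_univ _, fun _ => Set.mem_univ _⟩) hc hδ0 hδ3 hε
      ⟨X, fun x hx => by rw [bad_eq]; exact hX x hx⟩
    apply limsup_le_of_le (by isBoundedDefault)
    filter_upwards [eventually_ge_atTop N₁, eventually_ge_atTop 2] with n hn hn2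
    have hq : 0 ≤ μ + (c - μ) / δ + ε := by positivity
    exact (ratio_le_iff hn2 hq).2 (hN₁ n hn (Set.mem_univ _))
  have hLt : L ≠ ⊤ := ne_top_of_le_ne_top ENNReal.ofReal_ne_top (key 1 one_pos)
  set ℓ : ℝ := L.toReal with hℓ
  have hLe : L = ENNReal.ofReal ℓ := (ENNReal.ofReal_toReal hLt).symm
  have hℓ0 : 0 ≤ ℓ := ENNReal.toReal_nonneg
  have h43 : μ < 41 := by
    have h1 : (1 / 4 : ℝ) ≤ Real.log (4 / 3) := by
      have h2 := Real.one_sub_inv_le_log_of_pos (show (0 : ℝ) < 4 / 3 by norm_num)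
      norm_num at h2 ⊢
      exact h2
    rw [hμ, div_lt_iff₀ (by linarith)]
    linarith
  have hℓ1 : 41 < ℓ := by
    have h1 : ENNReal.ofReal 41 < ENNReal.ofReal ℓ := by
      rw [← hLe]
      refine lt_trans ?_ L_gt
      rw [ENNReal.ofReal_lt_ofReal_iff (by norm_num)]
      norm_num
    exact (ENNReal.ofReal_lt_ofReal_iff_of_nonneg (by norm_num)).1 h1
  have hd : 0 < ℓ - μ := by linarith
  have h1 : ℓ ≤ μ + (c - μ) / δ := by
    apply le_of_forall_pos_le_add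
    intro ε hε
    have h2 := key ε hε
    rw [hLe] at h2
    exact (ENNReal.ofReal_le_ofReal_iff (by positivity)).1 h2
  have h2 : ((L - ENNReal.ofReal μ)⁻¹).toReal = (ℓ - μ)⁻¹ := by
    rw [hLe, ← ENNReal.ofReal_sub _ hμ0.le, ENNReal.toReal_inv, ENNReal.toReal_ofReal hd.le]
  rw [h2, ← div_eq_mul_inv, div_lt_iff₀ hd] at hδ1
  have h3 : ℓ - μ ≤ (c - μ) / δ := by linarith
  rw [le_div_iff₀ hδ0] at h3
  linarith

end Pool.Agent.K4H97.CE
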