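import Pool.Agent.K4H97.CE.MainB
import Pool.Agent.K4H97.CE.Sharp

set_option autoImplicit false

/-! Sufficient sets: the sharp inequality. -/

namespace Pool.Agent.K4H97.CE

open Filter Topology
open scoped ENNReal

/-- the predecessor of a slow number is slower -/
theorem not_stops_add {t : ℝ} (ht : 1 ≤ t) {b z s : ℕ} (hs : T^[s] z = b) (h : ¬ StopsBy t b) :
    ¬ StopsBy (t + s) z := by
  rintro ⟨k, hk, hk1⟩
  rcases le_or_gt s k with h1 | h1
  · obtain ⟨d, rfl⟩ := Nat.exists_eq_add_of_le h1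
    rw [add_comm, Function.iterate_add_apply, hs] at hk1
    apply h
    refine ⟨d, ?_, hk1⟩
    push_cast at hk
    linarith
  · obtain ⟨d, rfl⟩ := Nat.exists_eq_add_of_le h1.le
    rw [add_comm, Function.iterate_add_apply, hk1] at hs
    apply h
    rcases iter_one d with h2 | h2
    · exact ⟨0, by push_cast; linarith, by rw [← hs, h2]; rfl⟩
    · exact ⟨1, by push_cast; linarith, by rw [← hs, h2]; rfl⟩

theorem exists_params {η K l q μ l₁ : ℝ} (hη : 0 < η) (hK : 1 ≤ K) (hl₁ : 0 < l₁)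
    (hμ : μ = 2 / l₁) (hμl : μ < l) (hql : K * q < η * l + (K - η) * μ) :
    ∃ σ η' : ℝ, 1 / η < σ ∧ 0 < η' ∧ η' < l₁ ∧ η' < 2 ∧
      0 < ((l₁ - η') / (l₁ + η') - 1 + η) * σ - (l₁ - η') / (l₁ + η') ∧
      0 < ((l₁ - η') / (l₁ + η') - 1 + η) ∧
      max (q - (2 - η') / (l₁ + η')) 0 * (K * σ) < l - (2 - η') / (l₁ + η') := by
  have hK0 : 0 < K := by linarith
  -- `σ`
  have h0 : max (q - μ) 0 * (K * (1 / η)) < l - μ := by
    rcases le_total (q - μ) 0 with h | h
    · rw [max_eq_right h, zero_mul]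
      linarith
    · rw [max_eq_left h, mul_one_div, ← mul_div_assoc, div_lt_iff₀ hη]
      linarith
  obtain ⟨σ, hσ1, hσ2⟩ : ∃ σ : ℝ, 1 / η < σ ∧ max (q - μ) 0 * (K * σ) < l - μ := by
    have hc : Continuous fun σ : ℝ => max (q - μ) 0 * (K * σ) := by fun_prop
    have h1 : Tendsto (fun σ : ℝ => max (q - μ) 0 * (K * σ)) (𝓝[>] (1 / η)) (𝓝 (max (q - μ) 0 * (K * (1 / η)))) :=
      (hc.tendsto _).mono_left nhdsWithin_le_nhds
    obtain ⟨σ, h2, h3⟩ := ((h1.eventually (gt_mem_nhds h0)).and self_mem_nhdsWithin).exists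
    exact ⟨σ, h3, h2⟩
  have hησ : 1 < η * σ := by
    rw [div_lt_iff₀ hη] at hσ1
    linarith
  -- `η'`
  have hρ : Tendsto (fun e : ℝ => (l₁ - e) / (l₁ + e)) (𝓝[>] 0) (𝓝 1) := by
    have h1 : ContinuousAt (fun e : ℝ => (l₁ - e) / (l₁ + e)) 0 := by
      apply ContinuousAt.div (by fun_prop) (by fun_prop)
      simp only [add_zero]
      exact hl₁.ne'
    have h2 := h1.tendsto.mono_left (nhdsWithin_le_nhds (s := Set.Ioi 0))
    simpa [div_self hl₁.ne'] using h2
  have hμ' : Tendsto (fun e : ℝ => (2 - e) / (l₁ + e)) (𝓝[>] 0) (𝓝 μ) := by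
    have h1 : ContinuousAt (fun e : ℝ => (2 - e) / (l₁ + e)) 0 := by
      apply ContinuousAt.div (by fun_prop) (by fun_prop)
      simp only [add_zero]
      exact hl₁.ne'
    have h2 := h1.tendsto.mono_left (nhdsWithin_le_nhds (s := Set.Ioi 0))
    rw [hμ]
    simpa using h2
  have t1 : Tendsto (fun e : ℝ => ((l₁ - e) / (l₁ + e) - 1 + η) * σ - (l₁ - e) / (l₁ + e)) (𝓝[>] 0)
      (𝓝 ((1 - 1 + η) * σ - 1)) := (((hρ.sub_const 1).add_const η).mul_const σ).sub hρ
  have t2 : Tendsto (fun e : ℝ => ((l₁ - e) / (l₁ + e) - 1 + η)) (𝓝[>] 0) (𝓝 (1 - 1 + η)) :=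
    (hρ.sub_const 1).add_const η
  have t3 : Tendsto (fun e : ℝ => (l - (2 - e) / (l₁ + e)) - max (q - (2 - e) / (l₁ + e)) 0 * (K * σ)) (𝓝[>] 0)
      (𝓝 ((l - μ) - max (q - μ) 0 * (K * σ))) :=
    (hμ'.const_sub l).sub (((hμ'.const_sub q).max tendsto_const_nhds).mul_const (K * σ))
  have e1 := t1.eventually (lt_mem_nhds (show 0 < (1 - 1 + η) * σ - 1 by linarith))
  have e2 := t2.eventually (lt_mem_nhds (show 0 < (1 - 1 + η) by linarith))
  have e3 := t3.eventually (lt_mem_nhds (show 0 < (l - μ) - max (q - μ) 0 * (K * σ) by linarith))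
  have e4 : ∀ᶠ e : ℝ in 𝓝[>] 0, 0 < e ∧ e < min l₁ 2 := by
    filter_upwards [Ioo_mem_nhdsGT (show (0 : ℝ) < min l₁ 2 from lt_min hl₁ (by norm_num))] with e he
    exact he
  obtain ⟨e, h1, h2, h3, h4, h5⟩ := (e1.and (e2.and (e3.and e4))).exists
  exact ⟨σ, e, hσ1, h4, h5.trans_le (min_le_left _ _), h5.trans_le (min_le_right _ _), h1, h2, by linarith⟩

theorem real_sharp {S : Set ℕ} {R : ℕ} {η K l q : ℝ} (hη : 0 < η) (hη1 : η ≤ 1) (hK : 1 ≤ K)
    (hl : 2 / Real.log (4 / 3) < l) (hq : 0 < q) (hql : K * q < η * l + (K - η) * (2 / Real.log (4 / 3)))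
    (hf : ∃ᶠ n : ℕ in atTop, ¬ StopsBy (l * Real.log n) n)
    (hS : ∃ N : ℕ, ∀ n ∈ S, N ≤ n → StopsBy (q * Real.log n) n)
    (hm : ∀ᶠ y : ℝ in atTop, ∃ x : ℝ, y ≤ x ∧ x ≤ y ^ K ∧ (missed S R x : ℝ) ≤ x ^ (1 - η)) : False := by
  classical
  set l₁ : ℝ := Real.log (4 / 3) with hl₁
  have hl₁0 : 0 < l₁ := Real.log_pos (by norm_num)
  have hl0 : 0 < l := mu_pos.trans hl
  obtain ⟨σ, e, hσ1, he0, hel, he2, hA, hB, hC⟩ := exists_params hη hK hl₁0 rfl hl hql
  set ρ : ℝ := (l₁ - e) / (l₁ + e) with hρ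
  set μ' : ℝ := (2 - e) / (l₁ + e) with hμ'
  have hρ0 : 0 < ρ := div_pos (by linarith) (by linarith)
  have hρ1 : ρ ≤ 1 := by rw [hρ, div_le_one (by linarith)]; linarith
  have hμ'0 : 0 < μ' := div_pos (by linarith) (by linarith)
  have hσ : 1 < σ := by
    have : 1 ≤ 1 / η := by rw [le_div_iff₀ hη]; linarith
    linarith
  have hσ0 : 0 < σ := by linarith
  obtain ⟨K₀, N₀, hK₀, hkey⟩ := Pool.Agent.W33.Coll.key (R + 1) he0
  have hK₀0 : 0 < K₀ := by linarith
  have hlogK₀ : 0 ≤ Real.log K₀ := Real.log_nonneg hK₀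
  obtain ⟨N, hN⟩ := hS
  obtain ⟨y₀, hy₀⟩ := eventually_atTop.1 hm
  have hl2 : 0 < Real.log 2 := Real.log_pos (by norm_num)
  have hllog : 1 < l * Real.log 2 := mu_log hl
  set K₁ : ℝ := l * Real.log 2 + 1 with hK₁
  -- the largeness conditions
  have hd1 : 0 < (ρ - 1 + η) * σ - ρ := hA
  have hd3 : 0 < l - μ' - max (q - μ') 0 * (K * σ) := by linarith
  have hev : ∀ᶠ t : ℝ in atTop, (1 ≤ t) ∧ y₀ ≤ Real.exp (σ * ((t + K₁) / l)) ∧
      ((N₀ : ℝ) + 1) * (l₁ + e) + Real.log K₀ ≤ (σ - 1) * ((t + K₁) / l) ∧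
      (ρ * Real.log K₀ + l₁ + Real.log K₀ + Real.log (N + 2)) < ((ρ - 1 + η) * σ - ρ) * ((t + K₁) / l) ∧
      (K₁ + μ' * Real.log K₀ + 2) < (l - μ' - max (q - μ') 0 * (K * σ)) * ((t + K₁) / l) := by
    have tA : Tendsto (fun t : ℝ => (t + K₁) / l) atTop atTop :=
      (tendsto_atTop_add_const_right _ _ tendsto_id).atTop_div_const hl0
    have g1 := Real.tendsto_exp_atTop.comp (tA.const_mul_atTop hσ0) |>.eventually_ge_atTop y₀
    have g2 := (tA.const_mul_atTop (show 0 < σ - 1 by linarith)).eventually_ge_atTop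
      (((N₀ : ℝ) + 1) * (l₁ + e) + Real.log K₀)
    have g3 := (tA.const_mul_atTop hd1).eventually_gt_atTop
      (ρ * Real.log K₀ + l₁ + Real.log K₀ + Real.log (N + 2))
    have g4 := (tA.const_mul_atTop hd3).eventually_gt_atTop (K₁ + μ' * Real.log K₀ + 2)
    filter_upwards [eventually_ge_atTop 1, g1, g2, g3, g4] with t h1 h2 h3 h4 h5
    exact ⟨h1, h2, h3, h4, h5⟩
  obtain ⟨t₀, ht₀⟩ := eventually_atTop.1 hev
  -- the slow number
  have hpos : 0 < l - 1 / Real.log 2 := by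
    rw [sub_pos, div_lt_iff₀ hl2]
    exact hllog
  have htend : Tendsto (fun n : ℕ => (l - 1 / Real.log 2) * Real.log n - 1) atTop atTop := by
    apply tendsto_atTop_add_const_right
    exact (Real.tendsto_log_atTop.comp tendsto_natCast_atTop_atTop).const_mul_atTop hpos
  obtain ⟨n₁, hn1, hn2, hn3⟩ := (hf.and_eventually ((htend.eventually_ge_atTop t₀).and
    (eventually_ge_atTop 2))).exists
  obtain ⟨b, t, hb0, hb3, hst, ht1, ht2⟩ := reduce hllog hn3 hn1
  obtain ⟨c1, c2, c3, c4, c5⟩ := ht₀ t (hn2.trans ht2)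
  have hbR : (0 : ℝ) < b := by exact_mod_cast hb0
  have hb1 : (1 : ℝ) ≤ b := by exact_mod_cast hb0
  set A : ℝ := (t + K₁) / l with hAdef
  have hAt : l * A = t + K₁ := by rw [hAdef]; field_simp
  have hlb : Real.log b ≤ A := by
    rw [hAdef, le_div_iff₀ hl0]
    linarith
  have hA0 : 0 ≤ A := (Real.log_nonneg hb1).trans hlb
  obtain ⟨x, hx1, hx2, hx3⟩ := hy₀ (Real.exp (σ * A)) c2
  have hx0 : 0 < x := lt_of_lt_of_le (Real.exp_pos _) hx1
  have hlx1 : σ * A ≤ Real.log x := by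
    rw [← Real.log_exp (σ * A)]
    exact Real.log_le_log (Real.exp_pos _) hx1
  have hlx2 : Real.log x ≤ K * σ * A := by
    have h1 := Real.log_le_log hx0 hx2
    rw [Real.log_rpow (Real.exp_pos _), Real.log_exp] at h1
    linarith
  have hlx0 : 0 ≤ Real.log x := le_trans (by positivity) hlx1
  -- the number of odd steps
  set D : ℝ := Real.log x - A - Real.log K₀ with hD
  have hle0 : 0 < l₁ + e := by linarith
  have hDN : ((N₀ : ℝ) + 1) * (l₁ + e) ≤ D := by
    rw [hD]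
    have : (σ - 1) * A = σ * A - A := by ring
    linarith
  have hD0 : 0 ≤ D := le_trans (by positivity) hDN
  set M : ℕ := ⌊D / (l₁ + e)⌋₊ with hM
  have hM1 : (M : ℝ) * (l₁ + e) ≤ D := by
    have := Nat.floor_le (show 0 ≤ D / (l₁ + e) by positivity)
    rwa [le_div_iff₀ hle0] at this
  have hM2 : D < ((M : ℝ) + 1) * (l₁ + e) := by
    have := Nat.lt_floor_add_one (D / (l₁ + e))
    rwa [div_lt_iff₀ hle0] at this
  have hMN : N₀ ≤ M := by
    apply Nat.le_floor
    rw [le_div_iff₀ hle0]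
    linarith
  obtain ⟨G, hG1, hG2⟩ := hkey M hMN b hb0 hb3
  -- the windows are below `x`
  have hbx : K₀ * b * Real.exp ((l₁ + e) * M) ≤ x := by
    have h1 : Real.exp ((l₁ + e) * M) ≤ Real.exp D := Real.exp_le_exp.2 (by linarith)
    have h2 : (b : ℝ) ≤ Real.exp A := by
      rw [← Real.exp_log hbR]
      exact Real.exp_le_exp.2 hlb
    calc K₀ * b * Real.exp ((l₁ + e) * M) ≤ K₀ * Real.exp A * Real.exp D := by gcongr
      _ = x := by
          rw [hD]
          nth_rewrite 1 [← Real.exp_log hK₀0]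
          rw [← Real.exp_add, ← Real.exp_add]
          have : Real.log K₀ + A + (Real.log x - A - Real.log K₀) = Real.log x := by ring
          rw [this, Real.exp_log hx0]
  -- many windows
  have hρM : ρ * D - l₁ ≤ (l₁ - e) * M := by
    have h1 : ρ * D ≤ ρ * (((M : ℝ) + 1) * (l₁ + e)) := mul_le_mul_of_nonneg_left hM2.le hρ0.le
    have h2 : ρ * (((M : ℝ) + 1) * (l₁ + e)) = (l₁ - e) * (M + 1) := by
      rw [hρ]
      field_simp
    rw [h2] at h1
    linarith
  have hGbig : (N + 2 : ℝ) * x ^ (1 - η) < G.card := by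
    refine lt_of_lt_of_le ?_ hG1
    rw [lt_div_iff₀ hK₀0]
    have hN2 : (0 : ℝ) < N + 2 := by positivity
    have e1 : (N + 2 : ℝ) * x ^ (1 - η) * K₀ =
        Real.exp (Real.log (N + 2) + Real.log x * (1 - η) + Real.log K₀) := by
      rw [Real.exp_add, Real.exp_add, Real.exp_log hN2, Real.exp_log hK₀0, Real.rpow_def_of_pos hx0]
    rw [e1]
    apply Real.exp_lt_exp.2
    refine lt_of_lt_of_le ?_ hρM
    have h1 : ((ρ - 1 + η) * σ - ρ) * A ≤ (ρ - 1 + η) * Real.log x - ρ * A := by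
      have := mul_le_mul_of_nonneg_left hlx1 hB.le
      have e2 : ((ρ - 1 + η) * σ - ρ) * A = (ρ - 1 + η) * (σ * A) - ρ * A := by ring
      rw [e2]
      linarith
    rw [hD]
    have e3 : ρ * (Real.log x - A - Real.log K₀) = ρ * Real.log x - ρ * A - ρ * Real.log K₀ := by ring
    rw [e3]
    linarith
  -- a window meeting `S`, beyond `N`
  obtain ⟨n, hnG, hnN, h, hhR, hhS⟩ : ∃ n ∈ G, N ≤ n ∧ ∃ h ≤ R, n + h ∈ S := by
    by_contra hcon
    push Not at hcon
    have hsub : (G : Set ℕ) ⊆ ((Finset.range N : Finset ℕ) : Set ℕ) ∪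
        {m : ℕ | 1 ≤ m ∧ (m : ℝ) ≤ x ∧ ∀ h ≤ R, m + h ∉ S} := by
      intro n hn
      by_cases hnN : N ≤ n
      · right
        obtain ⟨g1, g2, -⟩ := hG2 n hn
        exact ⟨g1, g2.trans hbx, hcon n hn hnN⟩
      · left
        rw [Finset.coe_range, Set.mem_Iio]
        omega
    have h1 := (Set.ncard_le_ncard hsub ((Finset.finite_toSet _).union (below_finite x _))).trans
      (Set.ncard_union_le _ _)
    rw [Set.ncard_coe_finset, Set.ncard_coe_finset, Finset.card_range] at h1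
    have h2 : (G.card : ℝ) ≤ N + missed S R x := by
      unfold missed
      exact_mod_cast h1
    have hx1' : 1 ≤ x := by
      have h3 : Real.exp 0 ≤ Real.exp (σ * A) := Real.exp_le_exp.2 (by positivity)
      rw [Real.exp_zero] at h3
      linarith
    have h3 : 1 ≤ x ^ (1 - η) := Real.one_le_rpow hx1' (by linarith)
    have h4 : (N : ℝ) ≤ N * x ^ (1 - η) := by
      have : (0 : ℝ) ≤ N := Nat.cast_nonneg N
      nlinarith
    have e5 : (N + 2 : ℝ) * x ^ (1 - η) = N * x ^ (1 - η) + 2 * x ^ (1 - η) := by ring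
    rw [e5] at hGbig
    linarith
  obtain ⟨g1, -, -, g3⟩ := hG2 n hnG
  obtain ⟨g4, s, hs1, hs2⟩ := g3 h (by omega)
  have hs3 : T^[s] (n + h) = b := hs2
  have hbad := not_stops_add c1 hs3 hst
  have hz0 : (0 : ℝ) < ((n + h : ℕ) : ℝ) := by
    have : 0 < n + h := by omega
    exact_mod_cast this
  have hlz : Real.log ((n + h : ℕ) : ℝ) ≤ Real.log x := Real.log_le_log hz0 (g4.trans hbx)
  have hlt : t + s < q * Real.log x := by
    by_contra hcon
    push Not at hcon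
    apply hbad
    refine (hN (n + h) hhS (by omega)).mono ?_
    refine le_trans ?_ hcon
    exact mul_le_mul_of_nonneg_left hlz hq.le
  have hμM : μ' * D - 2 ≤ (2 - e) * M := by
    have h1 : μ' * D ≤ μ' * (((M : ℝ) + 1) * (l₁ + e)) := mul_le_mul_of_nonneg_left hM2.le hμ'0.le
    have h2 : μ' * (((M : ℝ) + 1) * (l₁ + e)) = (2 - e) * (M + 1) := by
      rw [hμ']
      field_simp
    rw [h2] at h1
    linarith
  have hfin : (l - μ') * A - (K₁ + μ' * Real.log K₀ + 2) < (q - μ') * Real.log x := by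
    have h1 : μ' * D = μ' * Real.log x - μ' * A - μ' * Real.log K₀ := by rw [hD]; ring
    rw [h1] at hμM
    have h2 : (l - μ') * A = t + K₁ - μ' * A := by rw [sub_mul, hAt]
    rw [h2]
    linarith
  have h1 : (q - μ') * Real.log x ≤ max (q - μ') 0 * (K * σ) * A := by
    calc (q - μ') * Real.log x ≤ max (q - μ') 0 * Real.log x := mul_le_mul_of_nonneg_right (le_max_left _ _) hlx0
      _ ≤ max (q - μ') 0 * (K * σ * A) := mul_le_mul_of_nonneg_left hlx2 (le_max_right _ _)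
      _ = _ := by ring
  have e6 : (l - μ' - max (q - μ') 0 * (K * σ)) * A = (l - μ') * A - max (q - μ') 0 * (K * σ) * A := by ring
  rw [e6] at c5
  linarith

/-- the sharp inequality -/
theorem suff_sharp {S : Set ℕ} {R : ℕ} {η K : ℝ} (hη : 0 < η) (hη1 : η ≤ 1) (hK : 1 ≤ K)
    (hm : ∀ᶠ y : ℝ in atTop, ∃ x : ℝ, y ≤ x ∧ x ≤ y ^ K ∧ (missed S R x : ℝ) ≤ x ^ (1 - η)) :
    ENNReal.ofReal η * L + ENNReal.ofReal ((K - η) * (2 / Real.log (4 / 3))) ≤ ENNReal.ofReal K * LS S := by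
  set μ : ℝ := 2 / Real.log (4 / 3) with hμ
  have hμ0 : 0 < μ := mu_pos
  have h43 : μ < 41 := by
    have h1 : (1 / 4 : ℝ) ≤ Real.log (4 / 3) := by
      have h2 := Real.one_sub_inv_le_log_of_pos (show (0 : ℝ) < 4 / 3 by norm_num)
      norm_num at h2 ⊢
      exact h2
    rw [hμ, div_lt_iff₀ (by linarith)]
    linarith
  have hKη : 0 ≤ (K - η) * μ := mul_nonneg (by linarith) hμ0.le
  by_contra hcon
  push Not at hcon
  have hK0 : 0 < K := by linarith
  have hLS : LS S ≠ ⊤ := by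
    intro h
    rw [h, ENNReal.mul_top (by rw [Ne, ENNReal.ofReal_eq_zero]; linarith)] at hcon
    exact not_top_lt hcon
  set p : ℝ := (LS S).toReal with hp
  have hp0 : 0 ≤ p := ENNReal.toReal_nonneg
  have hpe : LS S = ENNReal.ofReal p := (ENNReal.ofReal_toReal hLS).symm
  have h1 : ENNReal.ofReal ((K * p - (K - η) * μ) / η) < L := by
    rw [hpe, ← ENNReal.ofReal_mul hK0.le] at hcon
    rw [ENNReal.ofReal_div_of_pos hη]
    apply ENNReal.div_lt_of_lt_mul'
    rw [ENNReal.ofReal_sub _ hKη]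
    by_cases hLt : L = ⊤
    · rw [hLt, ENNReal.mul_top (by rw [Ne, ENNReal.ofReal_eq_zero]; linarith)]
      exact lt_of_le_of_lt tsub_le_self ENNReal.ofReal_lt_top
    · have hLp : 0 < ENNReal.ofReal η * L := by
        apply ENNReal.mul_pos (by rw [Ne, ENNReal.ofReal_eq_zero]; linarith)
        exact (lt_of_le_of_lt (zero_le) L_gt).ne'
      rcases le_total (ENNReal.ofReal ((K - η) * μ)) (ENNReal.ofReal (K * p)) with h | h
      · exact ENNReal.sub_lt_of_lt_add h hcon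
      · rw [tsub_eq_zero_of_le h]
        exact hLp
  have h2 : ENNReal.ofReal (max ((K * p - (K - η) * μ) / η) 41) < L := by
    rcases le_total ((K * p - (K - η) * μ) / η) 41 with h | h
    · rw [max_eq_right h]
      refine lt_trans ?_ L_gt
      rw [ENNReal.ofReal_lt_ofReal_iff (by norm_num)]
      norm_num
    · rw [max_eq_left h]
      exact h1
  obtain ⟨r, hr1, hr2⟩ := ENNReal.lt_iff_exists_nnreal_btwn.1 h2
  set l : ℝ := (r : ℝ) with hl
  have hre : (r : ℝ≥0∞) = ENNReal.ofReal l := (ENNReal.ofReal_coe_nnreal).symm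
  rw [hre] at hr1 hr2
  have hl1 : max ((K * p - (K - η) * μ) / η) 41 < l := by
    exact (ENNReal.ofReal_lt_ofReal_iff_of_nonneg (by positivity)).1 hr1
  have hl2 : (K * p - (K - η) * μ) / η < l := (le_max_left _ _).trans_lt hl1
  have hl3 : 41 < l := (le_max_right _ _).trans_lt hl1
  have hl0 : 0 < l := by linarith
  rw [div_lt_iff₀ hη] at hl2
  set B : ℝ := (η * l + (K - η) * μ) / K with hB
  set q : ℝ := (p + B) / 2 with hq
  have hqp : p < B := by rw [hB, lt_div_iff₀ hK0]; linarith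
  have hq1 : p < q := by rw [hq]; linarith
  have hq2 : K * q < η * l + (K - η) * μ := by
    have : q < B := by rw [hq]; linarith
    rw [hB, lt_div_iff₀ hK0] at this
    linarith
  have hq0 : 0 < q := by linarith
  refine real_sharp hη hη1 hK (by linarith) hq0 hq2 (freq_of_lt hl0.le hr2) ?_ hm
  have h3 : LS S < ENNReal.ofReal q := by
    rw [hpe]
    exact (ENNReal.ofReal_lt_ofReal_iff hq0).2 hq1
  have h4 := eventually_lt_of_limsup_lt h3
  rw [eventually_inf_principal, eventually_atTop] at h4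
  obtain ⟨N, hN⟩ := h4
  refine ⟨max N 2, fun n hnS hn => ?_⟩
  exact (ratio_le_iff ((le_max_right _ _).trans hn) hq0.le).1 (hN n ((le_max_left _ _).trans hn) hnS).le

end Pool.Agent.K4H97.CE

namespace Pool.Agent.K4H97.CE

open Filter Topology
open scoped ENNReal

/-- sets with almost no missed windows -/
theorem full_of_missed {S : Set ℕ} (h : ∀ ε : ℝ, 0 < ε → ∃ R : ℕ, ∀ᶠ x : ℝ in atTop, (missed S R x : ℝ) ≤ x ^ ε) :
    LS S = L := by
  apply le_antisymm (LS_le S)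
  have key : ∀ η : ℝ, 0 < η → η < 1 → ENNReal.ofReal η * L ≤ LS S := by
    intro η hη hη1
    obtain ⟨R, hR⟩ := h (1 - η) (by linarith)
    have h1 := suff_sharp (S := S) (R := R) (K := 1) hη hη1.le le_rfl (by
      filter_upwards [hR] with y hy
      exact ⟨y, le_rfl, by rw [Real.rpow_one], hy⟩)
    rw [ENNReal.ofReal_one, one_mul] at h1
    exact le_trans le_self_add h1
  apply le_of_forall_lt
  intro b hb
  by_contra hcon
  push Not at hcon
  have h1 : Tendsto (fun η : ℝ => ENNReal.ofReal η * L) (𝓝[<] 1) (𝓝 (ENNReal.ofReal 1 * L)) := by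
    apply ENNReal.Tendsto.mul_const
    · exact (ENNReal.continuous_ofReal.tendsto 1).mono_left nhdsWithin_le_nhds
    · left
      rw [ENNReal.ofReal_one]
      exact one_ne_zero
  rw [ENNReal.ofReal_one, one_mul] at h1
  have h2 := h1.eventually (lt_mem_nhds hb)
  have h3 : ∀ᶠ η : ℝ in 𝓝[<] 1, 0 < η ∧ η < 1 := by
    filter_upwards [Ioo_mem_nhdsLT (show (0 : ℝ) < 1 by norm_num)] with η hη
    exact hη
  obtain ⟨η, hη1, hη2, hη3⟩ := (h2.and h3).exists
  have := key η hη2 hη3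
  exact absurd (lt_of_le_of_lt hcon (lt_of_lt_of_le hη1 this)) (lt_irrefl _)

end Pool.Agent.K4H97.CE
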