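import Pool.Agent.K4H97.CE.Path
import Pool.Agent.K4H97.CE.MainA

set_option autoImplicit false

/-! The threshold for descent theorems. -/

namespace Pool.Agent.K4H97.CE

open Filter Topology
open scoped ENNReal

/-- descent to `n^κ` after at most `c log n` steps -/
def Drops (κ c : ℝ) (n : ℕ) : Prop :=
  ∃ k : ℕ, (k : ℝ) ≤ c * Real.log n ∧ ((T^[k] n : ℕ) : ℝ) ≤ (n : ℝ) ^ κ

/-- the number of the `n ≤ x` without this descent -/
noncomputable def und (κ c x : ℝ) : ℕ := {n : ℕ | 1 ≤ n ∧ (n : ℝ) ≤ x ∧ ¬ Drops κ c n}.ncard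

/-- a value `≤ K` is reached after at most `l log n` steps -/
def Reach (K : ℕ) (l : ℝ) (n : ℕ) : Prop := ∃ k : ℕ, (k : ℝ) ≤ l * Real.log n ∧ T^[k] n ≤ K

theorem thr {κ c s l : ℝ} (hκ : 0 ≤ κ) (hκs : κ < s) (hs1 : s ≤ 1) (hc : 0 < c) (hl : 1 ≤ l * Real.log 2)
    (hcl : c < l * (s - κ)) (h : ∀ᶠ x : ℝ in atTop, (und κ c x : ℝ) ≤ x ^ (1 - s)) :
    ∃ K : ℕ, ∀ n : ℕ, 1 ≤ n → Reach K l n := by
  classical
  obtain ⟨c₁, Y₀, J, hc₁, hY₀, hlow⟩ := low_pred
  have hl2 : 0 < Real.log 2 := Real.log_pos (by norm_num)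
  have hl0 : 0 < l := by
    by_contra hcon
    push Not at hcon
    nlinarith
  -- the exponent `s'`
  obtain ⟨s', hs's, hκs', hcl'⟩ : ∃ s' : ℝ, s' < s ∧ κ < s' ∧ c < l * (s' - κ) := by
    have h1 : c / l < s - κ := by rw [div_lt_iff₀ hl0]; linarith
    have h2 : 0 < c / l := by positivity
    refine ⟨s - (s - κ - c / l) / 2, by linarith, by linarith, ?_⟩
    have h3 : c = l * (c / l) := by field_simp
    have h4 : c / l < s - (s - κ - c / l) / 2 - κ := by linarith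
    calc c = l * (c / l) := h3
      _ < _ := mul_lt_mul_of_pos_left h4 hl0
  have hs'0 : 0 < s' := lt_of_le_of_lt hκ hκs'
  have hs'1 : s' < 1 := by linarith
  set τ : ℝ := 1 / s' with hτ
  have hτ0 : 0 < τ := by positivity
  have hτs : τ * s' = 1 := by rw [hτ]; field_simp
  have hJ0 : (0 : ℝ) < 2 ^ J := by positivity
  -- the conditions on the size
  have e1 : 0 < τ - 1 := by
    have : τ * s' < τ * 1 := mul_lt_mul_of_pos_left hs'1 hτ0
    linarith
  have e2 : 0 < τ - 1 - τ * (1 - s) := by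
    have : τ * s' < τ * s := mul_lt_mul_of_pos_left hs's hτ0
    linarith
  have e3 : 0 < 1 - τ * κ := by
    have : τ * κ < τ * s' := mul_lt_mul_of_pos_left hκs' hτ0
    linarith
  have e4 : 0 < l - c * τ - l * (τ * κ) := by
    have h1 : τ * c < τ * (l * (s' - κ)) := mul_lt_mul_of_pos_left hcl' hτ0
    have h2 : τ * (l * (s' - κ)) = l * (τ * s') - l * (τ * κ) := by ring
    rw [h2, hτs] at h1
    linarith
  obtain ⟨X₀, hX₀⟩ := eventually_atTop.1 h
  obtain ⟨U₀, hU₀⟩ := eventually_atTop.1 (((tendsto_rpow_atTop hτ0).eventually_ge_atTop X₀).and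
    (((tendsto_rpow_atTop e1).eventually_ge_atTop (Y₀ * 2 ^ J)).and
    (((tendsto_rpow_atTop e2).eventually_gt_atTop (64 * 2 ^ J)).and
    (((tendsto_rpow_atTop e3).eventually_gt_atTop (max (1 / c₁) 2)).and
    (Real.tendsto_log_atTop.eventually_ge_atTop ((1 + l * Real.log 2) / (l - c * τ - l * (τ * κ))))))))
  by_contra hcon
  push Not at hcon
  set K : ℕ := ⌈max U₀ 1⌉₊ with hK
  have hex : ∃ n : ℕ, 1 ≤ n ∧ ¬ Reach K l n := hcon K
  obtain ⟨hb1, hbR⟩ := Nat.find_spec hex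
  have hmin : ∀ v : ℕ, v < Nat.find hex → 1 ≤ v → Reach K l v := by
    intro v hv hv1
    have h1 := Nat.find_min hex hv
    by_contra h2
    exact h1 ⟨hv1, h2⟩
  set b : ℕ := Nat.find hex with hb
  have hKb : K < b := by
    by_contra h1
    push Not at h1
    apply hbR
    refine ⟨0, ?_, h1⟩
    push_cast
    exact mul_nonneg hl0.le (Real.log_natCast_nonneg b)
  have hbodd : b % 2 = 1 := by
    by_contra h1
    obtain ⟨m, hm⟩ : ∃ m, b = 2 * m := ⟨b / 2, by omega⟩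
    have hm1 : 1 ≤ m := by omega
    obtain ⟨k, hk1, hk2⟩ := hmin m (by omega) hm1
    apply hbR
    have hTb : T b = m := by
      unfold T
      rw [if_pos (by omega)]
      omega
    refine ⟨k + 1, ?_, by rw [Function.iterate_succ_apply, hTb]; exact hk2⟩
    have hm0 : (0 : ℝ) < m := by exact_mod_cast hm1
    rw [hm]
    push_cast
    rw [Real.log_mul (by norm_num) hm0.ne']
    linarith
  set b₁ : ℕ := T b with hb₁
  have hb₁e : 2 * b₁ = 3 * b + 1 := by
    rw [hb₁]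
    unfold T
    rw [if_neg (by omega)]
    omega
  obtain ⟨b', hbb1, hbb2, hZ⟩ := hlow b₁ (by omega) (by omega)
  set u : ℝ := (b₁ : ℝ) with hu
  have hbR0 : (0 : ℝ) < b := by exact_mod_cast hb1
  have hbu : (b : ℝ) ≤ u := by
    have : b ≤ b₁ := by omega
    rw [hu]
    exact_mod_cast this
  have hub : u ≤ 2 * b := by
    have : b₁ ≤ 2 * b := by omega
    rw [hu]
    exact_mod_cast this
  have hu0 : 0 < u := by linarith
  have hUu : U₀ ≤ u := by
    have h1 : U₀ ≤ K := (le_max_left _ _).trans (Nat.le_ceil _)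
    have h2 : (K : ℝ) ≤ b := by exact_mod_cast hKb.le
    linarith
  have hu1 : 1 ≤ u := by
    have h1 : (1 : ℝ) ≤ b := by exact_mod_cast hb1
    linarith
  obtain ⟨p1, p2, p3, p4, p5⟩ := hU₀ u hUu
  have p4a : 1 / c₁ < u ^ (1 - τ * κ) := (le_max_left _ _).trans_lt p4
  have p4b : 2 < u ^ (1 - τ * κ) := (le_max_right _ _).trans_lt p4
  set X : ℝ := u ^ τ with hX
  have hX0 : 0 < X := Real.rpow_pos_of_pos hu0 _
  have hlogX : Real.log X = τ * Real.log u := Real.log_rpow hu0 τ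
  have hXκ : X ^ κ = u ^ (τ * κ) := by rw [hX, ← Real.rpow_mul hu0.le]
  have hb'0 : (0 : ℝ) < b' := by
    have : 0 < b' := by
      rcases Nat.eq_zero_or_pos b' with h0 | h0
      · rw [h0, Nat.mul_zero] at hbb1
        omega
      · exact h0
    exact_mod_cast this
  have hb'u : (b' : ℝ) ≤ 2 ^ J * u := by
    rw [hu]
    exact_mod_cast hbb2
  set Y : ℝ := X / b' with hY
  have hYX : Y * b' = X := by rw [hY]; field_simp
  have hYl : u ^ (τ - 1) / 2 ^ J ≤ Y := by
    rw [Real.rpow_sub hu0, Real.rpow_one, ← hX, hY, div_div, mul_comm u]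
    exact div_le_div_of_nonneg_left hX0.le hb'0 hb'u
  have hYY : Y₀ ≤ Y := by
    refine le_trans ?_ hYl
    rw [le_div_iff₀ hJ0]
    exact p2
  obtain ⟨Z, hZ1, hZ2⟩ := hZ Y hYY
  -- a predecessor with descent
  obtain ⟨z, hzZ, hzD⟩ : ∃ z ∈ Z, Drops κ c z := by
    by_contra hno
    push Not at hno
    have h1 : Z.card ≤ und κ c X := by
      have hsub : (Z : Set ℕ) ⊆ {n : ℕ | 1 ≤ n ∧ (n : ℝ) ≤ X ∧ ¬ Drops κ c n} := by
        intro z hz
        obtain ⟨g1, g2, -⟩ := hZ1 z hz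
        rw [hYX] at g2
        exact ⟨g1, g2, hno z hz⟩
      have h2 := Set.ncard_le_ncard hsub (below_finite X _)
      rwa [Set.ncard_coe_finset] at h2
    have h2 : (Z.card : ℝ) ≤ X ^ (1 - s) := le_trans (by exact_mod_cast h1) (hX₀ X p1)
    have h3 : X ^ (1 - s) = u ^ (τ * (1 - s)) := by rw [hX, ← Real.rpow_mul hu0.le]
    have h4 : u ^ (τ - 1) = u ^ (τ * (1 - s)) * u ^ (τ - 1 - τ * (1 - s)) := by
      rw [← Real.rpow_add hu0]
      congr 1
      ring
    have h5 : 0 < u ^ (τ * (1 - s)) := Real.rpow_pos_of_pos hu0 _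
    have h6 : u ^ (τ * (1 - s)) * (64 * 2 ^ J) < u ^ (τ - 1) := by
      rw [h4]
      exact mul_lt_mul_of_pos_left p3 h5
    have h7 : u ^ (τ * (1 - s)) < Y / 64 := by
      rw [lt_div_iff₀ (by norm_num)]
      refine lt_of_lt_of_le ?_ hYl
      rw [lt_div_iff₀ hJ0]
      linarith
    linarith
  obtain ⟨hz1, hz2, k, hk, hpath⟩ := hZ1 z hzZ
  rw [hYX] at hz2
  obtain ⟨m, hm1, hm2⟩ := hzD
  have hz0 : (0 : ℝ) < z := by exact_mod_cast hz1
  have hlogz : Real.log z ≤ τ * Real.log u := by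
    rw [← hlogX]
    exact Real.log_le_log hz0 hz2
  have hv : ((T^[m] z : ℕ) : ℝ) ≤ u ^ (τ * κ) := by
    rw [← hXκ]
    exact hm2.trans (Real.rpow_le_rpow hz0.le hz2 hκ)
  have hsplit : u ^ (τ * κ) * u ^ (1 - τ * κ) = u := by
    rw [← Real.rpow_add hu0]
    have : τ * κ + (1 - τ * κ) = 1 := by ring
    rw [this, Real.rpow_one]
  have hq0 : 0 < u ^ (τ * κ) := Real.rpow_pos_of_pos hu0 _
  have hkm : k < m := by
    by_contra hmk
    push Not at hmk
    have h1 := (hpath m hmk).trans hv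
    have h2 : u ^ (τ * κ) * (1 / c₁) < u := by
      have h3 := mul_lt_mul_of_pos_left p4a hq0
      rwa [hsplit] at h3
    rw [mul_one_div, div_lt_iff₀ hc₁] at h2
    linarith
  obtain ⟨d, rfl⟩ : ∃ d, m = d + k := ⟨m - k, by omega⟩
  rw [Function.iterate_add_apply, hk] at hv
  set v : ℕ := T^[d] b₁ with hvdef
  have hv1 : 1 ≤ v := iter_pos (by omega) d
  have hv0 : (0 : ℝ) < v := by exact_mod_cast hv1
  have hvb : v < b := by
    have h1 : u ^ (τ * κ) * 2 < u := by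
      have h2 := mul_lt_mul_of_pos_left p4b hq0
      rwa [hsplit] at h2
    have h2 : (v : ℝ) < b := by linarith
    exact_mod_cast h2
  obtain ⟨i, hi1, hi2⟩ := hmin v hvb hv1
  apply hbR
  refine ⟨i + (d + 1), ?_, by rw [Function.iterate_add_apply, Function.iterate_succ_apply, ← hb₁, ← hvdef]; exact hi2⟩
  have hlogv : Real.log v ≤ τ * κ * Real.log u := by
    rw [← Real.log_rpow hu0]
    exact Real.log_le_log hv0 hv
  have hlogb : Real.log u ≤ Real.log 2 + Real.log b := by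
    rw [← Real.log_mul (by norm_num) hbR0.ne']
    exact Real.log_le_log hu0 hub
  rw [div_le_iff₀ e4] at p5
  push_cast at hm1 ⊢
  have hk0 : (0 : ℝ) ≤ k := Nat.cast_nonneg k
  have h1 : c * Real.log z ≤ c * (τ * Real.log u) := mul_le_mul_of_nonneg_left hlogz hc.le
  have h2 : l * Real.log v ≤ l * (τ * κ * Real.log u) := mul_le_mul_of_nonneg_left hlogv hl0.le
  have h3 : l * Real.log u ≤ l * (Real.log 2 + Real.log b) := mul_le_mul_of_nonneg_left hlogb hl0.le
  linarith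

end Pool.Agent.K4H97.CE
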