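import Pool.Agent.K4H97.CE.Thr

set_option autoImplicit false

/-! Exponents of the exceptional sets of the descent theorems, and the constant `Λ`. -/

namespace Pool.Agent.K4H97.CE

open Filter Topology
open scoped ENNReal

/-- exponent of a counting function -/
noncomputable def expo (N : ℝ → ℕ) : ℝ := limsup (fun x : ℝ => Real.log (N x) / Real.log x) atTop

section expo

variable {N : ℝ → ℕ}

theorem e_nonneg (N : ℝ → ℕ) : ∀ᶠ x : ℝ in atTop, 0 ≤ Real.log (N x) / Real.log x := by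
  filter_upwards [eventually_ge_atTop 1] with x hx
  exact div_nonneg (Real.log_natCast_nonneg _) (Real.log_nonneg hx)

theorem e_le_of {q x : ℝ} (hq : 0 ≤ q) (hx : 1 < x) (h : (N x : ℝ) ≤ x ^ q) :
    Real.log (N x) / Real.log x ≤ q := by
  have hx0 : 0 < x := by linarith
  have hlog : 0 < Real.log x := Real.log_pos hx
  rw [div_le_iff₀ hlog]
  rcases Nat.eq_zero_or_pos (N x) with h0 | h0
  · rw [h0, Nat.cast_zero, Real.log_zero]
    positivity
  · rw [← Real.log_rpow hx0]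
    exact Real.log_le_log (by exact_mod_cast h0) h

theorem e_ge_of {q x : ℝ} (hx : 1 < x) (h : x ^ q ≤ (N x : ℝ)) :
    q ≤ Real.log (N x) / Real.log x := by
  have hx0 : 0 < x := by linarith
  have hlog : 0 < Real.log x := Real.log_pos hx
  rw [le_div_iff₀ hlog, ← Real.log_rpow hx0]
  exact Real.log_le_log (by positivity) h

theorem e_le_one (hN : ∀ x : ℝ, 0 ≤ x → (N x : ℝ) ≤ x) :
    ∀ᶠ x : ℝ in atTop, Real.log (N x) / Real.log x ≤ 1 := by
  filter_upwards [eventually_gt_atTop 1] with x hx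
  apply e_le_of (by norm_num) hx
  rw [Real.rpow_one]
  exact hN x (by linarith)

theorem e_bdd (hN : ∀ x : ℝ, 0 ≤ x → (N x : ℝ) ≤ x) :
    IsBoundedUnder (· ≤ ·) atTop (fun x : ℝ => Real.log (N x) / Real.log x) :=
  ⟨1, by simpa using e_le_one hN⟩

theorem e_cobdd (N : ℝ → ℕ) : IsCoboundedUnder (· ≤ ·) atTop (fun x : ℝ => Real.log (N x) / Real.log x) :=
  isCoboundedUnder_le_of_eventually_le atTop (e_nonneg N)

theorem expo_le {q : ℝ} (hq : 0 ≤ q) (h : ∀ ε : ℝ, 0 < ε → ∀ᶠ x : ℝ in atTop, (N x : ℝ) ≤ x ^ (q + ε)) :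
    expo N ≤ q := by
  apply le_of_forall_pos_le_add
  intro ε hε
  apply limsup_le_of_le (e_cobdd N)
  filter_upwards [h ε hε, eventually_gt_atTop 1] with x h1 h2
  exact e_le_of (by positivity) h2 h1

theorem le_expo (hN : ∀ x : ℝ, 0 ≤ x → (N x : ℝ) ≤ x) {q : ℝ}
    (h : ∀ ε : ℝ, 0 < ε → ∃ᶠ x : ℝ in atTop, x ^ (q - ε) ≤ (N x : ℝ)) : q ≤ expo N := by
  apply le_of_forall_pos_sub_le
  intro ε hε
  apply le_limsup_of_frequently_le _ (e_bdd hN)
  exact ((h ε hε).and_eventually (eventually_gt_atTop 1)).mono fun x hx => e_ge_of hx.2 hx.1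

theorem expo_nonneg (hN : ∀ x : ℝ, 0 ≤ x → (N x : ℝ) ≤ x) : 0 ≤ expo N := by
  apply le_limsup_of_frequently_le _ (e_bdd hN)
  exact (e_nonneg N).frequently

theorem expo_lt (hN : ∀ x : ℝ, 0 ≤ x → (N x : ℝ) ≤ x) {q : ℝ} (h : expo N < q) :
    ∀ᶠ x : ℝ in atTop, (N x : ℝ) ≤ x ^ q := by
  have h1 := eventually_lt_of_limsup_lt h (e_bdd hN)
  filter_upwards [h1, eventually_gt_atTop 1] with x hx hx1
  have hx0 : 0 < x := by linarith
  have hlog : 0 < Real.log x := Real.log_pos hx1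
  rcases Nat.eq_zero_or_pos (N x) with h0 | h0
  · rw [h0, Nat.cast_zero]
    positivity
  · have hN0 : (0 : ℝ) < N x := by exact_mod_cast h0
    rw [div_lt_iff₀ hlog, ← Real.log_rpow hx0] at hx
    exact ((Real.log_lt_log_iff hN0 (by positivity)).1 hx).le

end expo

theorem und_le (κ c : ℝ) (x : ℝ) (hx : 0 ≤ x) : (und κ c x : ℝ) ≤ x := by
  have h1 : und κ c x ≤ ⌊x⌋₊ := by
    have hsub : {n : ℕ | 1 ≤ n ∧ (n : ℝ) ≤ x ∧ ¬ Drops κ c n} ⊆
        ((Finset.Icc 1 ⌊x⌋₊ : Finset ℕ) : Set ℕ) := by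
      rintro n ⟨h1, h2, -⟩
      rw [Finset.coe_Icc, Set.mem_Icc]
      exact ⟨h1, Nat.le_floor h2⟩
    have := Set.ncard_le_ncard hsub (Finset.finite_toSet _)
    rwa [Set.ncard_coe_finset, Nat.card_Icc, Nat.add_sub_cancel] at this
  exact (by exact_mod_cast h1 : (und κ c x : ℝ) ≤ (⌊x⌋₊ : ℝ)).trans (Nat.floor_le hx)

/-- every `n` reaches a bounded set after at most `l log n` steps -/
def Bound (l : ℝ) : Prop := ∃ K : ℕ, ∀ n : ℕ, 1 ≤ n → Reach K l n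

theorem bound_mono {l l' : ℝ} (h : l ≤ l') (hb : Bound l) : Bound l' := by
  obtain ⟨K, hK⟩ := hb
  refine ⟨K, fun n hn => ?_⟩
  obtain ⟨k, h1, h2⟩ := hK n hn
  exact ⟨k, h1.trans (mul_le_mul_of_nonneg_right h (Real.log_natCast_nonneg n)), h2⟩

theorem bound_ge {l : ℝ} (hb : Bound l) : 1 ≤ l * Real.log 2 := by
  obtain ⟨K, hK⟩ := hb
  have hl2 : 0 < Real.log 2 := Real.log_pos (by norm_num)
  by_contra hcon
  push Not at hcon
  have hd : 0 < 1 - l * Real.log 2 := by linarith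
  obtain ⟨j, hj⟩ := exists_nat_gt (Real.log K / Real.log 2 / (1 - l * Real.log 2))
  obtain ⟨k, h1, h2⟩ := hK (2 ^ j) Nat.one_le_two_pow
  have h3 := (iter_ge (2 ^ j) k).trans (Nat.mul_le_mul_left _ h2)
  have hK0 : 0 < K := lt_of_lt_of_le (iter_pos (Nat.one_le_two_pow) k) h2
  have hKR : (0 : ℝ) < K := by exact_mod_cast hK0
  have h4 : (2 : ℝ) ^ j ≤ 2 ^ k * K := by exact_mod_cast h3
  have h5 := Real.log_le_log (by positivity) h4
  rw [Real.log_mul (by positivity) hKR.ne', Real.log_pow, Real.log_pow] at h5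
  push_cast at h1
  rw [Real.log_pow] at h1
  rw [div_lt_iff₀ hd, div_lt_iff₀ hl2] at hj
  have h6 : (k : ℝ) * Real.log 2 ≤ l * (j * Real.log 2) * Real.log 2 := mul_le_mul_of_nonneg_right h1 hl2.le
  nlinarith

/-- `Λ` -/
noncomputable def Lam : ℝ≥0∞ := sInf {t : ℝ≥0∞ | ∃ l : ℝ, t = ENNReal.ofReal l ∧ Bound l}

theorem Lam_le {l : ℝ} (h : Bound l) : Lam ≤ ENNReal.ofReal l := sInf_le ⟨l, rfl, h⟩

theorem of_Lam_lt {l : ℝ} (h : Lam < ENNReal.ofReal l) : Bound l := by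
  obtain ⟨t, ⟨l', rfl, hl'⟩, ht⟩ := sInf_lt_iff.1 h
  refine bound_mono ?_ hl'
  by_contra hcon
  push Not at hcon
  exact absurd ht (not_lt.2 (ENNReal.ofReal_le_ofReal hcon.le))

theorem one_le_Lam : 1 ≤ Lam := by
  apply le_sInf
  rintro t ⟨l, rfl, hl⟩
  have h1 := bound_ge hl
  have h2 : Real.log 2 < 1 := by
    have := Real.log_two_lt_d9
    linarith
  have hl2 : 0 < Real.log 2 := Real.log_pos (by norm_num)
  rw [ENNReal.one_le_ofReal]
  by_contra hcon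
  push Not at hcon
  nlinarith

/-- few steps: no descent -/
theorem no_drop {κ c : ℝ} (h : c * Real.log 2 < 1 - κ) {n : ℕ} (hn : 2 ≤ n) : ¬ Drops κ c n := by
  rintro ⟨k, h1, h2⟩
  have hn0 : (0 : ℝ) < n := by
    have : 0 < n := by omega
    exact_mod_cast this
  have hlog : 0 < Real.log n := Real.log_pos (by exact_mod_cast hn)
  have hl2 : 0 < Real.log 2 := Real.log_pos (by norm_num)
  have h3 : (n : ℝ) ≤ 2 ^ k * ((T^[k] n : ℕ) : ℝ) := by exact_mod_cast iter_ge n k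
  have h4 : (n : ℝ) ≤ 2 ^ k * (n : ℝ) ^ κ := h3.trans (mul_le_mul_of_nonneg_left h2 (by positivity))
  have h5 := Real.log_le_log hn0 h4
  rw [Real.log_mul (by positivity) (by positivity), Real.log_pow, Real.log_rpow hn0] at h5
  have h6 : (k : ℝ) * Real.log 2 ≤ c * Real.log n * Real.log 2 := mul_le_mul_of_nonneg_right h1 hl2.le
  nlinarith

theorem und_big {κ c : ℝ} (h : c * Real.log 2 < 1 - κ) {x : ℝ} (hx : 2 ≤ x) : x - 2 ≤ und κ c x := by
  have hsub : ((Finset.Icc 2 ⌊x⌋₊ : Finset ℕ) : Set ℕ) ⊆ {n : ℕ | 1 ≤ n ∧ (n : ℝ) ≤ x ∧ ¬ Drops κ c n} := by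
    intro n hn
    rw [Finset.coe_Icc, Set.mem_Icc] at hn
    refine ⟨by omega, ?_, no_drop h hn.1⟩
    exact (by exact_mod_cast hn.2 : (n : ℝ) ≤ (⌊x⌋₊ : ℝ)).trans (Nat.floor_le (by linarith))
  have h1 := Set.ncard_le_ncard hsub (below_finite x _)
  rw [Set.ncard_coe_finset, Nat.card_Icc] at h1
  have h2 := Nat.lt_floor_add_one x
  have h3 : (⌊x⌋₊ : ℝ) ≤ (und κ c x : ℝ) + 1 := by
    have : ⌊x⌋₊ ≤ und κ c x + 1 := by
      unfold und
      omega
    exact_mod_cast this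
  linarith

/-- the upper bound for `1 - β` -/
theorem thr_upper {κ c : ℝ} (hκ : 0 ≤ κ) (hc : 0 < c) : 1 - expo (und κ c) ≤ κ + c * (Lam⁻¹).toReal := by
  have hN := und_le κ c
  have hβ0 := expo_nonneg hN
  have hi : 0 ≤ (Lam⁻¹).toReal := ENNReal.toReal_nonneg
  by_contra hcon
  push Not at hcon
  obtain ⟨s, hs1, hs2⟩ := exists_between hcon
  have hκs : κ < s := by
    have : 0 ≤ c * (Lam⁻¹).toReal := by positivity
    linarith
  have hs0 : 0 < s := by linarith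
  have hs3 : s < 1 := by linarith
  have hev : ∀ᶠ x : ℝ in atTop, (und κ c x : ℝ) ≤ x ^ (1 - s) := expo_lt hN (by linarith)
  have hl2 : 0 < Real.log 2 := Real.log_pos (by norm_num)
  -- enough time
  have hc2 : 1 - κ ≤ c * Real.log 2 := by
    by_contra h1
    push Not at h1
    have h2 : ∀ᶠ x : ℝ in atTop, x ^ (1 - s) < x - 2 := by
      have h3 := (tendsto_rpow_atTop hs0).eventually_gt_atTop 3
      have h4 := (tendsto_rpow_atTop (show 0 < 1 - s by linarith)).eventually_gt_atTop 1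
      filter_upwards [h3, h4, eventually_ge_atTop 1] with x hx3 hx4 hx1
      have hx0 : 0 < x := by linarith
      have e : x = x ^ (1 - s) * x ^ s := by
        rw [← Real.rpow_add hx0]
        norm_num
      have : x ^ (1 - s) * 3 < x ^ (1 - s) * x ^ s := mul_lt_mul_of_pos_left hx3 (by linarith)
      rw [← e] at this
      linarith
    obtain ⟨x, hx1, hx2, hx3⟩ := (hev.and (h2.and (eventually_ge_atTop 2))).exists
    have := und_big h1 hx3
    linarith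
  have hsκ : 0 < s - κ := by linarith
  have hq : 1 < c / (s - κ) * Real.log 2 := by
    rw [div_mul_eq_mul_div, lt_div_iff₀ hsκ]
    linarith
  by_cases hL : Lam = ⊤
  · have h1 : Bound (c / (s - κ) + 1) := by
      apply thr hκ hκs hs3.le hc _ _ hev
      · nlinarith
      · have : (c / (s - κ) + 1) * (s - κ) = c + (s - κ) := by field_simp
        linarith
    have h2 := Lam_le h1
    rw [hL] at h2
    exact ENNReal.ofReal_ne_top (top_le_iff.1 h2)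
  · set ℓ : ℝ := Lam.toReal with hℓ
    have hLe : Lam = ENNReal.ofReal ℓ := (ENNReal.ofReal_toReal hL).symm
    have hℓ1 : 1 ≤ ℓ := by
      have := one_le_Lam
      rw [hLe, ENNReal.one_le_ofReal] at this
      exact this
    have hℓ0 : 0 < ℓ := by linarith
    rw [ENNReal.toReal_inv, ← hℓ] at hs1
    have h1 : c / (s - κ) < ℓ := by
      have h2 : c * ℓ⁻¹ < s - κ := by linarith
      rw [← div_eq_mul_inv, div_lt_iff₀ hℓ0] at h2
      rw [div_lt_iff₀ hsκ]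
      linarith
    obtain ⟨l, hl1, hl3⟩ := exists_between h1
    have h2 : Bound l := by
      apply thr hκ hκs hs3.le hc _ _ hev
      · have : c / (s - κ) * Real.log 2 < l * Real.log 2 := mul_lt_mul_of_pos_right hl1 hl2
        linarith
      · rw [div_lt_iff₀ hsκ] at hl1
        linarith
    have h3 := Lam_le h2
    rw [hLe, ENNReal.ofReal_le_ofReal_iff (by
      have : 0 < c / (s - κ) := by positivity
      linarith)] at h3
    linarith

/-- a bound for the exceptional set from `Law` -/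
theorem und_law {κ c B a θ : ℝ} (hθ : 0 < θ) (hθa : θ * a ≤ 1 / 2) (ha : 0 < a) (hlaw : Law B a)
    (himp : ∀ᶠ x : ℝ in atTop, ∀ n : ℕ, 1 ≤ n → x ^ (1 / 2 : ℝ) ≤ n → (n : ℝ) ≤ x →
      (∃ m : ℕ, ((T^[m] n : ℕ) : ℝ) ≤ x ^ θ ∧ (m : ℝ) ≤ B * Real.log n) → Drops κ c n) :
    expo (und κ c) ≤ 1 - θ * a := by
  obtain ⟨C, hC, h⟩ := hlaw
  apply expo_le (by linarith)
  intro ε hε
  have e1 : ∀ᶠ x : ℝ in atTop, 1 + C * Real.log x ^ 3 ≤ x ^ ε := by
    have h1 : (fun x : ℝ => Real.log x ^ (3 : ℝ)) =o[atTop] fun x => x ^ ε :=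
      isLittleO_log_rpow_rpow_atTop 3 hε
    have h2 := h1.bound (show 0 < 1 / (2 * C) by positivity)
    have h3 : ∀ᶠ x : ℝ in atTop, 2 ≤ x ^ ε := (tendsto_rpow_atTop hε).eventually_ge_atTop 2
    filter_upwards [h2, h3, eventually_ge_atTop 1] with x hx1 hx2 hx3
    have hlog : 0 ≤ Real.log x := Real.log_nonneg hx3
    rw [Real.norm_eq_abs, Real.norm_eq_abs, abs_of_nonneg (by positivity), abs_of_nonneg (by positivity)] at hx1
    have e : Real.log x ^ (3 : ℝ) = Real.log x ^ 3 := by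
      rw [show (3 : ℝ) = ((3 : ℕ) : ℝ) by norm_num, Real.rpow_natCast]
    rw [e] at hx1
    have h4 : C * Real.log x ^ 3 ≤ x ^ ε / 2 := by
      calc C * Real.log x ^ 3 ≤ C * (1 / (2 * C) * x ^ ε) := mul_le_mul_of_nonneg_left hx1 hC.le
        _ = x ^ ε / 2 := by field_simp
    linarith
  filter_upwards [e1, himp, eventually_ge_atTop 2] with x hx1 hx2 hx3
  have hx0 : 0 < x := by linarith
  have hy1 : 1 ≤ x ^ θ := Real.one_le_rpow (by linarith) hθ.le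
  have h5 := h x (x ^ θ) hx3 hy1
  have hsub : {n : ℕ | 1 ≤ n ∧ (n : ℝ) ≤ x ∧ ¬ Drops κ c n} ⊆
      {n : ℕ | 1 ≤ n ∧ (n : ℝ) ≤ x ^ (1 / 2 : ℝ) ∧ True} ∪ {n : ℕ | 1 ≤ n ∧ (n : ℝ) ≤ x ∧
        ¬ ∃ m : ℕ, ((T^[m] n : ℕ) : ℝ) ≤ x ^ θ ∧ (m : ℝ) ≤ B * Real.log n} := by
    rintro n ⟨h1, h2, h3⟩
    by_cases h4 : (n : ℝ) ≤ x ^ (1 / 2 : ℝ)
    · exact Or.inl ⟨h1, h4, trivial⟩
    · refine Or.inr ⟨h1, h2, fun h6 => h3 (hx2 n h1 (not_le.1 h4).le h2 h6)⟩
  have h6 : (und κ c x : ℝ) ≤ x ^ (1 / 2 : ℝ) + C * Real.log x ^ 3 * (x / (x ^ θ) ^ a) := by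
    have g1 := (Set.ncard_le_ncard hsub ((below_finite _ _).union (below_finite _ _))).trans (Set.ncard_union_le _ _)
    have g2 : (({n : ℕ | 1 ≤ n ∧ (n : ℝ) ≤ x ^ (1 / 2 : ℝ) ∧ True} : Set ℕ).ncard : ℝ) ≤ x ^ (1 / 2 : ℝ) := by
      have hs : {n : ℕ | 1 ≤ n ∧ (n : ℝ) ≤ x ^ (1 / 2 : ℝ) ∧ True} ⊆
          ((Finset.Icc 1 ⌊x ^ (1 / 2 : ℝ)⌋₊ : Finset ℕ) : Set ℕ) := by
        rintro n ⟨h1, h2, -⟩
        rw [Finset.coe_Icc, Set.mem_Icc]
        exact ⟨h1, Nat.le_floor h2⟩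
      have := Set.ncard_le_ncard hs (Finset.finite_toSet _)
      rw [Set.ncard_coe_finset, Nat.card_Icc, Nat.add_sub_cancel] at this
      exact (by exact_mod_cast this : _ ≤ ((⌊x ^ (1 / 2 : ℝ)⌋₊ : ℕ) : ℝ)).trans (Nat.floor_le (by positivity))
    have g3 : (und κ c x : ℝ) ≤ ((({n : ℕ | 1 ≤ n ∧ (n : ℝ) ≤ x ^ (1 / 2 : ℝ) ∧ True} : Set ℕ).ncard : ℕ) : ℝ) +
      ((({n : ℕ | 1 ≤ n ∧ (n : ℝ) ≤ x ∧
        ¬ ∃ m : ℕ, ((T^[m] n : ℕ) : ℝ) ≤ x ^ θ ∧ (m : ℝ) ≤ B * Real.log n} : Set ℕ).ncard : ℕ) : ℝ) := by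
      exact_mod_cast g1
    linarith
  have h7 : x / (x ^ θ) ^ a = x ^ (1 - θ * a) := by
    rw [← Real.rpow_mul hx0.le, Real.rpow_sub hx0, Real.rpow_one]
  rw [h7] at h6
  have h8 : x ^ (1 / 2 : ℝ) ≤ x ^ (1 - θ * a) := Real.rpow_le_rpow_of_exponent_le (by linarith) (by linarith)
  have h9 : 0 < x ^ (1 - θ * a) := Real.rpow_pos_of_pos hx0 _
  rw [Real.rpow_add hx0]
  calc (und κ c x : ℝ) ≤ x ^ (1 / 2 : ℝ) + C * Real.log x ^ 3 * x ^ (1 - θ * a) := h6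
    _ ≤ x ^ (1 - θ * a) * (1 + C * Real.log x ^ 3) := by linarith
    _ ≤ _ := mul_le_mul_of_nonneg_left hx1 h9.le

end Pool.Agent.K4H97.CE
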