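import Pool.Agent.K4H97.CE.Thr2

set_option autoImplicit false

/-! The lower bound for `1 - β`, and Q1. -/

namespace Pool.Agent.K4H97.CE

open Filter Topology
open scoped ENNReal

theorem thr_lower {c : ℝ} (hc : 2 / Real.log (4 / 3) < c) : ∃ a : ℝ, 0 < a ∧ ∀ κ : ℝ, 0 < κ → κ ≤ 1 →
    a * (κ + (Lam⁻¹).toReal) ≤ 1 - expo (und κ c) := by
  obtain ⟨B, hB1, hBc⟩ := exists_between hc
  obtain ⟨a₀, ha₀, ha₁, hlaw⟩ := law_one hB1
  have hB0 : 0 < B := mu_pos.trans hB1
  have hcB : 0 < c - B := by linarith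
  set m₀ : ℝ := min (1 / 2) ((c - B) / 4) with hm₀
  have hm0 : 0 < m₀ := lt_min (by norm_num) (by positivity)
  have hm1 : m₀ ≤ 1 / 2 := min_le_left _ _
  have hm2 : m₀ ≤ (c - B) / 4 := min_le_right _ _
  refine ⟨a₀ * m₀ / 2, by positivity, fun κ hκ hκ1 => ?_⟩
  have hA : κ / 2 * a₀ ≤ 1 - expo (und κ c) := by
    have h1 : expo (und κ c) ≤ 1 - κ / 2 * a₀ := by
      refine und_law (by positivity) (by nlinarith) ha₀ hlaw ?_
      filter_upwards [eventually_ge_atTop 1] with x hx n hn1 hn2 hn3
      rintro ⟨m, h1, h2⟩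
      have hn0 : (0 : ℝ) < n := by exact_mod_cast hn1
      refine ⟨m, h2.trans ?_, h1.trans ?_⟩
      · exact mul_le_mul_of_nonneg_right hBc.le (Real.log_natCast_nonneg n)
      · have h3 := Real.rpow_le_rpow (by positivity) hn2 hκ.le
        rw [← Real.rpow_mul (by linarith)] at h3
        have e : (1 / 2 : ℝ) * κ = κ / 2 := by ring
        rwa [e] at h3
    linarith
  have hBb : a₀ * m₀ * (Lam⁻¹).toReal ≤ 1 - expo (und κ c) := by
    by_cases hL : Lam = ⊤
    · rw [hL, ENNReal.inv_top, ENNReal.toReal_zero, mul_zero]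
      have : 0 < κ / 2 * a₀ := by positivity
      linarith
    · set ℓ : ℝ := Lam.toReal with hℓ
      have hLe : Lam = ENNReal.ofReal ℓ := (ENNReal.ofReal_toReal hL).symm
      have hℓ1 : 1 ≤ ℓ := by
        have := one_le_Lam
        rw [hLe, ENNReal.one_le_ofReal] at this
        exact this
      have hℓ0 : 0 < ℓ := by linarith
      rw [ENNReal.toReal_inv, ← hℓ]
      obtain ⟨K, hK⟩ : Bound (2 * ℓ) := of_Lam_lt (by
        rw [hLe, ENNReal.ofReal_lt_ofReal_iff (by positivity)]
        linarith)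
      set θ : ℝ := m₀ / ℓ with hθ
      have hθ0 : 0 < θ := by positivity
      have hθm : θ ≤ m₀ := by
        rw [hθ, div_le_iff₀ hℓ0]
        nlinarith
      have h1 : expo (und κ c) ≤ 1 - θ * a₀ := by
        refine und_law hθ0 (by nlinarith) ha₀ hlaw ?_
        filter_upwards [eventually_ge_atTop 1, (tendsto_rpow_atTop (show 0 < κ / 2 by positivity)).eventually_ge_atTop
          (K : ℝ)] with x hx hxK n hn1 hn2 hn3
        rintro ⟨m, h1, h2⟩
        have hx0 : 0 < x := by linarith
        have hn0 : (0 : ℝ) < n := by exact_mod_cast hn1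
        have hv1 : 1 ≤ T^[m] n := iter_pos hn1 m
        have hv0 : (0 : ℝ) < ((T^[m] n : ℕ) : ℝ) := by exact_mod_cast hv1
        obtain ⟨k, hk1, hk2⟩ := hK (T^[m] n) hv1
        have h3 : Real.log x ≤ 2 * Real.log n := by
          have h4 := Real.log_le_log (by positivity) hn2
          rw [Real.log_rpow hx0] at h4
          linarith
        have h5 : Real.log ((T^[m] n : ℕ) : ℝ) ≤ θ * Real.log x := by
          rw [← Real.log_rpow hx0]
          exact Real.log_le_log hv0 h1
        refine ⟨k + m, ?_, ?_⟩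
        · push_cast
          have h6 : (k : ℝ) ≤ (c - B) * Real.log n := by
            calc (k : ℝ) ≤ 2 * ℓ * Real.log ((T^[m] n : ℕ) : ℝ) := hk1
              _ ≤ 2 * ℓ * (θ * Real.log x) := mul_le_mul_of_nonneg_left h5 (by positivity)
              _ = 2 * m₀ * Real.log x := by rw [hθ]; field_simp
              _ ≤ 2 * m₀ * (2 * Real.log n) := mul_le_mul_of_nonneg_left h3 (by positivity)
              _ = 4 * m₀ * Real.log n := by ring
              _ ≤ (c - B) * Real.log n := by
                  apply mul_le_mul_of_nonneg_right _ (Real.log_natCast_nonneg n)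
                  linarith
          linarith
        · rw [Function.iterate_add_apply]
          have h7 : ((T^[k] (T^[m] n) : ℕ) : ℝ) ≤ K := by exact_mod_cast hk2
          have h3 := Real.rpow_le_rpow (by positivity) hn2 hκ.le
          rw [← Real.rpow_mul (by linarith)] at h3
          have e : (1 / 2 : ℝ) * κ = κ / 2 := by ring
          rw [e] at h3
          linarith
      have e : a₀ * m₀ * ℓ⁻¹ = θ * a₀ := by rw [hθ]; ring
      rw [e]
      linarith
  have h1 : a₀ * m₀ / 2 * κ ≤ (κ / 2 * a₀) / 2 := by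
    have : 0 < a₀ * κ := by positivity
    nlinarith
  rw [mul_add]
  have h2 : a₀ * m₀ / 2 * (Lam⁻¹).toReal = (a₀ * m₀ * (Lam⁻¹).toReal) / 2 := by ring
  rw [h2]
  linarith

/-- every cycle is the trivial one -/
def OnlyTrivial : Prop := ∀ n p : ℕ, 1 ≤ n → 1 ≤ p → T^[p] n = n → n = 1 ∨ n = 2

theorem q1_iff : (∃ c : ℝ, ∀ n : ℕ, 2 ≤ n → StopsBy (c * Real.log n) n) ↔ OnlyTrivial ∧ Lam < ⊤ := by
  classical
  constructor
  · rintro ⟨c, hc⟩
    have hst : ∀ n : ℕ, 1 ≤ n → ∃ k : ℕ, (k : ℝ) ≤ c * Real.log n ∧ T^[k] n = 1 := by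
      intro n hn
      rcases Nat.lt_or_ge n 2 with h | h
      · obtain rfl : n = 1 := by omega
        exact ⟨0, by simp, rfl⟩
      · exact hc n h
    refine ⟨fun n p hn hp hper => ?_, ?_⟩
    · obtain ⟨k, -, hk⟩ := hst n hn
      have h1 : ∀ j : ℕ, T^[p * j] n = n := by
        intro j
        induction j with
        | zero => rfl
        | succ j ih => rw [Nat.mul_succ, Function.iterate_add_apply, hper, ih]
      have h2 := h1 k
      obtain ⟨d, hd⟩ : ∃ d, p * k = d + k := ⟨p * k - k, by
        have : k ≤ p * k := Nat.le_mul_of_pos_left k hp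
        omega⟩
      rw [hd, Function.iterate_add_apply, hk] at h2
      rcases iter_one d with h3 | h3
      · left; rw [← h2, h3]
      · right; rw [← h2, h3]
    · refine lt_of_le_of_lt (Lam_le (l := c) ⟨1, fun n hn => ?_⟩) ENNReal.ofReal_lt_top
      obtain ⟨k, hk1, hk2⟩ := hst n hn
      exact ⟨k, hk1, hk2.le⟩
  · rintro ⟨hcyc, hL⟩
    obtain ⟨l, hl⟩ : ∃ l : ℝ, Bound l := by
      have h1 : Lam < ENNReal.ofReal (Lam.toReal + 1) := by
        nth_rewrite 1 [← ENNReal.ofReal_toReal hL.ne]
        rw [ENNReal.ofReal_lt_ofReal_iff (by positivity)]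
        linarith
      exact ⟨_, of_Lam_lt h1⟩
    obtain ⟨K, hK⟩ := hl
    have hl2 : 0 < Real.log 2 := Real.log_pos (by norm_num)
    have hl0 : 0 < l := by
      have := bound_ge ⟨K, hK⟩
      by_contra hcon
      push Not at hcon
      nlinarith
    -- every small number reaches `1`
    have hst : ∀ v : ℕ, 1 ≤ v → ∃ t : ℕ, T^[t] v = 1 := by
      intro v hv
      have hinf : {i : ℕ | T^[i] v ≤ K}.Infinite := by
        apply Set.infinite_of_forall_exists_gt
        intro i
        obtain ⟨k, -, hk⟩ := hK (T^[i + 1] v) (iter_pos hv _)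
        refine ⟨k + (i + 1), ?_, by omega⟩
        rw [Set.mem_ofPred_eq, Function.iterate_add_apply]
        exact hk
      obtain ⟨i, hi, j, hj, hij, he⟩ := hinf.exists_ne_map_eq_of_mapsTo
        (f := fun i => T^[i] v) (t := Set.Iic K) (fun i hi => hi) (Set.finite_Iic K)
      have key : ∀ i j : ℕ, i < j → T^[i] v = T^[j] v → ∃ t : ℕ, T^[t] v = 1 := by
        intro i j hij he
        obtain ⟨d, rfl⟩ : ∃ d, j = d + i := ⟨j - i, by omega⟩
        rw [Function.iterate_add_apply] at he
        rcases hcyc (T^[i] v) d (iter_pos hv i) (by omega) he.symm with h1 | h1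
        · exact ⟨i, h1⟩
        · refine ⟨i + 1, ?_⟩
          rw [Function.iterate_succ_apply', h1]
          rfl
      rcases lt_or_gt_of_ne hij with h | h
      · exact key i j h he
      · exact key j i h he.symm
    choose! f hf using hst
    set M : ℝ := ∑ v ∈ Finset.range (K + 1), (f v : ℝ) with hM
    have hM0 : 0 ≤ M := by positivity
    refine ⟨l + M / Real.log 2, fun n hn => ?_⟩
    obtain ⟨k, hk1, hk2⟩ := hK n (by omega)
    have hv1 : 1 ≤ T^[k] n := iter_pos (by omega) k
    refine ⟨f (T^[k] n) + k, ?_, by rw [Function.iterate_add_apply]; exact hf _ hv1⟩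
    have h2 : (f (T^[k] n) : ℝ) ≤ M :=
      Finset.single_le_sum (f := fun v => (f v : ℝ)) (fun i _ => Nat.cast_nonneg _)
        (Finset.mem_range.2 (by omega))
    have hlog : Real.log 2 ≤ Real.log n := Real.log_le_log (by norm_num) (by exact_mod_cast hn)
    have h3 : M ≤ M / Real.log 2 * Real.log n := by
      rw [div_mul_eq_mul_div, le_div_iff₀ hl2]
      exact mul_le_mul_of_nonneg_left hlog hM0
    push_cast
    rw [add_mul]
    linarith

end Pool.Agent.K4H97.CE
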