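import Pool.Agent.K4H97.CE.Words

set_option autoImplicit false

/-! Typical starts: the number of the odd terms among the first `j` is `j / 2 + O(√(t log t))`. -/

namespace Pool.Agent.K4H97.CE

open Filter Topology
open scoped ENNReal

/-- the number of `true` among the first `j` letters -/
def ones {t : ℕ} (w : Fin t → Bool) (j : ℕ) : ℕ :=
  (Finset.univ.filter fun i : Fin t => (i : ℕ) < j ∧ w i = true).card

/-- letters as signs -/
def sg (b : Bool) : ℝ := if b then 1 else -1

theorem two_ones {t : ℕ} (w : Fin t → Bool) {j : ℕ} (hj : j ≤ t) :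
    2 * (ones w j : ℝ) - j = ∑ i : Fin t, if (i : ℕ) < j then sg (w i) else 0 := by
  have h1 : (j : ℝ) = ∑ i : Fin t, if (i : ℕ) < j then (1 : ℝ) else 0 := by
    rw [Fin.sum_univ_eq_sum_range (fun i => if i < j then (1 : ℝ) else 0), ← Finset.sum_filter]
    have : (Finset.range t).filter (fun i => i < j) = Finset.range j := by
      ext i
      simp only [Finset.mem_filter, Finset.mem_range]
      omega
    rw [this]
    simp
  have h2 : (ones w j : ℝ) = ∑ i : Fin t, if (i : ℕ) < j ∧ w i = true then (1 : ℝ) else 0 := by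
    unfold ones
    rw [Finset.card_filter]
    push_cast
    rfl
  rw [h2, h1]
  rw [Finset.mul_sum, ← Finset.sum_sub_distrib]
  apply Finset.sum_congr rfl
  intro i _
  unfold sg
  by_cases h3 : (i : ℕ) < j
  · by_cases h4 : w i = true
    · simp [h3, h4]; norm_num
    · simp [h3, h4]
  · simp [h3]

theorem moment (t j : ℕ) (lam : ℝ) :
    ∑ w : Fin t → Bool, Real.exp (lam * ∑ i : Fin t, if (i : ℕ) < j then sg (w i) else 0) ≤
      2 ^ t * Real.exp (t * (lam ^ 2 / 2)) := by
  have h1 : ∀ w : Fin t → Bool, Real.exp (lam * ∑ i : Fin t, if (i : ℕ) < j then sg (w i) else 0) =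
      ∏ i : Fin t, Real.exp (lam * if (i : ℕ) < j then sg (w i) else 0) := by
    intro w
    rw [Finset.mul_sum, Real.exp_sum]
  simp_rw [h1]
  have h2 := Finset.prod_univ_sum (fun _ : Fin t => (Finset.univ : Finset Bool))
    (fun (i : Fin t) (b : Bool) => Real.exp (lam * if (i : ℕ) < j then sg b else 0))
  rw [Fintype.piFinset_univ] at h2
  rw [← h2]
  have h3 : ∀ i : Fin t, ∑ b ∈ (Finset.univ : Finset Bool), Real.exp (lam * if (i : ℕ) < j then sg b else 0) ≤
      2 * Real.exp (lam ^ 2 / 2) := by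
    intro i
    rw [Fintype.sum_bool]
    by_cases h4 : (i : ℕ) < j
    · rw [if_pos h4, if_pos h4]
      have h5 := Real.cosh_le_exp_half_sq lam
      rw [Real.cosh_eq] at h5
      simp only [sg, if_true, Bool.false_eq_true, if_false, mul_one, mul_neg]
      linarith
    · rw [if_neg h4, if_neg h4, mul_zero, Real.exp_zero]
      have h5 : (1 : ℝ) ≤ Real.exp (lam ^ 2 / 2) := Real.one_le_exp (by positivity)
      linarith
  refine (Finset.prod_le_prod (fun i _ => Finset.sum_nonneg fun b _ => (Real.exp_pos _).le)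
    (fun i _ => h3 i)).trans (le_of_eq ?_)
  rw [Finset.prod_const, Finset.card_univ, Fintype.card_fin, mul_pow, ← Real.exp_nat_mul]

open Classical in
/-- words with an atypical prefix -/
noncomputable def atyp (A : ℝ) (t : ℕ) : Finset (Fin t → Bool) :=
  Finset.univ.filter fun w => ∃ j ≤ t, A * √(t * Real.log t) < |(ones w j : ℝ) - j / 2|

theorem tail (t j : ℕ) (hj : j ≤ t) (r : ℝ) (lam : ℝ) (hlam : 0 ≤ lam) :
    ((Finset.univ.filter fun w : Fin t → Bool => r < |(ones w j : ℝ) - j / 2|).card : ℝ) ≤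
      2 * (2 ^ t * Real.exp (t * (lam ^ 2 / 2) - 2 * lam * r)) := by
  classical
  have h1 : ∀ w ∈ (Finset.univ.filter fun w : Fin t → Bool => r < |(ones w j : ℝ) - j / 2|),
      (1 : ℝ) ≤ Real.exp (-(2 * lam * r)) * (Real.exp (lam * ∑ i : Fin t, if (i : ℕ) < j then sg (w i) else 0) +
        Real.exp ((-lam) * ∑ i : Fin t, if (i : ℕ) < j then sg (w i) else 0)) := by
    intro w hw
    rw [Finset.mem_filter] at hw
    rw [← two_ones w hj, mul_add, ← Real.exp_add, ← Real.exp_add]
    rcases lt_abs.1 hw.2 with h2 | h2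
    · have h3 : (1 : ℝ) ≤ Real.exp (-(2 * lam * r) + lam * (2 * (ones w j : ℝ) - j)) := by
        apply Real.one_le_exp
        nlinarith
      have := Real.exp_pos (-(2 * lam * r) + -lam * (2 * (ones w j : ℝ) - j))
      linarith
    · have h3 : (1 : ℝ) ≤ Real.exp (-(2 * lam * r) + -lam * (2 * (ones w j : ℝ) - j)) := by
        apply Real.one_le_exp
        nlinarith
      have := Real.exp_pos (-(2 * lam * r) + lam * (2 * (ones w j : ℝ) - j))
      linarith
  calc ((Finset.univ.filter fun w : Fin t → Bool => r < |(ones w j : ℝ) - j / 2|).card : ℝ)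
      = ∑ w ∈ (Finset.univ.filter fun w : Fin t → Bool => r < |(ones w j : ℝ) - j / 2|), (1 : ℝ) := by simp
    _ ≤ ∑ w ∈ (Finset.univ.filter fun w : Fin t → Bool => r < |(ones w j : ℝ) - j / 2|),
        Real.exp (-(2 * lam * r)) * (Real.exp (lam * ∑ i : Fin t, if (i : ℕ) < j then sg (w i) else 0) +
        Real.exp ((-lam) * ∑ i : Fin t, if (i : ℕ) < j then sg (w i) else 0)) := Finset.sum_le_sum h1
    _ ≤ ∑ w : Fin t → Bool,
        Real.exp (-(2 * lam * r)) * (Real.exp (lam * ∑ i : Fin t, if (i : ℕ) < j then sg (w i) else 0) +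
        Real.exp ((-lam) * ∑ i : Fin t, if (i : ℕ) < j then sg (w i) else 0)) := by
        apply Finset.sum_le_sum_of_subset_of_nonneg (Finset.filter_subset _ _)
        intro w _ _
        positivity
    _ ≤ Real.exp (-(2 * lam * r)) * (2 ^ t * Real.exp (t * (lam ^ 2 / 2)) +
        2 ^ t * Real.exp (t * (lam ^ 2 / 2))) := by
        rw [← Finset.mul_sum, Finset.sum_add_distrib]
        apply mul_le_mul_of_nonneg_left _ (Real.exp_pos _).le
        have h2 := moment t j lam
        have h3 := moment t j (-lam)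
        rw [neg_sq] at h3
        exact add_le_add h2 h3
    _ = 2 * (2 ^ t * Real.exp (t * (lam ^ 2 / 2) - 2 * lam * r)) := by
        rw [sub_eq_add_neg, Real.exp_add]
        ring

theorem atyp_card {A κ : ℝ} (hA : 1 < A) (hκ : 0 < κ) :
    ∀ᶠ t : ℕ in atTop, ((atyp A t).card : ℝ) ≤ κ * 2 ^ t / t := by
  classical
  have h1 : Tendsto (fun t : ℕ => 4 * ((t : ℝ)) ^ (-(2 * A ^ 2 - 2))) atTop (𝓝 (4 * 0)) := by
    apply Tendsto.const_mul
    exact (tendsto_rpow_neg_atTop (by nlinarith)).comp tendsto_natCast_atTop_atTop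
  rw [mul_zero] at h1
  filter_upwards [h1.eventually (gt_mem_nhds hκ), eventually_ge_atTop 2] with t ht ht2
  have htR : (2 : ℝ) ≤ t := by exact_mod_cast ht2
  have ht0 : (0 : ℝ) < t := by linarith
  have hlog : 0 < Real.log t := Real.log_pos (by linarith)
  set r : ℝ := A * √(t * Real.log t) with hr
  set lam : ℝ := 2 * A * √(Real.log t / t) with hlam
  have hlam0 : 0 ≤ lam := by positivity
  have hsub : atyp A t ⊆ (Finset.range (t + 1)).biUnion fun j =>
      Finset.univ.filter fun w : Fin t → Bool => r < |(ones w j : ℝ) - j / 2| := by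
    intro w hw
    unfold atyp at hw
    rw [Finset.mem_filter] at hw
    obtain ⟨-, j, hj, h⟩ := hw
    rw [Finset.mem_biUnion]
    exact ⟨j, Finset.mem_range.2 (by omega), Finset.mem_filter.2 ⟨Finset.mem_univ _, h⟩⟩
  have hexp : t * (lam ^ 2 / 2) - 2 * lam * r = -(2 * A ^ 2) * Real.log t := by
    have e1 : lam ^ 2 = 4 * A ^ 2 * (Real.log t / t) := by
      rw [hlam, mul_pow, Real.sq_sqrt (by positivity)]
      ring
    have e2 : lam * r = 2 * A ^ 2 * Real.log t := by
      rw [hlam, hr]
      have e3 : √(Real.log t / t) * √(t * Real.log t) = Real.log t := by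
        rw [← Real.sqrt_mul (by positivity)]
        have e4 : Real.log t / t * (t * Real.log t) = Real.log t * Real.log t := by
          field_simp
        rw [e4, Real.sqrt_mul_self hlog.le]
      calc 2 * A * √(Real.log t / t) * (A * √(t * Real.log t)) =
          2 * A ^ 2 * (√(Real.log t / t) * √(t * Real.log t)) := by ring
        _ = _ := by rw [e3]
    have e5 : t * (lam ^ 2 / 2) = 2 * A ^ 2 * Real.log t := by
      rw [e1]
      field_simp
      ring
    rw [e5]
    linarith
  have h2 : ((atyp A t).card : ℝ) ≤ ∑ j ∈ Finset.range (t + 1),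
      ((Finset.univ.filter fun w : Fin t → Bool => r < |(ones w j : ℝ) - j / 2|).card : ℝ) := by
    have h3 := (Finset.card_le_card hsub).trans Finset.card_biUnion_le
    exact_mod_cast h3
  have h4 : ∑ j ∈ Finset.range (t + 1),
      ((Finset.univ.filter fun w : Fin t → Bool => r < |(ones w j : ℝ) - j / 2|).card : ℝ) ≤
      ∑ _j ∈ Finset.range (t + 1), 2 * (2 ^ t * (t : ℝ) ^ (-(2 * A ^ 2))) := by
    apply Finset.sum_le_sum
    intro j hj
    rw [Finset.mem_range] at hj
    have h5 := tail t j (by omega) r lam hlam0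
    rw [hexp] at h5
    have e6 : Real.exp (-(2 * A ^ 2) * Real.log t) = (t : ℝ) ^ (-(2 * A ^ 2)) := by
      rw [Real.rpow_def_of_pos ht0, mul_comm]
    rw [e6] at h5
    exact h5
  refine (h2.trans h4).trans ?_
  rw [Finset.sum_const, Finset.card_range, nsmul_eq_mul, le_div_iff₀ ht0]
  have h6 : (t : ℝ) ^ (-(2 * A ^ 2 - 2)) = (t : ℝ) ^ (-(2 * A ^ 2)) * (t * t) := by
    have : -(2 * A ^ 2 - 2) = -(2 * A ^ 2) + 2 := by ring
    rw [this, Real.rpow_add ht0]
    norm_num [sq]
  rw [h6] at ht
  push_cast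
  have hP : 0 < (t : ℝ) ^ (-(2 * A ^ 2)) := Real.rpow_pos_of_pos ht0 _
  have h2t : (0 : ℝ) < 2 ^ t := by positivity
  have h7 : ((t : ℝ) + 1) ≤ 2 * t := by linarith
  calc ((t : ℝ) + 1) * (2 * (2 ^ t * (t : ℝ) ^ (-(2 * A ^ 2)))) * t ≤
      (2 * t) * (2 * (2 ^ t * (t : ℝ) ^ (-(2 * A ^ 2)))) * t := by
        apply mul_le_mul_of_nonneg_right _ ht0.le
        exact mul_le_mul_of_nonneg_right h7 (by positivity)
    _ = 2 ^ t * (4 * ((t : ℝ) ^ (-(2 * A ^ 2)) * (t * t))) := by ring
    _ ≤ 2 ^ t * κ := mul_le_mul_of_nonneg_left ht.le h2t.le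
    _ = _ := by ring

/-- the number of the odd terms among `n, T n, ..., T^(j-1) n` -/
def odds (j n : ℕ) : ℕ := ((Finset.range j).filter fun i => T^[i] n % 2 = 1).card

theorem ones_par {t : ℕ} (n : ℕ) {j : ℕ} (hj : j ≤ t) : ones (par t n) j = odds j n := by
  unfold ones odds par
  have h1 : ((Finset.range j).filter fun i => T^[i] n % 2 = 1) =
      (Finset.univ.filter fun i : Fin t => (i : ℕ) < j ∧ decide (T^[(i : ℕ)] n % 2 = 1) = true).map
        Fin.valEmbedding := by
    ext i
    simp only [Finset.mem_filter, Finset.mem_range, Finset.mem_map, Finset.mem_univ, true_and,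
      decide_eq_true_eq, Fin.valEmbedding_apply]
    constructor
    · rintro ⟨h1, h2⟩
      exact ⟨⟨i, by omega⟩, ⟨h1, h2⟩, rfl⟩
    · rintro ⟨a, ⟨h1, h2⟩, rfl⟩
      exact ⟨h1, h2⟩
  rw [h1, Finset.card_map]

/-- typical for the first `ε log₂ n` steps -/
def Typical (ε A : ℝ) (n : ℕ) : Prop :=
  ∀ j ≤ len ε n, |(odds j n : ℝ) - j / 2| ≤ A * √(len ε n * Real.log (len ε n))

theorem typical_iff (ε A : ℝ) (n : ℕ) : Typical ε A n ↔ par (len ε n) n ∉ atyp A (len ε n) := by
  classical
  unfold Typical atyp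
  rw [Finset.mem_filter]
  push Not
  constructor
  · intro h _ j hj
    rw [ones_par n hj]
    exact h j hj
  · intro h j hj
    have := h (Finset.mem_univ _) j hj
    rwa [ones_par n hj] at this

end Pool.Agent.K4H97.CE
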