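import Pool.Agent.K4H97.CE.MainC

set_option autoImplicit false

/-! Parity words: a set of words of small relative size gives few integers in short intervals. -/

namespace Pool.Agent.K4H97.CE

open Filter Topology
open scoped ENNReal

/-- the parities of `n, T n, ..., T^(t-1) n` (`true` for odd) -/
def par (t n : ℕ) : Fin t → Bool := fun j => decide (T^[(j : ℕ)] n % 2 = 1)

theorem par_inj (t : ℕ) : ∀ n m : ℕ, par t n = par t m → (n : ℤ) ≡ m [ZMOD 2 ^ t] := by
  induction t with
  | zero => intro n m _; rw [pow_zero]; exact Int.modEq_one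
  | succ t ih =>
    intro n m h
    have h0 := congrFun h 0
    unfold par at h0
    simp only [Fin.val_zero, Function.iterate_zero, id_eq, decide_eq_decide] at h0
    have h1 : par t (T n) = par t (T m) := by
      funext j
      have h2 := congrFun h j.succ
      unfold par at h2 ⊢
      rw [decide_eq_decide] at h2 ⊢
      simpa only [Fin.val_succ, Function.iterate_succ_apply] using h2
    have h3 := (ih _ _ h1).symm.dvd
    obtain ⟨d, hd⟩ := h3
    rw [Int.modEq_comm, Int.modEq_iff_dvd]
    have hT : ∀ x : ℕ, (x % 2 = 1 → 2 * (T x : ℤ) = 3 * x + 1) ∧ (¬ x % 2 = 1 → 2 * (T x : ℤ) = x) := by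
      intro x
      unfold T
      constructor
      · intro hx
        rw [if_neg (by omega)]
        omega
      · intro hx
        rw [if_pos (by omega)]
        omega
    by_cases hn : n % 2 = 1
    · have hm := h0.1 hn
      have e1 := (hT n).1 hn
      have e2 := (hT m).1 hm
      have e3 : (3 : ℤ) * (n - m) = 2 ^ (t + 1) * d := by
        rw [pow_succ]
        linarith
      have h5 : (2 : ℤ) ^ (t + 1) ∣ 3 * ((n : ℤ) - m) := ⟨d, e3⟩
      exact (IsCoprime.pow_left (by norm_num)).dvd_of_dvd_mul_left h5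
    · have hm : ¬ m % 2 = 1 := fun h' => hn (h0.2 h')
      have e1 := (hT n).2 hn
      have e2 := (hT m).2 hm
      refine ⟨d, ?_⟩
      rw [pow_succ]
      linarith

/-- the number of the integers in an interval in a residue class -/
theorem class_card (A : Finset ℕ) (M : ℕ) (hM : 0 < M) (a : ℝ) (h : ℝ) (hh : 0 ≤ h)
    (hA : ∀ n ∈ A, a ≤ (n : ℝ) ∧ (n : ℝ) ≤ a + h) (hc : ∀ n ∈ A, ∀ m ∈ A, (n : ℤ) ≡ m [ZMOD M]) :
    (A.card : ℝ) ≤ h / M + 1 := by
  classical
  rcases A.eq_empty_or_nonempty with h0 | h0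
  · rw [h0]
    simp only [Finset.card_empty, Nat.cast_zero]
    positivity
  set m := A.min' h0 with hm
  have hmA : m ∈ A := A.min'_mem h0
  have hMR : (0 : ℝ) < M := by exact_mod_cast hM
  have h1 : A.card ≤ (Finset.range (⌊h / M⌋₊ + 1)).card := by
    apply Finset.card_le_card_of_injOn (fun n => (n - m) / M)
    · intro n hn
      have hnm : m ≤ n := A.min'_le n hn
      have h2 := (hA n hn).2
      have h3 := (hA m hmA).1
      simp only [Finset.coe_range, Set.mem_Iio]
      rw [Nat.lt_succ_iff]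
      apply Nat.le_floor
      have h4 : (((n - m) / M : ℕ) : ℝ) ≤ ((n - m : ℕ) : ℝ) / M := Nat.cast_div_le
      refine h4.trans ?_
      rw [Nat.cast_sub hnm]
      apply div_le_div_of_nonneg_right _ hMR.le
      linarith
    · intro n hn n' hn' he
      have hnm : m ≤ n := A.min'_le n hn
      have hnm' : m ≤ n' := A.min'_le n' hn'
      have h2 : M ∣ n - m := by
        have := (hc m hmA n hn).dvd
        rw [← Nat.cast_sub hnm] at this
        exact_mod_cast this
      have h3 : M ∣ n' - m := by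
        have := (hc m hmA n' hn').dvd
        rw [← Nat.cast_sub hnm'] at this
        exact_mod_cast this
      have h4 := Nat.div_mul_cancel h2
      have h5 := Nat.div_mul_cancel h3
      have h6 : (n - m) / M = (n' - m) / M := he
      rw [h6] at h4
      omega
  rw [Finset.card_range] at h1
  have h2 : (A.card : ℝ) ≤ ((⌊h / M⌋₊ + 1 : ℕ) : ℝ) := by exact_mod_cast h1
  have h3 := Nat.floor_le (show 0 ≤ h / M by positivity)
  push_cast at h2
  linarith

/-- the number of the first steps -/
noncomputable def len (ε : ℝ) (n : ℕ) : ℕ := ⌊ε * Real.logb 2 n⌋₊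

theorem words_short {ε δ : ℝ} (hε : 0 < ε) (hε1 : ε < 1) (hδ : 0 < δ) (B : (t : ℕ) → Finset (Fin t → Bool))
    (hB : ∀ᶠ t : ℕ in atTop, ((B t).card : ℝ) ≤ δ / 9 * ε * 2 ^ t / t) :
    ∀ᶠ y : ℝ in atTop, (excAt {n : ℕ | par (len ε n) n ∉ B (len ε n)} (1 - ε) y : ℝ) ≤
      δ * y ^ (1 - (1 - ε)) / Real.log y := by
  classical
  obtain ⟨t₀, ht₀⟩ := eventually_atTop.1 hB
  have hl2 : 0 < Real.log 2 := Real.log_pos (by norm_num)
  have e1 : 1 - (1 - ε) = ε := by ring
  have htend : Tendsto (fun y : ℝ => ε * Real.logb 2 y) atTop atTop :=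
    (Real.tendsto_logb_atTop (by norm_num)).const_mul_atTop hε
  filter_upwards [htend.eventually_ge_atTop (max 2 (t₀ + 1)), eventually_ge_atTop 1] with y hy hy1
  have hy0 : 0 < y := by linarith
  rw [e1]
  set a : ℝ := ε * Real.logb 2 y with ha
  have ha2 : 2 ≤ a := (le_max_left _ _).trans hy
  have hat : (t₀ : ℝ) + 1 ≤ a := (le_max_right _ _).trans hy
  set s : ℕ := ⌊a⌋₊ with hs
  have hs1 : (s : ℝ) ≤ a := Nat.floor_le (by linarith)
  have hs2 : a < s + 1 := Nat.lt_floor_add_one a
  have hst₀ : t₀ ≤ s := by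
    have : (t₀ : ℝ) < s + 1 := by linarith
    have h2 : t₀ < s + 1 := by exact_mod_cast this
    omega
  have hsa : a / 2 ≤ s := by linarith
  have hs0 : (0 : ℝ) < s := by linarith
  have hyε : (0 : ℝ) < y ^ ε := Real.rpow_pos_of_pos hy0 _
  have hyε1 : (1 : ℝ) ≤ y ^ ε := Real.one_le_rpow hy1 hε.le
  have hyεy : y ^ ε ≤ y := by
    calc y ^ ε ≤ y ^ (1 : ℝ) := Real.rpow_le_rpow_of_exponent_le hy1 hε1.le
      _ = y := Real.rpow_one y
  have h2a : (2 : ℝ) ^ a = y ^ ε := by
    rw [ha, mul_comm, Real.rpow_mul (by norm_num), Real.rpow_logb (by norm_num) (by norm_num) hy0]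
  -- the integers of the interval
  set I : Finset ℕ := Finset.Icc ⌈y⌉₊ ⌊y + y ^ ε⌋₊ with hI
  have hImem : ∀ n : ℕ, n ∈ I ↔ y ≤ (n : ℝ) ∧ (n : ℝ) ≤ y + y ^ ε := by
    intro n
    rw [hI, Finset.mem_Icc, Nat.ceil_le, Nat.le_floor_iff (by positivity)]
  have hlen : ∀ n ∈ I, len ε n = s ∨ len ε n = s + 1 := by
    intro n hn
    obtain ⟨h1, h2⟩ := (hImem n).1 hn
    have hn0 : (0 : ℝ) < n := by linarith
    have h3 : a ≤ ε * Real.logb 2 n := by
      rw [ha]
      apply mul_le_mul_of_nonneg_left _ hε.le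
      exact Real.logb_le_logb_of_le (by norm_num) hy0 h1
    have h4 : ε * Real.logb 2 n ≤ a + 1 := by
      have h5 : Real.logb 2 n ≤ Real.logb 2 (2 * y) :=
        Real.logb_le_logb_of_le (by norm_num) hn0 (by linarith)
      rw [Real.logb_mul (by norm_num) hy0.ne', Real.logb_self_eq_one (by norm_num)] at h5
      have h6 := mul_le_mul_of_nonneg_left h5 hε.le
      rw [ha]
      nlinarith
    unfold len
    have h5 : s ≤ ⌊ε * Real.logb 2 n⌋₊ := Nat.floor_mono h3
    have h6 : ⌊ε * Real.logb 2 n⌋₊ ≤ ⌊a + 1⌋₊ := Nat.floor_mono h4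
    rw [Nat.floor_add_one (by linarith), ← hs] at h6
    omega
  -- one length
  have hone : ∀ t : ℕ, t = s ∨ t = s + 1 →
      (((I.filter fun n => par t n ∈ B t).card : ℕ) : ℝ) ≤ δ / 9 * ε * (3 * y ^ ε) / s := by
    intro t ht
    have hts : s ≤ t := by omega
    have htR : (s : ℝ) ≤ t := by exact_mod_cast hts
    have h2t : (2 : ℝ) ^ t ≤ 2 * y ^ ε := by
      have h1 : (2 : ℝ) ^ t ≤ 2 ^ (s + 1) := pow_le_pow_right₀ (by norm_num) (by omega)
      refine h1.trans ?_
      rw [pow_succ, mul_comm]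
      apply mul_le_mul_of_nonneg_left _ (by norm_num)
      rw [← h2a, ← Real.rpow_natCast]
      exact Real.rpow_le_rpow_of_exponent_le (by norm_num) hs1
    have h2t0 : (0 : ℝ) < 2 ^ t := by positivity
    have hcard : (I.filter fun n => par t n ∈ B t).card ≤
        ∑ w ∈ B t, (I.filter fun n => par t n = w).card := by
      have hsub : (I.filter fun n => par t n ∈ B t) ⊆ (B t).biUnion fun w => I.filter fun n => par t n = w := by
        intro n hn
        rw [Finset.mem_filter] at hn
        rw [Finset.mem_biUnion]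
        exact ⟨par t n, hn.2, Finset.mem_filter.2 ⟨hn.1, rfl⟩⟩
      exact (Finset.card_le_card hsub).trans Finset.card_biUnion_le
    have hcl : ∀ w ∈ B t, (((I.filter fun n => par t n = w).card : ℕ) : ℝ) ≤ 3 * y ^ ε / 2 ^ t := by
      intro w _
      have h1 := class_card (I.filter fun n => par t n = w) (2 ^ t) (by positivity) y (y ^ ε) hyε.le
        (fun n hn => (hImem n).1 (Finset.mem_filter.1 hn).1)
        (fun n hn m hm => by
          have h2 := (Finset.mem_filter.1 hn).2
          have h3 := (Finset.mem_filter.1 hm).2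
          have h4 := par_inj t n m (h2.trans h3.symm)
          push_cast
          exact h4)
      push_cast at h1
      refine h1.trans ?_
      rw [le_div_iff₀ h2t0, add_mul, div_mul_cancel₀ _ h2t0.ne']
      linarith
    have h3 : (((I.filter fun n => par t n ∈ B t).card : ℕ) : ℝ) ≤ (B t).card * (3 * y ^ ε / 2 ^ t) := by
      have h4 : (((I.filter fun n => par t n ∈ B t).card : ℕ) : ℝ) ≤
          ∑ w ∈ B t, (((I.filter fun n => par t n = w).card : ℕ) : ℝ) := by exact_mod_cast hcard
      refine h4.trans ((Finset.sum_le_sum hcl).trans ?_)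
      rw [Finset.sum_const, nsmul_eq_mul]
    refine h3.trans ?_
    have h4 := ht₀ t (by omega)
    calc ((B t).card : ℝ) * (3 * y ^ ε / 2 ^ t) ≤ (δ / 9 * ε * 2 ^ t / t) * (3 * y ^ ε / 2 ^ t) :=
          mul_le_mul_of_nonneg_right h4 (by positivity)
      _ = δ / 9 * ε * (3 * y ^ ε) / t := by
          have : (t : ℝ) ≠ 0 := by
            have : (0 : ℝ) < t := by linarith
            exact this.ne'
          field_simp
      _ ≤ δ / 9 * ε * (3 * y ^ ε) / s := by
          apply div_le_div_of_nonneg_left (by positivity) hs0 htR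
  have hfin : excAt {n : ℕ | par (len ε n) n ∉ B (len ε n)} (1 - ε) y ≤
      (I.filter fun n => par s n ∈ B s).card + (I.filter fun n => par (s + 1) n ∈ B (s + 1)).card := by
    unfold excAt
    rw [e1]
    have hsub : {n : ℕ | y ≤ (n : ℝ) ∧ (n : ℝ) ≤ y + y ^ ε ∧
        n ∉ {n : ℕ | par (len ε n) n ∉ B (len ε n)}} ⊆
        (((I.filter fun n => par s n ∈ B s) ∪ (I.filter fun n => par (s + 1) n ∈ B (s + 1)) : Finset ℕ) : Set ℕ) := by
      rintro n ⟨h1, h2, h3⟩
      simp only [Set.mem_ofPred_eq, not_not] at h3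
      have hnI : n ∈ I := (hImem n).2 ⟨h1, h2⟩
      rw [Finset.mem_coe, Finset.mem_union]
      rcases hlen n hnI with h4 | h4
      · rw [h4] at h3
        exact Or.inl (Finset.mem_filter.2 ⟨hnI, h3⟩)
      · rw [h4] at h3
        exact Or.inr (Finset.mem_filter.2 ⟨hnI, h3⟩)
    have h5 := Set.ncard_le_ncard hsub (Finset.finite_toSet _)
    rw [Set.ncard_coe_finset] at h5
    exact h5.trans (Finset.card_union_le _ _)
  have h6 : (excAt {n : ℕ | par (len ε n) n ∉ B (len ε n)} (1 - ε) y : ℝ) ≤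
      δ / 9 * ε * (3 * y ^ ε) / s + δ / 9 * ε * (3 * y ^ ε) / s := by
    have h7 : (excAt {n : ℕ | par (len ε n) n ∉ B (len ε n)} (1 - ε) y : ℝ) ≤
      (((I.filter fun n => par s n ∈ B s).card : ℕ) : ℝ) +
        (((I.filter fun n => par (s + 1) n ∈ B (s + 1)).card : ℕ) : ℝ) := by exact_mod_cast hfin
    exact h7.trans (add_le_add (hone s (Or.inl rfl)) (hone (s + 1) (Or.inr rfl)))
  refine h6.trans ?_
  have hlogy : 0 < Real.log y := by
    have h7 : 0 < Real.logb 2 y := by
      by_contra hcon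
      push Not at hcon
      nlinarith
    rw [← Real.log_div_log] at h7
    exact (div_pos_iff_of_pos_right hl2).1 h7
  have h8 : 2 / 3 * (ε * Real.log y) ≤ s := by
    have h9 : a = ε * (Real.log y / Real.log 2) := by rw [ha, Real.log_div_log]
    have h10 : 1.44 * Real.log y ≤ Real.log y / Real.log 2 := by
      rw [le_div_iff₀ hl2]
      have := Real.log_two_lt_d9
      nlinarith
    have h11 := mul_le_mul_of_nonneg_left h10 hε.le
    have h12 : 0 < ε * Real.log y := by positivity
    linarith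
  rw [← add_div, div_le_div_iff₀ hs0 hlogy]
  have h12 : δ / 9 * ε * (3 * y ^ ε) + δ / 9 * ε * (3 * y ^ ε) = 2 / 3 * (δ * y ^ ε) * ε := by ring
  rw [h12]
  have hP : 0 < δ * y ^ ε := by positivity
  have h13 := mul_le_mul_of_nonneg_left h8 hP.le
  linarith

end Pool.Agent.K4H97.CE
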